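import Pool.Agent.MP_f3dc73_nt.Mg.Siegel

-- part MP_f3dc73_nt.Zeta
section

set_option autoImplicit false

namespace MZVLB

open Finset Filter Topology

/-- Truncated nested sums; the head of the list is the outermost index. -/
noncomputable def zetaT : List ℕ → ℕ → ℝ
  | [], _ => 1
  | a :: n, M => ∑ k ∈ Ico 1 M, zetaT n k / (k : ℝ) ^ a

theorem zetaT_nonneg (n : List ℕ) (M : ℕ) : 0 ≤ zetaT n M := by
  induction n generalizing M with
  | nil => simp [zetaT]
  | cons a n ih =>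
    simp only [zetaT]
    exact sum_nonneg fun k _ => div_nonneg (ih k) (by positivity)

theorem zetaT_succ (a : ℕ) (ha : 1 ≤ a) (n : List ℕ) (M : ℕ) :
    zetaT (a :: n) (M + 1) = zetaT (a :: n) M + zetaT n M / (M : ℝ) ^ a := by
  simp only [zetaT]
  rcases Nat.eq_zero_or_pos M with rfl | hM
  · have : a ≠ 0 := by omega
    simp [this]
  · rw [sum_Ico_succ_top hM]

theorem zetaT_zero (a : ℕ) (n : List ℕ) : zetaT (a :: n) 0 = 0 := by simp [zetaT]

theorem zeta_sum_sqrt (M : ℕ) : ∑ k ∈ Ico 1 (M + 1), √(k : ℝ) / k ≤ 2 * √(M : ℝ) := by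
  induction M with
  | zero => simp
  | succ M ih =>
    rw [sum_Ico_succ_top (by omega)]
    have hpos : (0 : ℝ) < ((M + 1 : ℕ) : ℝ) := by positivity
    set s := √((M + 1 : ℕ) : ℝ) with hs
    set t := √(M : ℝ) with ht
    have hs0 : 0 < s := Real.sqrt_pos.2 hpos
    have ht0 : 0 ≤ t := Real.sqrt_nonneg _
    have hs2 : s * s = ((M + 1 : ℕ) : ℝ) := Real.mul_self_sqrt hpos.le
    have ht2 : t * t = (M : ℝ) := Real.mul_self_sqrt (by positivity)
    have h3 : s * s = t * t + 1 := by rw [hs2, ht2]; push_cast; ring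
    have h4 : s / ((M + 1 : ℕ) : ℝ) ≤ 2 * s - 2 * t := by
      rw [div_le_iff₀ hpos, ← hs2]
      have : 1 ≤ (2 * s - 2 * t) * s := by nlinarith [sq_nonneg (s - t)]
      nlinarith
    linarith

theorem zetaT_le (n : List ℕ) (hn : ∀ a ∈ n, 1 ≤ a) (M : ℕ) (hM : 1 ≤ M) :
    zetaT n M ≤ 2 ^ n.length * √(M : ℝ) := by
  induction n generalizing M with
  | nil =>
    simp only [zetaT, List.length_nil, pow_zero, one_mul]
    exact Real.one_le_sqrt.2 (by exact_mod_cast hM)
  | cons a n ih =>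
    have ha : 1 ≤ a := hn a (by simp)
    have hn' : ∀ b ∈ n, 1 ≤ b := fun b hb => hn b (by simp [hb])
    obtain ⟨N, rfl⟩ : ∃ N, M = N + 1 := ⟨M - 1, by omega⟩
    simp only [zetaT, List.length_cons]
    calc ∑ k ∈ Ico 1 (N + 1), zetaT n k / (k : ℝ) ^ a
        ≤ ∑ k ∈ Ico 1 (N + 1), 2 ^ n.length * (√(k : ℝ) / k) := by
          refine sum_le_sum fun k hk => ?_
          have hk1 : 1 ≤ k := (mem_Ico.1 hk).1
          have hk' : (1 : ℝ) ≤ k := by exact_mod_cast hk1
          rw [← mul_div_assoc]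
          exact div_le_div₀ (by positivity) (ih hn' k hk1) (by linarith)
            (le_self_pow₀ hk' (by omega))
      _ = 2 ^ n.length * ∑ k ∈ Ico 1 (N + 1), √(k : ℝ) / k := by rw [mul_sum]
      _ ≤ 2 ^ n.length * (2 * √(N : ℝ)) := by gcongr; exact zeta_sum_sqrt N
      _ ≤ 2 ^ n.length * (2 * √((N + 1 : ℕ) : ℝ)) := by gcongr; omega
      _ = _ := by ring

/-- Convergent compositions. -/
def ZetaConv (n : List ℕ) : Prop := (∀ a ∈ n, 1 ≤ a) ∧ ∀ a ∈ n.head?, 2 ≤ a

theorem zetaT_bdd (n : List ℕ) (hn : ZetaConv n) : ∃ C : ℝ, ∀ M, zetaT n M ≤ C := by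
  cases n with
  | nil => exact ⟨1, fun M => by simp [zetaT]⟩
  | cons a n =>
    have ha : 2 ≤ a := hn.2 a (by simp)
    have hn' : ∀ b ∈ n, 1 ≤ b := fun b hb => hn.1 b (by simp [hb])
    have hs : Summable fun k : ℕ => (2 : ℝ) ^ n.length * (1 / (k : ℝ) ^ (3 / 2 : ℝ)) :=
      (Real.summable_one_div_nat_rpow.2 (by norm_num)).mul_left _
    refine ⟨∑' k : ℕ, (2 : ℝ) ^ n.length * (1 / (k : ℝ) ^ (3 / 2 : ℝ)), fun M => ?_⟩
    refine le_trans ?_ (hs.sum_le_tsum (Ico 1 M) fun k _ => by positivity)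
    simp only [zetaT]
    refine sum_le_sum fun k hk => ?_
    have hk1 : 1 ≤ k := (mem_Ico.1 hk).1
    have hk' : (1 : ℝ) ≤ k := by exact_mod_cast hk1
    have hk0 : (0 : ℝ) < k := by linarith
    have e : (1 : ℝ) / (k : ℝ) ^ (3 / 2 : ℝ) = √(k : ℝ) / (k : ℝ) ^ 2 := by
      rw [Real.sqrt_eq_rpow, div_eq_div_iff (by positivity) (by positivity), one_mul,
        ← Real.rpow_add hk0, ← Real.rpow_natCast]
      norm_num
    rw [e, ← mul_div_assoc]
    exact div_le_div₀ (by positivity) (zetaT_le n hn' k hk1) (by positivity)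
      (pow_le_pow_right₀ hk' ha)

/-- The exponents of a composition as a function, the last index being the outermost. -/
def zetaFn : (n : List ℕ) → Fin n.length → ℕ
  | [] => Fin.elim0
  | a :: n => Fin.snoc (α := fun _ => ℕ) (zetaFn n) a

theorem zetaFn_one (n : List ℕ) (hn : ∀ a ∈ n, 1 ≤ a) (i : Fin n.length) : 1 ≤ zetaFn n i := by
  induction n with
  | nil => exact i.elim0
  | cons a n ih =>
    refine Fin.lastCases (n := n.length) ?_ (fun j => ?_) i
    · simp only [zetaFn]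
      rw [Fin.snoc_last]
      exact hn a (by simp)
    · simp only [zetaFn]
      rw [Fin.snoc_castSucc]
      exact ih (fun b hb => hn b (by simp [hb])) j

theorem zetaFn_two (n : List ℕ) (hn : ZetaConv n) (i : Fin n.length)
    (hi : (i : ℕ) + 1 = n.length) : 2 ≤ zetaFn n i := by
  cases n with
  | nil => exact i.elim0
  | cons a n =>
    have : i = Fin.last n.length := Fin.ext (by simpa using hi)
    subst this
    simp only [zetaFn]
    rw [Fin.snoc_last]
    exact hn.2 a (by simp)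

theorem zetaFn_sum (n : List ℕ) : ∑ i, zetaFn n i = n.sum := by
  induction n with
  | nil => simp
  | cons a n ih =>
    simp only [zetaFn, List.sum_cons]
    rw [show (∑ i : Fin (a :: n).length, Fin.snoc (α := fun _ => ℕ) (zetaFn n) a i) =
      ∑ i : Fin (n.length + 1), Fin.snoc (α := fun _ => ℕ) (zetaFn n) a i from rfl,
      Fin.sum_univ_castSucc]
    simp [ih, add_comm]

open Classical in
/-- Index tuples below a bound. -/
noncomputable def zetaA (m M : ℕ) : Finset (Fin m → ℕ) :=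
  (Fintype.piFinset fun _ => range M).filter fun k => StrictMono k ∧ ∀ i, 0 < k i

theorem mem_zetaA {m M : ℕ} {k : Fin m → ℕ} :
    k ∈ zetaA m M ↔ (∀ i, k i < M) ∧ StrictMono k ∧ ∀ i, 0 < k i := by
  simp [zetaA]

theorem zeta_strictMono_snoc {m : ℕ} {k : Fin m → ℕ} {j : ℕ} (hk : StrictMono k)
    (hj : ∀ i, k i < j) : StrictMono (Fin.snoc (α := fun _ => ℕ) k j) := by
  intro p q hpq
  induction q using Fin.lastCases with
  | last =>
    induction p using Fin.lastCases with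
    | last => exact absurd hpq (lt_irrefl _)
    | cast p => simpa using hj p
  | cast q =>
    induction p using Fin.lastCases with
    | last => exact absurd hpq (not_lt.2 (Fin.le_last _))
    | cast p => simpa using hk (Fin.castSucc_lt_castSucc_iff.1 hpq)

theorem zetaA_succ (m M : ℕ) (e : Fin m → ℕ) (a : ℕ) :
    ∑ k ∈ zetaA (m + 1) M, ∏ i, (((k i : ℕ) : ℝ) ^ Fin.snoc (α := fun _ => ℕ) e a i)⁻¹ =
      ∑ j ∈ Ico 1 M, (∑ k ∈ zetaA m j, ∏ i, (((k i : ℕ) : ℝ) ^ e i)⁻¹) / (j : ℝ) ^ a := by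
  simp_rw [sum_div]
  rw [sum_sigma']
  refine sum_bij' (fun k _ => ⟨k (Fin.last m), Fin.init k⟩)
    (fun p _ => Fin.snoc (α := fun _ => ℕ) p.2 p.1) ?_ ?_ ?_ ?_ ?_
  · intro k hk
    obtain ⟨h1, h2, h3⟩ := mem_zetaA.1 hk
    refine mem_sigma.2 ⟨mem_Ico.2 ⟨h3 _, h1 _⟩, mem_zetaA.2 ⟨fun i => ?_, ?_, fun i => h3 _⟩⟩
    · exact h2 (Fin.castSucc_lt_last i)
    · intro p q hpq
      exact h2 (Fin.castSucc_lt_castSucc_iff.2 hpq)
  · rintro ⟨j, k⟩ hp
    obtain ⟨hj, hk⟩ := mem_sigma.1 hp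
    obtain ⟨h1, h2, h3⟩ := mem_zetaA.1 hk
    obtain ⟨hj1, hj2⟩ := mem_Ico.1 hj
    refine mem_zetaA.2 ⟨fun i => ?_, zeta_strictMono_snoc h2 h1, fun i => ?_⟩
    · induction i using Fin.lastCases with
      | last => simpa using hj2
      | cast i => simpa using (h1 i).trans hj2
    · induction i using Fin.lastCases with
      | last => simpa using (show 0 < j from hj1)
      | cast i => simpa using h3 i
  · intro k _
    exact Fin.snoc_init_self k
  · rintro ⟨j, k⟩ _
    simp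
  · intro k _
    rw [Fin.prod_univ_castSucc]
    simp [Fin.init, div_eq_mul_inv]

theorem zetaA_sum (n : List ℕ) (M : ℕ) :
    ∑ k ∈ zetaA n.length M, ∏ i, (((k i : ℕ) : ℝ) ^ zetaFn n i)⁻¹ = zetaT n M := by
  induction n generalizing M with
  | nil =>
    have : zetaA 0 M = {Fin.elim0} := by
      ext k
      simp only [mem_zetaA, mem_singleton]
      exact ⟨fun _ => funext fun i => i.elim0,
        fun _ => ⟨fun i => i.elim0, fun i => i.elim0, fun i => i.elim0⟩⟩
    simp only [List.length_nil, this, zetaT]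
    simp
  | cons a n ih =>
    simp only [zetaT]
    rw [← sum_congr rfl fun (j : ℕ) _ => congrArg (· / (j : ℝ) ^ a) (ih j)]
    exact zetaA_succ n.length M (zetaFn n) a

theorem zeta_tendsto (n : List ℕ) (hn : ZetaConv n) :
    Tendsto (zetaT n) atTop (𝓝 (zeta n.length (zetaFn n))) := by
  classical
  obtain ⟨C, hC⟩ := zetaT_bdd n hn
  set S : Set (Fin n.length → ℕ) := {k | StrictMono k ∧ ∀ i, 0 < k i} with hS
  set f : (Fin n.length → ℕ) → ℝ := fun k => ∏ i, (((k i : ℕ) : ℝ) ^ zetaFn n i)⁻¹ with hf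
  have hf0 : ∀ k, 0 ≤ S.indicator f k := fun k =>
    Set.indicator_nonneg (fun k _ => prod_nonneg fun i _ => by positivity) k
  have hP : ∀ M, ∑ k ∈ Fintype.piFinset fun _ => range M, S.indicator f k = zetaT n M := by
    intro M
    rw [← zetaA_sum, zetaA, sum_filter]
    refine sum_congr rfl fun k _ => ?_
    simp only [Set.indicator, hS, Set.mem_ofPred_eq, hf]
  have hmono : Monotone fun M : ℕ => Fintype.piFinset fun _ : Fin n.length => range M := by
    intro M N h
    exact Fintype.piFinset_subset _ _ fun _ => range_mono h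
  have hex : ∀ k : Fin n.length → ℕ, ∃ M, k ∈ Fintype.piFinset fun _ : Fin n.length => range M :=
    fun k => ⟨univ.sup k + 1, Fintype.mem_piFinset.2 fun i =>
      mem_range.2 (Nat.lt_succ_of_le (le_sup (f := k) (mem_univ i)))⟩
  have hT := tendsto_atTop_finset_of_monotone hmono hex
  have hsum : Summable (S.indicator f) := by
    refine summable_of_sum_le hf0 (c := C) fun u => ?_
    obtain ⟨M, hM⟩ := (hT.eventually (eventually_ge_atTop u)).exists
    exact (sum_le_sum_of_subset_of_nonneg hM fun k _ _ => hf0 k).trans ((hP M).le.trans (hC M))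
  have h1 : zeta n.length (zetaFn n) = ∑' k, S.indicator f k := tsum_subtype S f
  rw [h1]
  have h2 := hsum.hasSum
  rw [HasSum, SummationFilter.unconditional_filter] at h2
  exact (h2.comp hT).congr hP

theorem zeta_mem (n : List ℕ) (hn : ZetaConv n) : zeta n.length (zetaFn n) ∈ Zs n.sum :=
  Submodule.subset_span ⟨n.length, zetaFn n, zetaFn_one n hn.1, zetaFn_two n hn, zetaFn_sum n, rfl⟩

theorem zeta_word (u : List Bool) (hu : Adm u) : ∃ n : List ℕ, (∀ a ∈ n, 1 ≤ a) ∧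
    n.sum = u.length ∧ (u.head? ≠ some true → ∀ a ∈ n.head?, 2 ≤ a) ∧
    (∀ k, 1 ≤ k → ∑ j ∈ range k, ((c u j : ℚ) : ℝ) = zetaT n k) ∧
    (u ≠ [] → ∃ a n', n = a :: n' ∧ ∀ k, 1 ≤ k → ((c u k : ℚ) : ℝ) = zetaT n' k / (k : ℝ) ^ a) := by
  have key : ∀ (v : List Bool) (a : ℕ) (n' : List ℕ), v ≠ [] →
      (∀ k, 1 ≤ k → ((c v k : ℚ) : ℝ) = zetaT n' k / (k : ℝ) ^ a) →
      ∀ k, 1 ≤ k → ∑ j ∈ range k, ((c v j : ℚ) : ℝ) = zetaT (a :: n') k := by
    intro v a n' hv h k hk
    simp only [zetaT]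
    rw [range_eq_Ico, sum_eq_sum_Ico_succ_bot hk, c_zero hv]
    simp only [Rat.cast_zero, zero_add]
    exact sum_congr rfl fun j hj => h j (mem_Ico.1 hj).1
  induction u with
  | nil =>
    refine ⟨[], by simp, by simp, by simp, fun k hk => ?_, fun h => absurd rfl h⟩
    rw [sum_eq_single 0]
    · simp [c, zetaT]
    · intro j _ hj
      simp [c, hj]
    · intro h
      exact absurd (mem_range.2 hk) h
  | cons b t ih =>
    obtain ⟨n, h1, h2, -, h4, h5⟩ := ih hu.tail
    cases b with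
    | false =>
      obtain ⟨a, n', rfl, h6⟩ := h5 hu.ne_nil
      have ha : 1 ≤ a := h1 a (by simp)
      have h7 : ∀ k, 1 ≤ k → ((c (false :: t) k : ℚ) : ℝ) = zetaT n' k / (k : ℝ) ^ (a + 1) := by
        intro k hk
        simp only [c]
        push_cast
        rw [h6 k hk, div_div, pow_succ]
      refine ⟨(a + 1) :: n', ?_, ?_, ?_, key _ _ _ (by simp) h7, fun _ => ⟨_, _, rfl, h7⟩⟩
      · intro x hx
        rcases List.mem_cons.1 hx with rfl | hx
        · omega
        · exact h1 x (by simp [hx])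
      · simp only [List.sum_cons, List.length_cons] at h2 ⊢
        omega
      · intro _ x hx
        simp only [List.head?_cons, Option.mem_def, Option.some.injEq] at hx
        omega
    | true =>
      have h7 : ∀ k, 1 ≤ k → ((c (true :: t) k : ℚ) : ℝ) = zetaT n k / (k : ℝ) ^ 1 := by
        intro k hk
        simp only [c]
        push_cast
        rw [h4 k hk, pow_one]
      refine ⟨1 :: n, ?_, ?_, ?_, key _ _ _ (by simp) h7, fun _ => ⟨_, _, rfl, h7⟩⟩
      · intro x hx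
        rcases List.mem_cons.1 hx with rfl | hx
        · omega
        · exact h1 x hx
      · simp only [List.sum_cons, List.length_cons]
        omega
      · intro h
        simp at h

theorem zeta_zw (u : List Bool) (hu : Adm u) (hh : u.head? ≠ some true) :
    ∃ n : List ℕ, ZetaConv n ∧ n.sum = u.length ∧ Tendsto (zetaT n) atTop (𝓝 (zw u)) := by
  obtain ⟨n, h1, h2, h3, h4, -⟩ := zeta_word u hu
  have hc : ZetaConv n := ⟨h1, h3 hh⟩
  refine ⟨n, hc, h2, ?_⟩
  obtain ⟨C, hC⟩ := zetaT_bdd n hc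
  have h0 : ∀ j, (0 : ℝ) ≤ ((c u j : ℚ) : ℝ) := fun j => by exact_mod_cast c_nonneg u j
  have hs : Summable fun j => ((c u j : ℚ) : ℝ) := by
    refine summable_of_sum_range_le h0 (c := C) fun k => ?_
    refine le_trans (sum_le_sum_of_subset_of_nonneg (range_mono (Nat.le_succ k))
      fun j _ _ => h0 j) ?_
    rw [h4 (k + 1) (by omega)]
    exact hC _
  refine hs.hasSum.tendsto_sum_nat.congr' ?_
  filter_upwards [eventually_ge_atTop 1] with k hk using h4 k hk

/-- The stuffle product of a depth one composition with a composition. -/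
def zetaSt (a : ℕ) : List ℕ → List (List ℕ)
  | [] => [[a]]
  | b :: n => (a :: b :: n) :: ((a + b) :: n) :: (zetaSt a n).map (b :: ·)

theorem zetaSt_sum (a : ℕ) (n : List ℕ) : ∀ s ∈ zetaSt a n, s.sum = a + n.sum := by
  induction n with
  | nil => simp [zetaSt]
  | cons b n ih =>
    intro s hs
    simp only [zetaSt, List.mem_cons, List.mem_map] at hs
    rcases hs with rfl | rfl | ⟨t, ht, rfl⟩
    · simp
    · simp [add_assoc]
    · simp only [List.sum_cons, ih t ht]
      omega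

theorem zetaSt_one (a : ℕ) (ha : 1 ≤ a) (n : List ℕ) (hn : ∀ b ∈ n, 1 ≤ b) :
    ∀ s ∈ zetaSt a n, ∀ x ∈ s, 1 ≤ x := by
  induction n with
  | nil => simpa [zetaSt] using ha
  | cons b n ih =>
    have hb : 1 ≤ b := hn b (by simp)
    have hn' : ∀ x ∈ n, 1 ≤ x := fun x hx => hn x (by simp [hx])
    intro s hs x hx
    simp only [zetaSt, List.mem_cons, List.mem_map] at hs
    rcases hs with rfl | rfl | ⟨t, ht, rfl⟩
    · rcases List.mem_cons.1 hx with rfl | hx
      · exact ha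
      · exact hn x hx
    · rcases List.mem_cons.1 hx with rfl | hx
      · omega
      · exact hn' x hx
    · rcases List.mem_cons.1 hx with rfl | hx
      · exact hb
      · exact ih hn' t ht x hx

theorem zetaSt_conv (a : ℕ) (ha : 2 ≤ a) (n : List ℕ) (hn : ZetaConv n) :
    ∀ s ∈ zetaSt a n, ZetaConv s := by
  intro s hs
  refine ⟨zetaSt_one a (by omega) n hn.1 s hs, ?_⟩
  cases n with
  | nil =>
    simp only [zetaSt, List.mem_singleton] at hs
    subst hs
    simpa using ha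
  | cons b n =>
    have hb : 2 ≤ b := hn.2 b (by simp)
    simp only [zetaSt, List.mem_cons, List.mem_map] at hs
    rcases hs with rfl | rfl | ⟨t, ht, rfl⟩
    · simpa using ha
    · simp only [List.head?_cons, Option.mem_def, Option.some.injEq, forall_eq']
      omega
    · simpa using hb

theorem zeta_list_succ (b : ℕ) (hb : 1 ≤ b) (L : List (List ℕ)) (M : ℕ) :
    ((L.map (b :: ·)).map fun s => zetaT s (M + 1)).sum =
      ((L.map (b :: ·)).map fun s => zetaT s M).sum +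
        (L.map fun s => zetaT s M).sum / (M : ℝ) ^ b := by
  induction L with
  | nil => simp
  | cons s L ih =>
    simp only [List.map_cons, List.sum_cons, ih, zetaT_succ b hb]
    ring

theorem zetaSt_mul (a : ℕ) (ha : 1 ≤ a) (n : List ℕ) (hn : ∀ b ∈ n, 1 ≤ b) (M : ℕ) :
    zetaT [a] M * zetaT n M = ((zetaSt a n).map fun s => zetaT s M).sum := by
  induction n generalizing M with
  | nil => simp [zetaSt, zetaT]
  | cons b n ih =>
    have hb : 1 ≤ b := hn b (by simp)
    have hn' : ∀ x ∈ n, 1 ≤ x := fun x hx => hn x (by simp [hx])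
    induction M with
    | zero =>
      simp only [zetaSt, List.map_cons, List.sum_cons, zetaT_zero, List.map_map]
      simp [Function.comp_def, zetaT_zero]
    | succ M ihM =>
      simp only [zetaSt, List.map_cons, List.sum_cons] at ihM ⊢
      rw [zeta_list_succ b hb, zetaT_succ a ha, zetaT_succ b hb, zetaT_succ a ha,
        zetaT_succ (a + b) (by omega), ← ih hn' M]
      have e : zetaT [] M = 1 := rfl
      rw [e, pow_add]
      linear_combination ihM

theorem zeta_mul_mem (a : ℕ) (ha : 2 ≤ a) (u : List Bool) (hu : Adm u)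
    (hh : u.head? ≠ some true) : zeta 1 (zetaFn [a]) * zw u ∈ Zs (a + u.length) := by
  obtain ⟨n, hn, hs, ht⟩ := zeta_zw u hu hh
  have hca : ZetaConv [a] := ⟨by simpa using (by omega : 1 ≤ a), by simpa using ha⟩
  have h1 := (zeta_tendsto [a] hca).mul ht
  have h2 : Tendsto (fun M => ((zetaSt a n).map fun s => zetaT s M).sum) atTop
      (𝓝 ((zetaSt a n).map fun s => zeta s.length (zetaFn s)).sum) :=
    tendsto_list_sum _ fun s hs => zeta_tendsto s (zetaSt_conv a ha n hn s hs)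
  have h3 : zeta 1 (zetaFn [a]) * zw u =
      ((zetaSt a n).map fun s => zeta s.length (zetaFn s)).sum :=
    tendsto_nhds_unique (h1.congr fun M => zetaSt_mul a (by omega) n hn.1 M) h2
  rw [h3]
  refine list_sum_mem fun x hx => ?_
  obtain ⟨s, hs', rfl⟩ := List.mem_map.1 hx
  have := zeta_mem s (zetaSt_conv a ha n hn s hs')
  rwa [zetaSt_sum a n s hs', hs] at this

theorem zeta_one_pos (a : ℕ) (ha : 2 ≤ a) : 0 < zeta 1 (zetaFn [a]) := by
  have hca : ZetaConv [a] := ⟨by simpa using (by omega : 1 ≤ a), by simpa using ha⟩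
  refine lt_of_lt_of_le one_pos (ge_of_tendsto (zeta_tendsto [a] hca) ?_)
  filter_upwards [eventually_ge_atTop 2] with M hM
  simp only [zetaT]
  refine le_trans ?_ (single_le_sum (f := fun k : ℕ => (1 : ℝ) / (k : ℝ) ^ a) (a := 1)
    (fun k _ => by positivity) (mem_Ico.2 ⟨le_rfl, by omega⟩))
  simp

theorem zeta_Zs_finite (k : ℕ) : Module.Finite ℚ (Zs k) := by
  refine Module.Finite.span_of_finite ℚ ?_
  have h : (⋃ m ∈ Set.Iic k, zeta m '' {n : Fin m → ℕ | ∀ i, n i ∈ Set.Iic k}).Finite :=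
    (Set.finite_Iic k).biUnion fun m _ => (Set.Finite.pi' fun _ => Set.finite_Iic k).image _
  refine h.subset ?_
  rintro x ⟨m, n, h1, -, h3, rfl⟩
  refine Set.mem_biUnion (x := m) ?_ ⟨n, fun i => ?_, rfl⟩
  · have : ∑ _i : Fin m, 1 ≤ ∑ i, n i := sum_le_sum fun i _ => h1 i
    simp only [sum_const, card_univ, Fintype.card_fin, smul_eq_mul, mul_one] at this
    exact this.trans h3.le
  · exact (single_le_sum (f := n) (fun j _ => Nat.zero_le _) (mem_univ i)).trans h3.le

/-- Convergent values of weight exactly j. -/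
def zetaG (j : ℕ) : Set ℝ :=
  {x | ∃ u : List Bool, Adm u ∧ u.head? ≠ some true ∧ u.length = j ∧ x = zw u}

theorem zetaG_finite (j : ℕ) : (zetaG j).Finite :=
  (G_finite j).subset fun _ ⟨u, h1, h2, h3, h4⟩ => ⟨u, h1, h2, h3.le, h4⟩

theorem zetaG_le (j k : ℕ) (h : j + 2 ≤ k) :
    Module.finrank ℚ (Submodule.span ℚ (zetaG j)) ≤ Module.finrank ℚ (Zs k) := by
  have := zeta_Zs_finite k
  set z := zeta 1 (zetaFn [k - j]) with hz
  have hz0 : z ≠ 0 := (zeta_one_pos (k - j) (by omega)).ne'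
  have hle : (Submodule.span ℚ (zetaG j)).map (LinearMap.mulLeft ℚ z) ≤ Zs k := by
    rw [Submodule.map_span, Submodule.span_le]
    rintro _ ⟨_, ⟨u, h1, h2, h3, rfl⟩, rfl⟩
    have := zeta_mul_mem (k - j) (by omega) u h1 h2
    rwa [h3, show k - j + j = k by omega] at this
  have hinj : Function.Injective (LinearMap.mulLeft ℚ z) := mul_right_injective₀ hz0
  rw [(Submodule.equivMapOfInjective _ hinj _).finrank_eq]
  exact Submodule.finrank_mono hle

theorem finrank_G_le (R k : ℕ) (h : R + 2 ≤ k) :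
    Module.finrank ℚ (Submodule.span ℚ (G R)) ≤ (R + 1) * Module.finrank ℚ (Zs k) := by
  induction R with
  | zero =>
    have : G 0 = zetaG 0 := by
      ext x
      simp [G, zetaG]
    rw [this, zero_add, one_mul]
    exact zetaG_le 0 k h
  | succ R ih =>
    have hG : G (R + 1) = G R ∪ zetaG (R + 1) := by
      ext x
      constructor
      · rintro ⟨u, h1, h2, h3, h4⟩
        rcases Nat.lt_or_ge u.length (R + 1) with h5 | h5
        · exact Or.inl ⟨u, h1, h2, by omega, h4⟩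
        · exact Or.inr ⟨u, h1, h2, by omega, h4⟩
      · rintro (⟨u, h1, h2, h3, h4⟩ | ⟨u, h1, h2, h3, h4⟩)
        · exact ⟨u, h1, h2, by omega, h4⟩
        · exact ⟨u, h1, h2, by omega, h4⟩
    have := Module.Finite.span_of_finite ℚ (G_finite R)
    have := Module.Finite.span_of_finite ℚ (zetaG_finite (R + 1))
    rw [hG, Submodule.span_union]
    refine (Submodule.finrank_add_le_finrank_add_finrank _ _).trans ?_
    have h1 := ih (by omega)
    have h2 := zetaG_le (R + 1) k h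
    nlinarith

end MZVLB

end

-- part MP_f3dc73_nt.Main
section

set_option autoImplicit false

namespace MZVLB

open Finset

/-- Small integer combinations of the functions x^i L_u vanishing to order T at the origin. -/
def Small (w n T h : ℕ) : Set (W w × Fin (n + 1) → ℚ) :=
  {x | (∀ p, ∃ z : ℤ, x p = z) ∧ (∀ p, |x p| ≤ h) ∧ ∀ m < T, ∑ p, x p * cs p.1.1 p.2 m = 0}

theorem small_large (w n T t h : ℕ) (ht : 1 ≤ t) (hT : 1 ≤ T)
    (hh : (t + 1) * T * 2 ^ (8 * T * w) ≤ h ^ t) :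
    Fintype.card (W w × Fin (n + 1))
      < (t + 1) * T + Module.finrank ℚ (Submodule.span ℚ (Small w n T h)) := by
  have hex : ∀ (m : Fin T) (p : W w × Fin (n + 1)),
      ∃ z : ℤ, (Nat.lcmUpto T : ℚ) ^ w * cs p.1.1 p.2 m = z := by
    intro m p
    unfold cs
    split_ifs
    · exact c_den _ T w _ p.1.2.2 (by have := m.2; omega)
    · exact ⟨0, by simp⟩
  choose A hA using hex
  have hd : (0 : ℚ) < (Nat.lcmUpto T : ℚ) ^ w := by
    have := Nat.lcmUpto_pos T
    positivity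
  have h1 := small_span T t (2 ^ (8 * T * w)) h ht hT Nat.one_le_two_pow (Matrix.of A) (by
    intro m p
    have h2 : |(A m p : ℚ)| ≤ ((2 ^ (8 * T * w) : ℕ) : ℚ) := by
      rw [← hA, abs_mul, abs_of_pos hd]
      have h3 : |cs p.1.1 p.2 m| ≤ 1 := by
        unfold cs
        split_ifs
        · rw [abs_of_nonneg (c_nonneg _ _)]; exact c_le_one _ _
        · simp
      have h4 : (Nat.lcmUpto T : ℚ) ^ w ≤ ((2 ^ (8 * T * w) : ℕ) : ℚ) := by
        rw [pow_mul]
        exact_mod_cast Nat.pow_le_pow_left (lcmUpto_le T) w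
      nlinarith [abs_nonneg (cs p.1.1 p.2 m)]
    exact_mod_cast h2) hh
  refine h1.trans_le (Nat.add_le_add_left (Submodule.finrank_mono (Submodule.span_mono ?_)) _)
  rintro x ⟨z, hz, hzh, rfl⟩
  refine ⟨fun p => ⟨z p, rfl⟩, fun p => by
    show |(z p : ℚ)| ≤ h
    exact_mod_cast hzh p, fun m hm => ?_⟩
  have h2 := congrFun hz ⟨m, hm⟩
  simp only [Matrix.mulVec, dotProduct, Matrix.of_apply, Pi.zero_apply] at h2
  have h3 : ∑ p, (A ⟨m, hm⟩ p : ℚ) * (z p : ℚ) = 0 := by exact_mod_cast h2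
  apply mul_left_cancel₀ hd.ne'
  rw [mul_zero, mul_sum, ← h3]
  refine sum_congr rfl fun p _ => ?_
  rw [← hA]; ring

theorem step (w : ℕ) : ∃ C : ℕ, ∀ n T t h : ℕ, 1 ≤ t → 1 ≤ T → 1 ≤ h →
    (t + 1) * T * 2 ^ (8 * T * w) ≤ h ^ t → 2 * ((t + 1) * T) ≤ Fintype.card (W w) * (n + 1) →
    ∀ M : ℕ, M = Nat.lcmUpto (2 * n + 4 * Fintype.card (W w) + 1) ^ (2 * w + 1)
      * (h * (Fintype.card (W w) * (n + 4 * Fintype.card (W w) + 1)))
      * (h * (Fintype.card (W w) * (n + 1))) →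
    4 ^ T ≤ 2 * (C * (M * (2 ^ n * 4 ^ (2 * w)))) ^ Module.finrank ℚ (Submodule.span ℚ (G (2 * w)))
      * M * (2 * T + 2) ^ 2 := by
  obtain ⟨C, -, hC⟩ := criterion (G (2 * w)) (G_finite _) (one_mem_G _)
  refine ⟨C, fun n T t h ht hT h1 hh hκ M hM => ?_⟩
  set N := Fintype.card (W w) with hN
  set D := Nat.lcmUpto (2 * n + 4 * N + 1) ^ (2 * w + 1) with hD
  have hDpos : 0 < D := pow_pos (Nat.lcmUpto_pos _) _
  have hNpos : 0 < N := Fintype.card_pos_iff.2 ⟨W.root w⟩
  have hMpos : 0 < M := by rw [hM]; positivity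
  let S : Set ℝ := {s | ∃ x ∈ Small w (n + 4 * N) T h, ∃ y ∈ Small w n T h,
    s = (D : ℝ) * ∑ p, ∑ q, (x p : ℝ) * (y q : ℝ) * Y p.1.1 q.1.1 (p.2 + 1) (q.2 + 1)}
  have hφS : ∀ (φ : ℝ →ₗ[ℚ] ℚ) (x : W w × Fin (n + 4 * N + 1) → ℚ) (y : W w × Fin (n + 1) → ℚ),
      φ ((D : ℝ) * ∑ p, ∑ q, (x p : ℝ) * (y q : ℝ) * Y p.1.1 q.1.1 (p.2 + 1) (q.2 + 1))
        = (D : ℚ) * ∑ p, ∑ q, x p * y q * φ (Y p.1.1 q.1.1 (p.2 + 1) (q.2 + 1)) := by
    intro φ x y
    rw [← nsmul_eq_mul, map_nsmul, nsmul_eq_mul, map_sum]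
    congr 1
    refine sum_congr rfl fun p _ => ?_
    rw [map_sum]
    refine sum_congr rfl fun q _ => ?_
    rw [← Rat.cast_mul, ← Rat.smul_def, map_smul, smul_eq_mul]
  have key := hC S (M * (2 ^ n * 4 ^ (2 * w))) ((M : ℝ) * ((2 * T + 2) ^ 2 / 4 ^ T))
    (Nat.one_le_iff_ne_zero.2 (by positivity)) ?_ ?_ ?_
  · have h4 : (0 : ℝ) < 4 ^ T := by positivity
    rw [← mul_div_assoc, ← mul_div_assoc, le_div_iff₀ h4, one_mul, ← mul_assoc] at key
    exact_mod_cast key
  · rintro s ⟨x, hx, y, hy, rfl⟩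
    have h2 := Y_small (fun p : W w × Fin (n + 4 * N + 1) => p.1.1) (fun p => p.2)
      (fun p : W w × Fin (n + 1) => p.1.1) (fun p => p.2) x y h h hx.2.1 hy.2.1 T hx.2.2 hy.2.2
    rw [abs_mul, Nat.abs_cast, hM]
    simp only [Fintype.card_prod, Fintype.card_fin, ← hN, Rat.cast_natCast] at h2
    have h3 := mul_le_mul_of_nonneg_left h2 (Nat.cast_nonneg (α := ℝ) D)
    refine h3.trans (le_of_eq ?_)
    push_cast
    ring
  · rintro φ C' hφ s ⟨x, hx, y, hy, rfl⟩
    have ha := fun (p : W w × Fin (n + 4 * N + 1)) (q : W w × Fin (n + 1)) =>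
      arith (2 * w) φ C' hφ p.1.1 q.1.1 p.1.2.1 q.1.2.1
        (by have := p.1.2.2; have := q.1.2.2; omega) (2 * n + 4 * N) p.2 q.2
        (by have := p.2.2; have := q.2.2; omega)
    have hC' : 0 ≤ C' := (abs_nonneg _).trans (hφ 1 (one_mem_G _)).2
    rw [hφS]
    constructor
    · choose zx hzx using hx.1
      choose zy hzy using hy.1
      choose z hz using fun p q => (ha p q).1
      refine ⟨∑ p, ∑ q, zx p * zy q * z p q, ?_⟩
      push_cast
      rw [mul_sum]
      refine sum_congr rfl fun p _ => ?_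
      rw [mul_sum]
      refine sum_congr rfl fun q _ => ?_
      rw [← hz, ← hzx, ← hzy, hD]
      push_cast
      ring
    · rw [abs_mul, Nat.abs_cast]
      have h2 : |∑ p, ∑ q, x p * y q * φ (Y p.1.1 q.1.1 (p.2 + 1) (q.2 + 1))|
          ≤ ∑ _p : W w × Fin (n + 4 * N + 1), ∑ _q : W w × Fin (n + 1),
            (h : ℚ) * h * (C' * 2 ^ n * 4 ^ (2 * w)) := by
        refine (abs_sum_le_sum_abs _ _).trans (sum_le_sum fun p _ => ?_)
        refine (abs_sum_le_sum_abs _ _).trans (sum_le_sum fun q _ => ?_)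
        rw [abs_mul, abs_mul]
        have h3 : |φ (Y p.1.1 q.1.1 (p.2 + 1) (q.2 + 1))| ≤ C' * 2 ^ n * 4 ^ (2 * w) := by
          refine (ha p q).2.trans ?_
          have : (q.2 : ℕ) ≤ n := by have := q.2.2; omega
          gcongr
          norm_num
        have h4 := hx.2.1 p
        have h5 := hy.2.1 q
        gcongr
      simp only [sum_const, card_univ, Fintype.card_prod, Fintype.card_fin, ← hN,
        nsmul_eq_mul] at h2
      have h3 := mul_le_mul_of_nonneg_left h2 (Nat.cast_nonneg (α := ℚ) D)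
      refine h3.trans (le_of_eq ?_)
      rw [hM]
      push_cast
      ring
  · intro φ hφ
    obtain ⟨x, hx, y, hy, hxy⟩ := exists_pair_ne_zero
      (fun (p : W w × Fin (n + 4 * N + 1)) (q : W w × Fin (n + 1)) =>
        φ (Y p.1.1 q.1.1 (p.2 + 1) (q.2 + 1)))
      (nondeg φ hφ w (n + 4 * N) n le_rfl) (Small w (n + 4 * N) T h) (Small w n T h) ((t + 1) * T)
      (small_large w _ T t h ht hT hh) (small_large w _ T t h ht hT hh)
      (by rwa [Fintype.card_prod, Fintype.card_fin])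
    refine ⟨_, ⟨x, hx, y, hy, rfl⟩, ?_⟩
    rw [hφS]
    exact mul_ne_zero (by exact_mod_cast hDpos.ne') hxy

/-- Growth at most polynomial times 2^(b n). -/
def Bd (f : ℕ → ℕ) (b : ℕ) : Prop := ∃ K a : ℕ, ∀ n, f n ≤ K * (n + 1) ^ a * 2 ^ (b * n)

theorem Bd.mul {f g : ℕ → ℕ} {b b' : ℕ} (hf : Bd f b) (hg : Bd g b') :
    Bd (fun n => f n * g n) (b + b') := by
  obtain ⟨K, a, h⟩ := hf
  obtain ⟨K', a', h'⟩ := hg
  refine ⟨K * K', a + a', fun n => (Nat.mul_le_mul (h n) (h' n)).trans (le_of_eq ?_)⟩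
  ring

theorem Bd.const (K : ℕ) : Bd (fun _ => K) 0 := ⟨K, 0, fun n => by simp⟩

theorem Bd.lin (A B : ℕ) : Bd (fun n => A * n + B) 0 :=
  ⟨A + B, 1, fun n => by simp only [pow_one, zero_mul, pow_zero, mul_one]; nlinarith⟩

theorem Bd.exp (A B : ℕ) : Bd (fun n => 2 ^ (A * n + B)) A :=
  ⟨2 ^ B, 0, fun n => le_of_eq (by ring)⟩

theorem Bd.pow {f : ℕ → ℕ} {b : ℕ} (hf : Bd f b) (d : ℕ) : Bd (fun n => f n ^ d) (d * b) := by
  obtain ⟨K, a, h⟩ := hf
  refine ⟨K ^ d, a * d, fun n => (Nat.pow_le_pow_left (h n) d).trans (le_of_eq ?_)⟩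
  rw [mul_pow, mul_pow, ← pow_mul, ← pow_mul]
  congr 2; ring

theorem Bd.mono {f g : ℕ → ℕ} {b b' : ℕ} (hg : Bd g b) (h : ∀ n, f n ≤ g n) (hb : b ≤ b') :
    Bd f b' := by
  obtain ⟨K, a, h'⟩ := hg
  refine ⟨K, a, fun n => (h n).trans ((h' n).trans ?_)⟩
  gcongr
  norm_num

theorem not_bd {f : ℕ → ℕ} {b : ℕ} (hf : Bd f b) (h : ∀ n, 1 ≤ n → 2 ^ ((b + 1) * n) ≤ f n) :
    False := by
  obtain ⟨K, a, h'⟩ := hf
  have h1 : ∀ n, 1 ≤ n → 2 ^ n ≤ K * (n + 1) ^ a := by
    intro n hn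
    have := (h n hn).trans (h' n)
    rw [add_mul, one_mul, pow_add, mul_comm] at this
    exact Nat.le_of_mul_le_mul_right this (by positivity)
  have h2 := (tendsto_pow_const_div_const_pow_of_one_lt a (r := 2) (by norm_num)).comp
    (Filter.tendsto_add_atTop_nat 1)
  have h3 := (h2.const_mul (2 * K : ℝ)).eventually (gt_mem_nhds (show (2 * K : ℝ) * 0 < 1 by simp))
  obtain ⟨n, hn, hn1⟩ := (h3.and (Filter.eventually_ge_atTop 1)).exists
  have h4 : (2 : ℝ) ^ n ≤ K * (n + 1) ^ a := by exact_mod_cast h1 n hn1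
  simp only [Function.comp, Nat.cast_add, Nat.cast_one] at hn
  rw [← mul_div_assoc, div_lt_one (by positivity), pow_succ] at hn
  linarith

theorem card_lt (w : ℕ) : ∀ δ : ℕ, δ = Module.finrank ℚ (Submodule.span ℚ (G (2 * w))) →
    Fintype.card (W w) < 2 * ((16 * w * (δ + 1) + 2) * ((δ + 1) * (32 * w + 17))) := by
  intro δ hδ
  by_contra hcon
  push Not at hcon
  obtain ⟨C, hC⟩ := step w
  rw [← hδ] at hC
  set N := Fintype.card (W w) with hN
  set t := 16 * w * (δ + 1) + 1 with ht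
  set ρ := (δ + 1) * (32 * w + 17) with hρ
  have hρ1 : 1 ≤ ρ := Nat.one_le_iff_ne_zero.2 (by positivity)
  have ht1 : 1 ≤ t := by omega
  let h : ℕ → ℕ := fun m => ((t + 1) * ρ * t * m + 0) * 2 ^ (8 * ρ * w * m + 0)
  have hh : Bd h (0 + 8 * ρ * w) := (Bd.lin _ _).mul (Bd.exp _ _)
  let M : ℕ → ℕ := fun m => Nat.lcmUpto (2 * (t * m) + 4 * N + 1) ^ (2 * w + 1)
      * (h m * (N * (t * m + 4 * N + 1))) * (h m * (N * (t * m + 1)))
  have hD : Bd (fun m => Nat.lcmUpto (2 * (t * m) + 4 * N + 1)) (16 * t) := by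
    refine (Bd.exp (16 * t) (8 * (4 * N + 1))).mono (fun m => (lcmUpto_le _).trans (le_of_eq ?_))
      le_rfl
    congr 1; ring
  have hM : Bd M ((2 * w + 1) * (16 * t) + 16 * ρ * w) := by
    refine (((hD.pow (2 * w + 1)).mul (hh.mul ((Bd.const N).mul (Bd.lin t (4 * N + 1))))).mul
      (hh.mul ((Bd.const N).mul (Bd.lin t 1)))).mono (fun m => le_of_eq ?_) (le_of_eq (by ring))
    simp only [M, add_assoc]
  have hall := ((((Bd.const 2).mul (((Bd.const C).mul (hM.mul ((Bd.exp t 0).mul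
    (Bd.const (4 ^ (2 * w)))))).pow δ)).mul hM).mul ((Bd.lin (2 * ρ * t) 2).pow 2))
  refine not_bd hall fun m hm => ?_
  have h1 := hC (t * m) (ρ * (t * m)) t (h m) ht1 (Nat.one_le_iff_ne_zero.2 (by positivity))
    (Nat.one_le_iff_ne_zero.2 (by simp only [h]; positivity)) (by
      simp only [h, add_zero]
      rw [mul_pow, ← pow_mul]
      refine Nat.mul_le_mul ?_ (le_of_eq (by congr 1; ring))
      refine le_trans (le_of_eq (by ring)) (Nat.le_self_pow (by omega) _)) (by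
      calc 2 * ((t + 1) * (ρ * (t * m))) = 2 * ((t + 1) * ρ) * (t * m) := by ring
        _ ≤ N * (t * m + 1) := Nat.mul_le_mul hcon (Nat.le_succ _)) (M m) rfl
  refine le_trans ?_ (h1.trans (le_of_eq ?_))
  · rw [show (4 : ℕ) = 2 ^ 2 by norm_num, ← pow_mul]
    refine Nat.pow_le_pow_right (by norm_num) ?_
    rw [show 2 * (ρ * (t * m)) = 2 * ρ * t * m by ring]
    refine Nat.mul_le_mul_right _ ?_
    have e : 0 + δ * (0 + ((2 * w + 1) * (16 * t) + 16 * ρ * w + (t + 0)))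
        + ((2 * w + 1) * (16 * t) + 16 * ρ * w) + 2 * 0 + (t + ρ) = 2 * ρ * t := by
      rw [hρ, ht]; ring
    omega
  · simp only [add_zero, mul_assoc]

theorem main_nat (k : ℕ) (hk : 2 ≤ k) : 2 ^ k ≤ (64 * k ^ 2 * Module.finrank ℚ (Zs k)) ^ 4 := by
  obtain ⟨w, hw1, hw2⟩ : ∃ w, 2 * w + 2 ≤ k ∧ k ≤ 2 * w + 3 := ⟨(k - 2) / 2, by omega, by omega⟩
  have h1 := (card_W w).trans_lt (card_lt w _ rfl)
  have h2 := finrank_G_le (2 * w) k hw1
  have h3 : 1 ≤ Module.finrank ℚ (Submodule.span ℚ (G (2 * w))) := by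
    have : Module.Finite ℚ (Submodule.span ℚ (G (2 * w))) :=
      Module.Finite.span_of_finite ℚ (G_finite _)
    rw [Nat.one_le_iff_ne_zero, Ne, Submodule.finrank_eq_zero, Submodule.span_eq_bot]
    intro h
    exact one_ne_zero (h 1 (one_mem_G _))
  generalize Module.finrank ℚ (Submodule.span ℚ (G (2 * w))) = δ at h1 h2 h3
  generalize Module.finrank ℚ (Zs k) = d at h2
  have h4 : δ ≤ k * d := h2.trans (Nat.mul_le_mul_right _ (by omega))
  have h5 : 16 * w * (δ + 1) + 2 ≤ 16 * k * δ := by nlinarith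
  have h6 : (δ + 1) * (32 * w + 17) ≤ 32 * k * δ := by nlinarith
  have h7 : 2 ^ w ≤ 2 * ((16 * k * (k * d)) * (32 * k * (k * d))) := by
    exact h1.le.trans (Nat.mul_le_mul_left _ (Nat.mul_le_mul
      (h5.trans (Nat.mul_le_mul_left _ h4)) (h6.trans (Nat.mul_le_mul_left _ h4))))
  calc 2 ^ k ≤ 2 ^ (2 * w + 3) := Nat.pow_le_pow_right (by norm_num) hw2
    _ = 8 * (2 ^ w) ^ 2 := by ring
    _ ≤ 8 * (2 * ((16 * k * (k * d)) * (32 * k * (k * d)))) ^ 2 := by gcongr
    _ = 2 ^ 23 * (k ^ 2 * d) ^ 4 := by ring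
    _ ≤ 2 ^ 24 * (k ^ 2 * d) ^ 4 := by gcongr <;> norm_num
    _ = (64 * k ^ 2 * d) ^ 4 := by ring

theorem main_real (k : ℕ) (hk : 2 ≤ k) :
    (2 : ℝ) ^ ((k : ℝ) / 4) / (64 * (k : ℝ) ^ 2) ≤ (Module.finrank ℚ (Zs k) : ℝ) := by
  have h1 : (2 : ℝ) ^ k ≤ (64 * (k : ℝ) ^ 2 * Module.finrank ℚ (Zs k)) ^ 4 := by
    exact_mod_cast main_nat k hk
  have hk' : (0 : ℝ) < k := by exact_mod_cast (by omega : 0 < k)
  rw [div_le_iff₀ (by positivity), mul_comm]
  refine le_of_pow_le_pow_left₀ (n := 4) (by norm_num) (by positivity) (le_trans (le_of_eq ?_) h1)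
  rw [← Real.rpow_natCast, ← Real.rpow_mul (by norm_num), ← Real.rpow_natCast]
  congr 1
  push_cast
  ring

end MZVLB

end
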