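import Pool.Agent.MP_f3dc73_nt.Mg.Siegel
import Mathlib
import Pool.Agent.MP_f3dc73_nt.Mg.Main

attribute [-instance] ContinuousSemilinearMapClass.toSemilinearMapClass
  AlgHom.instNonUnitalAlgHomClassOfAlgHomClass AddQuantale.instAddLeftMono
  IdemSemiring.toCanonicallyOrderedAdd instCompleteSpaceSubtypeMemSubmoduleOfIsClosedCoe
  RKHS.instFunLike RingHomClass.toLinearMapClassNNRat Module.FaithfullyFlat.of_isIntegral_of_isDomain
  RingHomClass.toLinearMapClassRat AddQuantale.instAddRightMono CoalgHomClass.toSemilinearMapClass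
  IdemSemiring.toMulLeftMono bot_nonempty Nontrivial.to_nonempty
  NonUnitalAlgHomClass.instLinearMapClass NonUnitalAlgSemiHomClass.toDistribMulActionSemiHomClass
  instCoeTCOfCoe Fintype.decidableForallFintype Quantale.instMulRightMono IdemSemiring.toMulRightMono
  Zero.instNonempty NonUnitalNonAssocSemiring.toAddCommMonoid NumberField.to_charZero
  IsOrderedMonoid.toMulLeftMono
  NonUnitalAlgHomClass.instSemilinearMapClassOfNonUnitalAlgSemiHomClassToMonoidHomRingHom
  One.instNonempty littleWedderburn LieAdmissibleAlgebra.toModule Quantale.instMulLeftMono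
  GrpTypeEquivalenceGrp.grpGroup AddTorsor.nonempty AlgHomClass.linearMapClass
  IsScalarTower.complexToReal MulSemiringActionSemiHomClass.toDistribMulActionSemiHomClass
  top_nonempty ContinuousMonoidHom.instCoeOutOfMonoidHomClassOfContinuousMapClass
  RightPreLieAlgebra.toModule LeftPreLieAlgebra.toModule Nat.decidableForallFin
  Module.IsNoetherian.finite instCoeTOfCoeDep NeZero.of_gt' MonTypeEquivalenceMon.monMonoid
  SemilinearEquivClass.instSemilinearMapClass Field.toDivisionRing ConnectedSpace.toNonempty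
  instSMulZeroClass NormedRing.toRing instNonUnitalAlgHomClassOfNonUnitalAlgEquivClass
  TestFunctionClass.toDFunLike CentroidHomClass.toAddMonoidHomClass
  ContDiffMapSupportedInClass.toDFunLike MulRingSeminormClass.toMonoidWithZeroHomClass
  NormedCommRing.toCommRing CanonicallyOrderedAdd.toMulLeftMono Invertible.toNeZero

-- part MP_f3dc73_nt.H30.Const
section

/-!
Saturated submodules stable under a unipotent connection on the projective line minus three points
are spanned by constant vectors.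
-/

set_option autoImplicit false

namespace MZVLB

open Finset Polynomial

section const

variable {ι : Type} [Fintype ι]

/-- The connection x(1-x) d/dx + (1-x) e0 + x e1. -/
noncomputable def nab (ε : Bool → Matrix ι ι ℚ) (x : ι → ℚ[X]) : ι → ℚ[X] :=
  fun i => th (x i) + ∑ j, ((1 - X) * C (ε false i j) + X * C (ε true i j)) * x j

theorem nab_add (ε : Bool → Matrix ι ι ℚ) (x y : ι → ℚ[X]) :
    nab ε (x + y) = nab ε x + nab ε y := by
  funext i
  simp only [nab, Pi.add_apply, th_add, mul_add, sum_add_distrib]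
  ring

theorem nab_smul (ε : Bool → Matrix ι ι ℚ) (f : ℚ[X]) (x : ι → ℚ[X]) :
    nab ε (f • x) = th f • x + f • nab ε x := by
  funext i
  simp only [nab, Pi.add_apply, Pi.smul_apply, smul_eq_mul, th_mul, mul_add, mul_sum]
  rw [add_assoc]
  congr 2
  exact sum_congr rfl fun j _ => by ring

/-- Pairing of a constant functional with a polynomial vector. -/
noncomputable def pr (ψ : ι → ℚ) (x : ι → ℚ[X]) : ℚ[X] := ∑ i, C (ψ i) * x i

theorem pr_coeff (ψ : ι → ℚ) (x : ι → ℚ[X]) (d : ℕ) :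
    (pr ψ x).coeff d = ∑ i, ψ i * (x i).coeff d := by
  simp only [pr, finsetSum_coeff, coeff_C_mul]

theorem pr_nab (ε : Bool → Matrix ι ι ℚ) (ψ : ι → ℚ) (x : ι → ℚ[X]) :
    pr ψ (nab ε x) = th (pr ψ x) + (1 - X) * pr (Matrix.vecMul ψ (ε false)) x
      + X * pr (Matrix.vecMul ψ (ε true)) x := by
  have h : ∀ β, pr (Matrix.vecMul ψ (ε β)) x = ∑ i, ∑ j, C (ψ i) * (C (ε β i j) * x j) := by
    intro β
    simp only [pr, Matrix.vecMul, dotProduct, map_sum, map_mul, sum_mul]
    rw [sum_comm]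
    exact sum_congr rfl fun i _ => sum_congr rfl fun j _ => mul_assoc _ _ _
  rw [h, h, mul_sum, mul_sum, pr, pr, th_sum, ← sum_add_distrib, ← sum_add_distrib]
  refine sum_congr rfl fun i _ => ?_
  rw [nab, th_mul, th_C, mul_add, mul_sum, mul_sum, mul_sum, zero_mul, zero_add, add_assoc,
    ← sum_add_distrib]
  congr 1
  exact sum_congr rfl fun j _ => by ring

theorem nab_const_coeff (ε : Bool → Matrix ι ι ℚ) (c : ι → ℚ) (i : ι) :
    nab ε (fun j => C (c j)) i = C (Matrix.mulVec (ε false) c i)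
      + X * C (Matrix.mulVec (ε true) c i - Matrix.mulVec (ε false) c i) := by
  simp only [nab, th_C, zero_add, Matrix.mulVec, dotProduct, map_sub, map_sum, map_mul, mul_sub,
    mul_sum]
  rw [← sum_sub_distrib, ← sum_add_distrib]
  exact sum_congr rfl fun j _ => by ring

theorem mem_of_coeff (S : Submodule ℚ[X] (ι → ℚ[X])) (x : ι → ℚ[X])
    (h : ∀ d, (fun i => C ((x i).coeff d)) ∈ S) : x ∈ S := by
  classical
  have e : x = ∑ d ∈ range (univ.sup (fun i => (x i).natDegree) + 1),
      (X ^ d : ℚ[X]) • fun i => C ((x i).coeff d) := by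
    funext i
    rw [Finset.sum_apply]
    conv_lhs => rw [as_sum_range' (x i) (univ.sup (fun i => (x i).natDegree) + 1)
      (Nat.lt_succ_of_le (le_sup (f := fun i => (x i).natDegree) (mem_univ i)))]
    refine sum_congr rfl fun d _ => ?_
    simp only [Pi.smul_apply, smul_eq_mul]
    rw [mul_comm, C_mul_X_pow_eq_monomial]
  rw [e]
  exact S.sum_mem fun d _ => S.smul_mem _ (h d)

/-- Membership in a subspace is tested by the functionals killing it. -/
theorem mem_of_ann (V : Submodule ℚ (ι → ℚ)) (c : ι → ℚ)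
    (h : ∀ ψ : ι → ℚ, (∀ w ∈ V, ∑ i, ψ i * w i = 0) → ∑ i, ψ i * c i = 0) : c ∈ V := by
  classical
  by_contra hc
  obtain ⟨g, hg1, hg2⟩ := LinearMap.exists_extend_of_notMem (0 : V →ₗ[ℚ] ℚ) hc (1 : ℚ)
  have hg : ∀ w : ι → ℚ, g w = ∑ i, g (Pi.single i 1) * w i := by
    intro w
    conv_lhs => rw [pi_eq_sum_univ' w]
    simp only [map_sum, map_smul, smul_eq_mul]
    exact sum_congr rfl fun i _ => mul_comm _ _
  have := h (fun i => g (Pi.single i 1)) (fun w hw => by
    rw [← hg]
    have := congrArg (fun f : V →ₗ[ℚ] ℚ => f ⟨w, hw⟩) hg1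
    simpa only [LinearMap.coe_comp, Submodule.coe_subtype, Function.comp_apply, LinearMap.zero_apply] using this)
  rw [← hg, hg2] at this
  exact one_ne_zero this

theorem constancy (ε : Bool → Matrix ι ι ℚ) (wt : ι → ℕ)
    (hε : ∀ β i j, ε β i j ≠ 0 → wt i < wt j) (S : Submodule ℚ[X] (ι → ℚ[X]))
    (hsat : ∀ (f : ℚ[X]) x, f ≠ 0 → f • x ∈ S → x ∈ S) (hst : ∀ x ∈ S, nab ε x ∈ S) :
    ∀ x ∈ S, ∀ d, (fun i => C ((x i).coeff d)) ∈ S := by
  classical
  suffices H : ∀ (n : ℕ) (J : Finset ι), J.card = n → (∀ β i j, j ∈ J → ε β i j ≠ 0 → i ∈ J) →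
      ∀ x ∈ S, (∀ i, i ∉ J → x i = 0) → ∀ d, (fun i => C ((x i).coeff d)) ∈ S from
    fun x hx => H _ univ rfl (fun _ _ _ _ _ => mem_univ _) x hx (fun i hi => absurd (mem_univ i) hi)
  intro n
  induction n with
  | zero =>
    intro J hJ _ x _ hx d
    rw [card_eq_zero] at hJ
    subst hJ
    convert S.zero_mem using 1
    funext i
    simp [hx i (notMem_empty i)]
  | succ n ih =>
    intro J hJ hcl q hq hqJ
    obtain ⟨j0, hj0, hmax⟩ := exists_max_image J wt (card_pos.1 (by omega))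
    have hcl' : ∀ β i j, j ∈ J.erase j0 → ε β i j ≠ 0 → i ∈ J.erase j0 := by
      intro β i j hj hij
      have hj' := mem_of_mem_erase hj
      refine mem_erase.2 ⟨?_, hcl β i j hj' hij⟩
      rintro rfl
      exact absurd (hε β _ _ hij) (not_lt.2 (hmax j hj'))
    have ih' := ih (J.erase j0) (by rw [card_erase_of_mem hj0]; omega) hcl'
    have hsupp : ∀ (J' : Finset ι), (∀ β i j, j ∈ J' → ε β i j ≠ 0 → i ∈ J') →
        ∀ x : ι → ℚ[X], (∀ i, i ∉ J' → x i = 0) → ∀ i, i ∉ J' → nab ε x i = 0 := by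
      intro J' hJ' x hx i hi
      simp only [nab, hx i hi, th_zero, zero_add]
      refine sum_eq_zero fun j _ => ?_
      by_cases hj : j ∈ J'
      · have h0 : ∀ β, ε β i j = 0 := fun β => by
          by_contra h
          exact hi (hJ' β i j hj h)
        simp only [h0, map_zero, mul_zero, add_zero, zero_mul]
      · simp only [X_mul_C, hx j hj, mul_zero]
    by_cases hg : q j0 = 0
    · refine ih' q hq fun i hi => ?_
      by_cases h : i = j0
      · rw [h, hg]
      · exact hqJ i fun h' => hi (mem_erase.2 ⟨h, h'⟩)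
    set g := q j0 with hgdef
    let V : Submodule ℚ (ι → ℚ) :=
      { carrier := {c | (fun i => C (c i)) ∈ S ∧ ∀ i, i ∉ J.erase j0 → c i = 0}
        add_mem' := by
          rintro a b ⟨ha, ha'⟩ ⟨hb, hb'⟩
          refine ⟨?_, fun i hi => by simp [ha' i hi, hb' i hi]⟩
          convert S.add_mem ha hb using 1
          funext i; simp only [Pi.add_apply, map_add]
        zero_mem' := ⟨by convert S.zero_mem using 1; funext i; simp, fun i _ => rfl⟩
        smul_mem' := by
          rintro r a ⟨ha, ha'⟩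
          refine ⟨?_, fun i hi => by simp [ha' i hi]⟩
          convert S.smul_mem (C r) ha using 1
          funext i; simp only [Pi.smul_apply, smul_eq_mul, map_mul] }
    have hcoef : ∀ x ∈ S, (∀ i, i ∉ J.erase j0 → x i = 0) → ∀ d, (fun i => (x i).coeff d) ∈ V :=
      fun x hx hx' d => ⟨ih' x hx hx' d, fun i hi => by simp [hx' i hi]⟩
    have hV : ∀ c ∈ V, ∀ β, Matrix.mulVec (ε β) c ∈ V := by
      intro c hc β
      have h1 := hcoef _ (hst _ hc.1) (hsupp _ hcl' _ fun i hi => by simp [hc.2 i hi])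
      have h2 : Matrix.mulVec (ε false) c ∈ V := by
        convert h1 0 using 1
        funext i; simp only [nab_const_coeff, map_sub, coeff_add, coeff_C_zero, mul_coeff_zero, coeff_X_zero, coeff_sub, zero_mul, add_zero]
      cases β
      · exact h2
      · convert V.add_mem (h1 1) h2 using 1
        funext i
        simp only [nab_const_coeff, map_sub, coeff_add, coeff_C_succ, coeff_X_mul, coeff_sub, coeff_C, ↓ reduceIte, zero_add, Pi.add_apply, sub_add_cancel]
    have hq' : ∀ d, (fun i => ((g • nab ε q - th g • q) i).coeff d) ∈ V := by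
      refine hcoef _ (S.sub_mem (S.smul_mem _ (hst q hq)) (S.smul_mem _ hq)) fun i hi => ?_
      simp only [Pi.sub_apply, Pi.smul_apply, smul_eq_mul]
      by_cases h : i = j0
      · subst h
        have : nab ε q i = th (q i) := by
          simp only [nab]
          rw [sum_eq_zero, add_zero]
          intro j _
          by_cases hj : j ∈ J
          · have h0 : ∀ β, ε β i j = 0 := fun β => by
              by_contra h
              exact absurd (hε β _ _ h) (not_lt.2 (hmax j hj))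
            simp only [h0, map_zero, mul_zero, add_zero, zero_mul]
          · simp only [X_mul_C, hqJ j hj, mul_zero]
        rw [this]; ring
      · have hi' : i ∉ J := fun h' => hi (mem_erase.2 ⟨h, h'⟩)
        rw [hsupp J hcl q hqJ i hi', hqJ i hi']; ring
    have key : ∀ k : ℕ, ∀ ψ : ι → ℚ, (∀ w ∈ V, ∑ i, ψ i * w i = 0) →
        (∀ i, ψ i ≠ 0 → univ.sup wt + 1 ≤ wt i + k) → ∃ a : ℚ, pr ψ q = C a * g := by
      intro k
      induction k with
      | zero =>
        intro ψ _ h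
        refine ⟨0, ?_⟩
        have : ∀ i, ψ i = 0 := fun i => by
          by_contra hi
          have h1 := h i hi
          have h2 := le_sup (f := wt) (mem_univ i)
          omega
        simp only [pr, this, map_zero, zero_mul, sum_const_zero]
      | succ k ihk =>
        intro ψ hψ h
        have hb : ∀ β, ∃ a : ℚ, pr (Matrix.vecMul ψ (ε β)) q = C a * g := by
          intro β
          refine ihk _ (fun w hw => ?_) (fun i hi => ?_)
          · have := hψ _ (hV w hw β)
            rw [← this]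
            exact (Matrix.dotProduct_mulVec ψ (ε β) w).symm
          · obtain ⟨i', -, hi'⟩ := exists_ne_zero_of_sum_ne_zero hi
            have h1 := h i' (left_ne_zero_of_mul hi')
            have h2 := hε β _ _ (right_ne_zero_of_mul hi')
            omega
        obtain ⟨a0, h0⟩ := hb false
        obtain ⟨a1, h1⟩ := hb true
        have h2 : pr ψ (g • nab ε q - th g • q) = 0 := by
          ext d
          rw [pr_coeff, coeff_zero]
          exact hψ _ (hq' d)
        have h3 : pr ψ (g • nab ε q - th g • q) = g * pr ψ (nab ε q) - th g * pr ψ q := by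
          simp only [pr, Pi.sub_apply, Pi.smul_apply, smul_eq_mul, mul_sum]
          rw [← sum_sub_distrib]
          exact sum_congr rfl fun i _ => by ring
        rw [h3, pr_nab, h0, h1] at h2
        have h4 := th_residue (f := pr ψ q) (h := -((1 - X) * C a0 + X * C a1)) hg
          (by linear_combination h2)
        simp only [eval_neg, eval_add, eval_mul, eval_sub, eval_one, eval_X, eval_C, sub_zero,
          one_mul, zero_mul, add_zero, sub_self, zero_add, neg_eq_zero] at h4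
        rw [h4.1, h4.2] at h2
        exact th_wronskian hg (by simpa only [map_zero, zero_mul, mul_zero, add_zero] using h2)
    have hgd : g.coeff g.natDegree ≠ 0 := mt leadingCoeff_eq_zero.1 hg
    let c : ι → ℚ := fun i => (q i).coeff g.natDegree / g.coeff g.natDegree
    have h5 : ∀ d, (fun i => ((q - g • fun i => C (c i)) i).coeff d) ∈ V := by
      intro d
      refine mem_of_ann V _ fun ψ hψ => ?_
      obtain ⟨a, ha⟩ := key (univ.sup wt + 1) ψ hψ (fun i _ => by omega)
      have h6 : ∑ i, ψ i * c i = a := by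
        have := congrArg (fun p : ℚ[X] => p.coeff g.natDegree) ha
        simp only [pr_coeff, coeff_C_mul] at this
        simp only [c, ← mul_div_assoc, ← sum_div, this]
        field_simp
      have h7 := congrArg (fun p : ℚ[X] => p.coeff d) ha
      simp only [pr_coeff, coeff_C_mul] at h7
      simp only [Pi.sub_apply, Pi.smul_apply, smul_eq_mul, coeff_sub, coeff_mul_C, mul_sub,
        sum_sub_distrib, h7, ← h6, sum_mul]
      rw [sub_eq_zero]
      exact sum_congr rfl fun i _ => by ring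
    have h8 : (fun i => C (c i)) ∈ S := by
      refine hsat g _ hg ?_
      have := S.sub_mem hq (mem_of_coeff S _ fun d => (h5 d).1)
      simpa only [sub_sub_cancel] using this
    intro d
    convert S.add_mem (h5 d).1 (S.smul_mem (C (g.coeff d)) h8) using 1
    funext i
    simp only [Pi.sub_apply, Pi.smul_apply, smul_eq_mul, coeff_sub, coeff_mul_C, map_sub, map_mul, Pi.add_apply, sub_add_cancel]

theorem th_dual (ε : Bool → Matrix ι ι ℚ) (y x : ι → ℚ[X]) :
    th (∑ i, y i * x i) = ∑ i, nab (fun β => -(ε β).transpose) y i * x i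
      + ∑ i, y i * nab ε x i := by
  have h : ∑ i, (∑ j, ((1 - X) * C ((-(ε false).transpose) i j)
        + X * C ((-(ε true).transpose) i j)) * y j) * x i
      = -∑ i, y i * ∑ j, ((1 - X) * C (ε false i j) + X * C (ε true i j)) * x j := by
    simp only [sum_mul, mul_sum]
    rw [sum_comm, ← sum_neg_distrib]
    refine sum_congr rfl fun i _ => ?_
    rw [← sum_neg_distrib]
    refine sum_congr rfl fun j _ => ?_
    simp only [Matrix.neg_apply, Matrix.transpose_apply, map_neg]
    ring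
  simp only [nab, add_mul (th _), mul_add _ (th _), sum_add_distrib, h, th_sum, th_mul]
  ring

theorem ann_core (ε : Bool → Matrix ι ι ℚ) (wt : ι → ℕ)
    (hε : ∀ β i j, ε β i j ≠ 0 → wt i < wt j) (Kf : ℕ → Set (ι → ℚ[X]))
    (hmono : ∀ j, Kf j ⊆ Kf (j + 1))
    (hnab : ∀ j ≤ Fintype.card ι, ∀ x ∈ Kf j, nab ε x ∈ Kf (j + 1)) (Top : Finset ι)
    (hcount : ∀ μ ≤ Fintype.card ι, ∀ e : Fin μ → ι → ℚ[X], (∀ k, e k ∈ Kf μ) →
      LinearIndependent ℚ[X] e → μ < Top.card) :
    ∃ N : Submodule ℚ (ι → ℚ), (∀ ψ ∈ N, ∀ β, Matrix.vecMul ψ (ε β) ∈ N) ∧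
      (∃ ξ ∈ N, ξ ≠ 0 ∧ ∀ i, i ∉ Top → ξ i = 0) ∧ ∀ ψ ∈ N, ∀ x ∈ Kf 0, pr ψ x = 0 := by
  classical
  have hex : ∃ μ : ℕ, ¬ ∃ e : Fin (μ + 1) → ι → ℚ[X], (∀ k, e k ∈ Kf (μ + 1)) ∧
      LinearIndependent ℚ[X] e := by
    refine ⟨Fintype.card ι, ?_⟩
    rintro ⟨e, -, he⟩
    have := he.fintype_card_le_finrank
    rw [Fintype.card_fin, Module.finrank_fintype_fun_eq_card] at this
    omega
  have hspec := Nat.find_spec hex
  have hmin := fun m => Nat.find_min hex (m := m)
  have hle : Nat.find hex ≤ Fintype.card ι := by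
    refine Nat.find_min' hex ?_
    rintro ⟨e, -, he⟩
    have := he.fintype_card_le_finrank
    rw [Fintype.card_fin, Module.finrank_fintype_fun_eq_card] at this
    omega
  generalize Nat.find hex = μ at hspec hmin hle
  obtain ⟨e, heK, hli⟩ : ∃ e : Fin μ → ι → ℚ[X], (∀ k, e k ∈ Kf μ) ∧ LinearIndependent ℚ[X] e := by
    cases μ with
    | zero => exact ⟨Fin.elim0, fun k => k.elim0, linearIndependent_empty_type⟩
    | succ m => exact not_not.1 (hmin m (Nat.lt_succ_self m))
  let A : Submodule ℚ[X] (ι → ℚ[X]) :=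
    { carrier := {y | ∀ k, ∑ i, y i * e k i = 0}
      add_mem' := by
        intro a b ha hb k
        simp only [Pi.add_apply, add_mul, sum_add_distrib, ha k, hb k, add_zero]
      zero_mem' := by intro k; simp only [Pi.zero_apply, zero_mul, sum_const_zero]
      smul_mem' := by
        intro f a ha k
        simp only [Pi.smul_apply, smul_eq_mul, mul_assoc, ← mul_sum, ha k, mul_zero] }
  have hA : ∀ y ∈ A, ∀ x ∈ Kf (μ + 1), ∑ i, y i * x i = 0 := by
    intro y hy x hx
    have h1 : ¬ LinearIndependent ℚ[X] (Fin.snoc (α := fun _ => ι → ℚ[X]) e x) := by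
      intro h
      refine hspec ⟨_, fun k => ?_, h⟩
      induction k using Fin.lastCases with
      | last => simpa using hx
      | cast k => simpa using hmono μ (heK k)
    obtain ⟨g, hg, i0, hi0⟩ := Fintype.not_linearIndependent_iff.1 h1
    rw [Fin.sum_univ_castSucc] at hg
    simp only [Fin.snoc_castSucc, Fin.snoc_last] at hg
    have h0 : g (Fin.last μ) ≠ 0 := by
      intro h0
      rw [h0, zero_smul, add_zero] at hg
      have := Fintype.linearIndependent_iff.1 hli (fun j => g j.castSucc) hg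
      apply hi0
      induction i0 using Fin.lastCases with
      | last => exact h0
      | cast j => exact this j
    apply mul_left_cancel₀ h0
    have h2 : ∀ i, g (Fin.last μ) * x i = -∑ k, g k.castSucc * e k i := by
      intro i
      have := congrFun hg i
      simp only [Pi.add_apply, Finset.sum_apply, Pi.smul_apply, smul_eq_mul, Pi.zero_apply] at this
      linear_combination this
    have h3 : g (Fin.last μ) * ∑ i, y i * x i = -∑ k, g k.castSucc * ∑ i, y i * e k i := by
      simp only [mul_sum]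
      rw [sum_comm, ← sum_neg_distrib]
      refine sum_congr rfl fun i _ => ?_
      rw [mul_left_comm, h2, mul_neg, mul_sum]
      congr 1
      exact sum_congr rfl fun k _ => by ring
    rw [h3, mul_zero, neg_eq_zero]
    exact sum_eq_zero fun k _ => by rw [hy k, mul_zero]
  have hst : ∀ y ∈ A, nab (fun β => -(ε β).transpose) y ∈ A := by
    intro y hy k
    have h1 := th_dual ε y (e k)
    rw [hy k, th_zero, hA y hy _ (hnab μ hle _ (heK k)), add_zero] at h1
    exact h1.symm
  have hcst := constancy (fun β => -(ε β).transpose) (fun i => univ.sup wt - wt i) (by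
      intro β i j hij
      have h1 := hε β j i (by simpa using hij)
      have h2 := le_sup (f := wt) (mem_univ i)
      omega) A (by
      intro f y hf hy k
      apply mul_left_cancel₀ hf
      have := hy k
      simp only [Pi.smul_apply, smul_eq_mul, mul_assoc, ← mul_sum] at this
      rw [this, mul_zero]) hst
  let N : Submodule ℚ (ι → ℚ) :=
    { carrier := {c | (fun i => C (c i)) ∈ A}
      add_mem' := by
        intro a b ha hb
        show (fun i => C ((a + b) i)) ∈ A
        convert A.add_mem ha hb using 1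
        funext i; simp only [Pi.add_apply, map_add]
      zero_mem' := by
        show (fun i => C ((0 : ι → ℚ) i)) ∈ A
        convert A.zero_mem using 1
        funext i; simp
      smul_mem' := by
        intro r a ha
        show (fun i => C ((r • a) i)) ∈ A
        convert A.smul_mem (C r) ha using 1
        funext i; simp only [Pi.smul_apply, smul_eq_mul, map_mul] }
  refine ⟨N, fun ψ hψ β => ?_, ?_, fun ψ hψ x hx => ?_⟩
  · have h1 := hcst _ (hst _ hψ)
    have h2 : Matrix.vecMul ψ (ε false) ∈ N := by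
      have : (fun i => (nab (fun β => -(ε β).transpose) (fun i => C (ψ i)) i).coeff 0) ∈ N := h1 0
      convert N.neg_mem this using 1
      funext i
      simp only [nab_const_coeff, Matrix.neg_mulVec, Matrix.mulVec_transpose, Pi.neg_apply, map_neg, sub_neg_eq_add, map_add, coeff_add, coeff_neg, coeff_C_zero, mul_coeff_zero, coeff_X_zero, zero_mul, add_zero, neg_neg]
    cases β
    · exact h2
    · have : (fun i => (nab (fun β => -(ε β).transpose) (fun i => C (ψ i)) i).coeff 1) ∈ N := h1 1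
      convert N.sub_mem h2 this using 1
      funext i
      simp only [nab_const_coeff, Matrix.neg_mulVec, Matrix.mulVec_transpose, Pi.neg_apply, map_neg, sub_neg_eq_add, map_add, coeff_add, coeff_neg, coeff_C_succ, neg_zero, coeff_X_mul, coeff_C, ↓ reduceIte, zero_add, Pi.sub_apply, sub_add_cancel_right, neg_neg]
  · let L : (Top → ℚ[X]) →ₗ[ℚ[X]] (Fin μ → ℚ[X]) :=
      Matrix.vecMulLinear (Matrix.of fun (i : Top) k => e k i)
    have hL : ¬ Function.Injective L := by
      intro h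
      have h1 := LinearMap.finrank_le_finrank_of_injective h
      rw [Module.finrank_fintype_fun_eq_card, Module.finrank_fintype_fun_eq_card, Fintype.card_fin,
        Fintype.card_coe] at h1
      exact absurd (hcount μ hle e heK hli) (not_lt.2 h1)
    rw [← LinearMap.ker_eq_bot, LinearMap.ker_eq_bot'] at hL
    push Not at hL
    obtain ⟨z, hz, hz0⟩ := hL
    obtain ⟨i0, hi0⟩ := Function.ne_iff.1 hz0
    let y : ι → ℚ[X] := fun i => if h : i ∈ Top then z ⟨i, h⟩ else 0
    have hy : y ∈ A := by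
      intro k
      have h1 := congrFun hz k
      simp only [L, Matrix.vecMulLinear_apply, Matrix.vecMul, dotProduct, Matrix.of_apply,
        Pi.zero_apply] at h1
      rw [← h1, ← sum_subset (subset_univ Top) (fun i _ hi => by simp [y, hi]),
        ← sum_coe_sort Top]
      exact sum_congr rfl fun i _ => by simp [y]
    refine ⟨fun i => (y i).coeff (z i0).natDegree, hcst y hy _, fun h => ?_, fun i hi => ?_⟩
    · have := congrFun h i0
      simp only [y, i0.2, dif_pos, Pi.zero_apply] at this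
      exact hi0 (leadingCoeff_eq_zero.1 this)
    · simp [y, hi]
  · have : ∀ j, Kf 0 ⊆ Kf j := fun j => by
      induction j with
      | zero => exact le_rfl
      | succ j ih => exact ih.trans (hmono j)
    exact hA _ hψ x (this _ hx)

end const

end MZVLB

end

-- part MP_f3dc73_nt.H30.Mom
section

/-!
The kernel of a matrix of moments is killed by constant functionals.
-/

set_option autoImplicit false

namespace MZVLB

open Finset Polynomial

theorem sigma_id (l la0 la1 lb0 lb1 : ℚ[X] →ₗ[ℚ] ℚ) (σ σa0 σa1 σb0 σb1 : ℚ[X] →ₗ[ℚ] ℚ[X])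
    (h : σ 1 = 0 ∧ ∀ P, σ (X * P) = X * σ P + C (l P))
    (ha0 : σa0 1 = 0 ∧ ∀ P, σa0 (X * P) = X * σa0 P + C (la0 P))
    (ha1 : σa1 1 = 0 ∧ ∀ P, σa1 (X * P) = X * σa1 P + C (la1 P))
    (hb0 : σb0 1 = 0 ∧ ∀ P, σb0 (X * P) = X * σb0 P + C (lb0 P))
    (hb1 : σb1 1 = 0 ∧ ∀ P, σb1 (X * P) = X * σb1 P + C (lb1 P))
    (hrel : ∀ P, l (th P + (1 - 2 * X) * P) + (la0 ((1 - X) * P) + la1 (X * P))
      + (lb0 ((1 - X) * P) + lb1 (X * P)) = 0) (P : ℚ[X]) :
    σ (th P) + (σb0 ((1 - X) * P) + σb1 (X * P)) = th (σ P) - ((1 - X) * σa0 P + X * σa1 P)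
      - C (l 1 + (la0 1 - la1 1) + (lb0 1 - lb1 1)) * P + C (l P + (la0 P - la1 P)) := by
  induction P using Polynomial.induction_on with
  | C a =>
    have e : (C a : ℚ[X]) = a • 1 := by simp [smul_eq_C_mul]
    have e1 : ((1 - X) * C a : ℚ[X]) = a • 1 - a • (X * 1) := by simp only [smul_eq_C_mul, mul_one]; ring
    have e2 : (X * C a : ℚ[X]) = a • (X * 1) := by simp [smul_eq_C_mul]
    rw [th_C, e1, e2, map_sub, map_smul, map_smul, map_smul, hb0.2, hb1.2, hb0.1, hb1.1]
    have e3 : ∀ F : ℚ[X] →ₗ[ℚ] ℚ[X], F 1 = 0 → F (C a) = 0 := fun F hF => by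
      rw [e, map_smul, hF, smul_zero]
    have e4 : ∀ F : ℚ[X] →ₗ[ℚ] ℚ, F (C a) = a * F 1 := fun F => by
      rw [e, map_smul, smul_eq_mul]
    rw [e3 σ h.1, e3 σa0 ha0.1, e3 σa1 ha1.1, e4, e4, e4, th_zero]
    simp only [map_zero, smul_eq_C_mul, map_add, map_sub, map_mul]
    ring
  | add p q hp hq =>
    simp only [th_add, mul_add, map_add] at hp hq ⊢
    simp only [map_sub, map_add] at hp hq ⊢
    linear_combination hp + hq
  | monomial n a ih =>
    rw [pow_succ, ← mul_assoc, mul_comm _ X]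
    generalize C a * X ^ n = P at ih
    have e1 : th (X * P) = X * (P - X * P) + X * th P := by rw [th_mul, th_X]; ring
    have e2 : (1 - X) * (X * P) = X * ((1 - X) * P) := by ring
    have e3 : (1 - X) * P = P - X * P := by ring
    have e4 : th P + (1 - 2 * X) * P = th P + P - X * P - X * P := by ring
    have hr := congrArg C (hrel P)
    rw [e4, e3] at hr
    rw [e1, e2, map_add, h.2, h.2, h.2, hb0.2, hb1.2, ha0.2, ha1.2, map_sub, h.2, th_add, th_mul,
      th_X, th_C]
    rw [e3] at ih ⊢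
    simp only [map_add, map_sub, map_zero] at hr ih ⊢
    linear_combination X * ih + hr

theorem count2 {ι : Type} [Fintype ι] (μ k D : ℕ) (Q : Fin μ → ι → ℚ[X])
    (hQ : ∀ j c, (Q j c).natDegree ≤ D)
    (hinj : ∀ c : Fin μ → ℚ[X], (∀ j, (c j).natDegree ≤ k) → ∑ j, c j • Q j = 0 → c = 0) :
    μ * (k + 1) ≤ Fintype.card ι * (D + k + 1) := by
  classical
  let Ψ : (Fin μ → degreeLT ℚ (k + 1)) →ₗ[ℚ] (ι → Fin (D + k + 1) → ℚ) :=
    LinearMap.pi fun c => LinearMap.pi fun d => ∑ j, lcoeff ℚ d ∘ₗ LinearMap.mulRight ℚ (Q j c)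
      ∘ₗ (degreeLT ℚ (k + 1)).subtype ∘ₗ LinearMap.proj j
  have hΨ : Function.Injective Ψ := by
    rw [← LinearMap.ker_eq_bot, LinearMap.ker_eq_bot']
    intro y hy
    have hdeg : ∀ j, (y j : ℚ[X]).natDegree ≤ k := by
      intro j
      have := mem_degreeLT.1 (y j).2
      exact natDegree_le_iff_degree_le.2 (Order.le_of_lt_succ (by exact_mod_cast this))
    have h0 := hinj (fun j => (y j : ℚ[X])) hdeg ?_
    · funext j
      exact Subtype.ext (congrFun h0 j)
    funext c
    have h1 : ((∑ j, (y j : ℚ[X]) • Q j) c).natDegree ≤ D + k := by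
      rw [Finset.sum_apply]
      refine natDegree_sum_le_of_forall_le _ _ fun j _ => ?_
      simp only [Pi.smul_apply, smul_eq_mul]
      have := natDegree_mul_le (p := (y j : ℚ[X])) (q := Q j c)
      have := hdeg j
      have := hQ j c
      omega
    ext d
    by_cases hd : d < D + k + 1
    · have h2 := congrFun (congrFun hy c) ⟨d, hd⟩
      simpa only [Finset.sum_apply, Pi.smul_apply, smul_eq_mul, finsetSum_coeff, Pi.zero_apply, coeff_zero, Ψ, LinearMap.pi_apply, LinearMap.sum_apply, LinearMap.coe_comp, Submodule.coe_subtype, LinearMap.coe_proj, Function.comp_apply, Function.eval, LinearMap.mulRight_apply, lcoeff_apply] using h2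
    · rw [coeff_eq_zero_of_natDegree_lt (by omega)]; simp
  have h5 := LinearMap.finrank_le_finrank_of_injective hΨ
  rw [Module.finrank_pi_fintype, Module.finrank_pi_fintype] at h5
  simpa only [Module.finrank_eq_card_basis (degreeLT.basis ℚ (k + 1)), Fintype.card_fin, sum_const,
    card_univ, smul_eq_mul, Module.finrank_fintype_fun_eq_card] using h5

section mom

variable {ι0 ι1 : Type} [Fintype ι0] [Fintype ι1]

/-- The residue matrix of the extension. -/
noncomputable def gam (a : Bool → Matrix ι0 ι0 ℚ) (b : Bool → Matrix ι1 ι1 ℚ)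
    (l : ι0 → ι1 → ℚ[X] →ₗ[ℚ] ℚ) : Matrix ι0 ι1 ℚ :=
  Matrix.of fun u c => l u c 1 + (∑ u', a false u u' * l u' c 1 - ∑ u', a true u u' * l u' c 1)
    + (∑ c', b false c' c * l u c' 1 - ∑ c', b true c' c * l u c' 1)

/-- The two residue endomorphisms of the extension. -/
noncomputable def epsM (a : Bool → Matrix ι0 ι0 ℚ) (b : Bool → Matrix ι1 ι1 ℚ)
    (l : ι0 → ι1 → ℚ[X] →ₗ[ℚ] ℚ) (β : Bool) : Matrix (ι1 ⊕ ι0) (ι1 ⊕ ι0) ℚ :=
  Matrix.fromBlocks (b β) 0 (-gam a b l) (-a β)

theorem sum_nab {M : Type} [AddCommGroup M] [Module ℚ M] (b : Bool → Matrix ι1 ι1 ℚ)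
    (F : ι1 → ℚ[X] →ₗ[ℚ] M) (Q : ι1 → ℚ[X]) :
    ∑ c', F c' (nab b Q c') = ∑ c, (F c (th (Q c)) + ((∑ c', b false c' c • F c') ((1 - X) * Q c)
      + (∑ c', b true c' c • F c') (X * Q c))) := by
  simp only [nab, map_add, map_sum, sum_add_distrib, LinearMap.sum_apply, LinearMap.smul_apply]
  congr 1
  rw [← sum_add_distrib, sum_comm]
  refine sum_congr rfl fun c _ => ?_
  rw [← sum_add_distrib]
  refine sum_congr rfl fun c' _ => ?_
  rw [← map_smul, ← map_smul, ← map_add, smul_eq_C_mul, smul_eq_C_mul]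
  congr 1
  ring

theorem natDegree_nab_le (b : Bool → Matrix ι1 ι1 ℚ) (Q : ι1 → ℚ[X]) (d : ℕ)
    (hQ : ∀ c, (Q c).natDegree ≤ d) (c : ι1) : (nab b Q c).natDegree ≤ d + 1 := by
  unfold nab
  refine (natDegree_add_le _ _).trans (max_le ?_ ?_)
  · have := natDegree_th_le (Q c)
    have := hQ c
    omega
  · refine natDegree_sum_le_of_forall_le _ _ fun j _ => ?_
    have h1 := natDegree_mul_le (p := (1 - X) * C (b false c j) + X * C (b true c j)) (q := Q j)
    have h2 : ((1 - X) * C (b false c j) + X * C (b true c j) : ℚ[X]).natDegree ≤ 1 := by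
      compute_degree
    have := hQ j
    omega

theorem mom_core (a : Bool → Matrix ι0 ι0 ℚ) (b : Bool → Matrix ι1 ι1 ℚ)
    (l : ι0 → ι1 → ℚ[X] →ₗ[ℚ] ℚ)
    (hrel : ∀ u c P, l u c (th P + (1 - 2 * X) * P)
      + ((∑ u', a false u u' • l u' c) ((1 - X) * P) + (∑ u', a true u u' • l u' c) (X * P))
      + ((∑ c', b false c' c • l u c') ((1 - X) * P) + (∑ c', b true c' c • l u c') (X * P)) = 0)
    (wt : ι1 ⊕ ι0 → ℕ) (hε : ∀ β i j, epsM a b l β i j ≠ 0 → wt i < wt j)
    (Top : Finset (ι1 ⊕ ι0)) (hTop : 2 * Fintype.card ι1 < Top.card) (n : ℕ) :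
    ∃ N : Submodule ℚ (ι1 ⊕ ι0 → ℚ), (∀ ψ ∈ N, ∀ β, Matrix.vecMul ψ (epsM a b l β) ∈ N) ∧
      (∃ ξ ∈ N, ξ ≠ 0 ∧ ∀ i, i ∉ Top → ξ i = 0) ∧
      ∀ ψ ∈ N, (∀ u, ψ (Sum.inr u) = 0) → ∀ Q : ι1 → ℚ[X], (∀ c, (Q c).natDegree ≤ n) →
        (∀ u, ∀ i ≤ n + 2 * Fintype.card (ι1 ⊕ ι0), ∑ c, l u c (X ^ i * Q c) = 0) →
        ∑ c, C (ψ (Sum.inl c)) * Q c = 0 := by
  classical
  choose σ hσ using fun u c => exists_sigma (l u c)
  set M := Fintype.card (ι1 ⊕ ι0) with hM
  have hcomb : ∀ {κ : Type} [Fintype κ] (r : κ → ℚ) (u : κ → ι0) (c : κ → ι1),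
      (∑ k, r k • σ (u k) (c k)) 1 = 0 ∧ ∀ P, (∑ k, r k • σ (u k) (c k)) (X * P)
        = X * (∑ k, r k • σ (u k) (c k)) P + C ((∑ k, r k • l (u k) (c k)) P) := by
    intro κ _ r u c
    refine ⟨by simp only [LinearMap.sum_apply, LinearMap.smul_apply, (hσ _ _).1, smul_zero, sum_const_zero], fun P => ?_⟩
    simp only [LinearMap.sum_apply, LinearMap.smul_apply, (hσ _ _).2, map_sum, mul_sum,
      smul_eq_C_mul, smul_eq_mul, map_mul]
    rw [← sum_add_distrib]
    exact sum_congr rfl fun k _ => by ring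
  have hsw : ∀ {N : Type} [AddCommGroup N] [Module ℚ N] (F : ι0 → ι1 → ℚ[X] →ₗ[ℚ] N) (r : ι0 → ℚ)
      (Q : ι1 → ℚ[X]), ∑ c, (∑ u', r u' • F u' c) (Q c) = ∑ u', r u' • ∑ c, F u' c (Q c) := by
    intro N _ _ F r Q
    simp only [LinearMap.sum_apply, LinearMap.smul_apply, smul_sum]
    exact sum_comm
  let Kf : ℕ → Set (ι1 ⊕ ι0 → ℚ[X]) := fun j =>
    {x | (∀ c, (x (Sum.inl c)).natDegree ≤ n + j) ∧
      (∀ f : ℚ[X], f.natDegree + j ≤ n + 2 * M → ∀ u, ∑ c, l u c (f * x (Sum.inl c)) = 0) ∧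
      ∀ u, x (Sum.inr u) = ∑ c, σ u c (x (Sum.inl c))}
  have hinl : ∀ (x : ι1 ⊕ ι0 → ℚ[X]) c,
      nab (epsM a b l) x (Sum.inl c) = nab b (fun c => x (Sum.inl c)) c := by
    intro x c
    simp only [nab, epsM, X_mul_C, Fintype.sum_sum_type, Matrix.fromBlocks_apply₁₁, Matrix.fromBlocks_apply₁₂, Matrix.zero_apply, map_zero, mul_zero, zero_mul, add_zero, sum_const_zero]
  have hinr : ∀ (x : ι1 ⊕ ι0 → ℚ[X]) u,
      nab (epsM a b l) x (Sum.inr u) = th (x (Sum.inr u))
        - ((1 - X) * ∑ u', a false u u' • x (Sum.inr u') + X * ∑ u', a true u u' • x (Sum.inr u'))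
        - ∑ c, C (gam a b l u c) * x (Sum.inl c) := by
    intro x u
    simp only [nab, epsM, Fintype.sum_sum_type, Matrix.fromBlocks_apply₂₁,
      Matrix.fromBlocks_apply₂₂, Matrix.neg_apply, map_neg, mul_sum, smul_eq_C_mul]
    rw [← sum_add_distrib, sub_sub, sub_eq_add_neg (th _), neg_add, ← sum_neg_distrib,
      ← sum_neg_distrib, add_comm (∑ _ : ι0, _)]
    congr 2
    · exact sum_congr rfl fun c _ => by ring
    · exact sum_congr rfl fun c _ => by ring
  have hSf : ∀ (k : ℕ) (Q : ι1 → ℚ[X]),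
      (∀ f : ℚ[X], f.natDegree ≤ k → ∀ u, ∑ c, l u c (f * Q c) = 0) →
      ∀ d ≤ k, ∀ f : ℚ[X], f.natDegree ≤ d → ∀ u, ∑ c, σ u c (f * Q c) = f * ∑ c, σ u c (Q c) := by
    intro k Q hQ d
    have hC : ∀ (r : ℚ) u, ∑ c, σ u c (C r * Q c) = C r * ∑ c, σ u c (Q c) := by
      intro r u
      simp only [← smul_eq_C_mul, map_smul, smul_sum]
    induction d with
    | zero =>
      intro _ f hf u
      rw [eq_C_of_natDegree_le_zero hf, hC]
    | succ d ih =>
      intro hd f hf u
      have h2 : (divX f).natDegree ≤ d := by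
        rw [natDegree_divX_eq_natDegree_tsub_one]; omega
      rw [← X_mul_divX_add f]
      simp only [add_mul, map_add, sum_add_distrib, mul_assoc, (hσ _ _).2, hC]
      rw [← mul_sum, ih (by omega) _ h2, ← map_sum, hQ _ (by omega), map_zero, add_zero]
  obtain ⟨N, hN1, hN2, hN3⟩ := ann_core (epsM a b l) wt hε Kf (by
      rintro j x ⟨h1, h2, h3⟩
      exact ⟨fun c => (h1 c).trans (by omega), fun f hf => h2 f (by omega), h3⟩) (by
      rintro j hj x ⟨h1, h2, h3⟩
      refine ⟨fun c => ?_, fun f hf u => ?_, fun u => ?_⟩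
      · rw [hinl]
        exact natDegree_nab_le b _ _ h1 c
      · have e1 : ∀ c, f * nab (epsM a b l) x (Sum.inl c)
            = nab b (f • fun c => x (Sum.inl c)) c - th f * x (Sum.inl c) := by
          intro c
          rw [hinl, nab_smul]
          simp
        have hd : ∀ g : ℚ[X], g.natDegree ≤ 1 → ∀ u, ∑ c, l u c (g * (f * x (Sum.inl c))) = 0 := by
          intro g hg u
          simp only [← mul_assoc]
          refine h2 _ ?_ u
          have := natDegree_mul_le (p := g) (q := f)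
          omega
        simp only [e1, map_sub, sum_sub_distrib]
        rw [h2 (th f) (by have := natDegree_th_le f; omega), sub_zero, sum_nab]
        have h4 := sum_congr (rfl : (univ : Finset ι1) = univ)
          fun c _ => hrel u c (f * x (Sum.inl c))
        simp only [map_add, sum_add_distrib, sum_const_zero, hsw] at h4
        simp only [hd (1 - 2 * X) (by compute_degree), hd (1 - X) (by compute_degree),
          hd X (by simp), smul_zero, sum_const_zero, add_zero] at h4
        simp only [Pi.smul_apply, smul_eq_mul, sum_add_distrib]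
        exact h4
      · have h0 : ∀ u, ∑ c, l u c (x (Sum.inl c)) = 0 := fun u => by
          simpa only [one_mul] using h2 1 (by simp; omega) u
        simp only [hinl]
        rw [hinr, sum_nab]
        have h4 := sum_congr (rfl : (univ : Finset ι1) = univ) fun c _ =>
          sigma_id _ _ _ _ _ _ _ _ _ _ (hσ u c) (hcomb (a false u) id fun _ => c)
            (hcomb (a true u) id fun _ => c) (hcomb (fun c' => b false c' c) (fun _ => u) id)
            (hcomb (fun c' => b true c' c) (fun _ => u) id) (hrel u c) (x (Sum.inl c))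
        simp only [id] at h4
        rw [h4]
        simp only [sum_add_distrib, sum_sub_distrib, ← mul_sum, ← map_sum, hsw, h0, h3, th_sum,
          smul_zero, sum_const_zero, sub_self, add_zero, map_zero]
        congr 1
        refine sum_congr rfl fun c _ => ?_
        simp only [gam, Matrix.of_apply, map_add, map_sub, map_sum, map_mul, LinearMap.sum_apply, LinearMap.smul_apply, smul_eq_mul]) Top (by
      intro μ hμ e he hli
      have h1 := count2 μ (n + 2 * M - μ) (n + μ) (fun k c => e k (Sum.inl c))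
        (fun k c => (he k).1 c) (by
          intro c hc h0
          funext k
          refine Fintype.linearIndependent_iff.1 hli c ?_ k
          funext i
          rcases i with c' | u
          · simpa only [Finset.sum_apply, Pi.smul_apply, smul_eq_mul, Pi.zero_apply] using congrFun h0 c'
          · simp only [Finset.sum_apply, Pi.smul_apply, smul_eq_mul, Pi.zero_apply]
            have h2 : ∀ k, c k * e k (Sum.inr u) = ∑ c', σ u c' (c k * e k (Sum.inl c')) := by
              intro k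
              rw [(he k).2.2, hSf (n + 2 * M - μ) _ (fun f hf => (he k).2.1 f (by omega)) _ le_rfl
                _ (hc k)]
            simp only [h2]
            rw [sum_comm]
            refine sum_eq_zero fun c' _ => ?_
            rw [← map_sum]
            have := congrFun h0 c'
            simp only [Finset.sum_apply, Pi.smul_apply, smul_eq_mul, Pi.zero_apply] at this
            rw [this, map_zero])
      obtain ⟨k, hk⟩ : ∃ k, n + 2 * M = μ + k := ⟨n + 2 * M - μ, by omega⟩
      rw [hk, Nat.add_sub_cancel_left] at h1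
      have h2 : μ * (k + 1) ≤ 2 * Fintype.card ι1 * (k + 1) := by
        refine h1.trans ?_
        rw [mul_comm 2, mul_assoc]
        exact Nat.mul_le_mul_left _ (by omega)
      exact (Nat.le_of_mul_le_mul_right h2 (Nat.succ_pos k)).trans_lt hTop)
  refine ⟨N, hN1, hN2, fun ψ hψ hψ0 Q hQ hz => ?_⟩
  have h1 := hN3 ψ hψ (Sum.elim Q fun u => ∑ c, σ u c (Q c)) ⟨hQ, fun f hf u => ?_, fun u => rfl⟩
  · simpa only [pr, Fintype.sum_sum_type, Sum.elim_inl, hψ0, map_zero, Sum.elim_inr, zero_mul, sum_const_zero, add_zero] using h1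
  · simp only [Sum.elim_inl]
    rw [as_sum_range' f (n + 2 * M + 1) (by omega)]
    simp only [sum_mul, map_sum]
    rw [sum_comm]
    refine sum_eq_zero fun i hi => ?_
    simp only [← C_mul_X_pow_eq_monomial, ← smul_eq_C_mul, smul_mul_assoc, map_smul, ← smul_sum]
    rw [hz u i (by simpa [Nat.lt_succ_iff] using hi), smul_zero]

end mom

end MZVLB

end

-- part MP_f3dc73_nt.H30.Word
section

/-!
The constant functionals killing the kernel of the stacked matrix of polylogarithmic integrals.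
-/

set_option autoImplicit false

namespace MZVLB

open Finset Polynomial

/-- The matrix removing the first letter. -/
def sm (w : ℕ) (β : Bool) : Matrix (W w) (W w) ℚ :=
  Matrix.of fun u u' => if u.1 = β :: u'.1 then 1 else 0

/-- The matrix adding a first letter, on the stacked columns. -/
def bm (δ w : ℕ) (β : Bool) : Matrix (Fin δ × W w) (Fin δ × W w) ℚ :=
  Matrix.of fun c' c => if c'.1 = c.1 ∧ c.2.1 = (!β) :: c'.2.1 then -1 else 0

theorem W.eq_cons_iff {w : ℕ} (u u' : W w) (β : Bool) :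
    u.1 = β :: u'.1 ↔ u ≠ W.root w ∧ u.lt = β ∧ u' = u.par := by
  constructor
  · intro h
    refine ⟨fun h' => ?_, by simp [W.lt, h], Subtype.ext (by simp [W.par, h])⟩
    rw [h'] at h
    simp [W.root] at h
  · rintro ⟨h1, rfl, rfl⟩
    exact W.cons_of_ne h1

theorem sum_sm {M : Type} [AddCommGroup M] [Module ℚ M] {w : ℕ} (β : Bool) (u : W w)
    (F : W w → M) : ∑ u', sm w β u u' • F u' = if u ≠ W.root w ∧ u.lt = β then F u.par else 0 := by
  classical
  rw [sum_eq_single u.par]
  · simp only [sm, Matrix.of_apply, W.eq_cons_iff, and_true]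
    split_ifs <;> simp
  · intro u' _ h
    simp [sm, W.eq_cons_iff, h]
  · simp only [mem_univ, not_true_eq_false, smul_eq_zero, IsEmpty.forall_iff]

theorem sum_bm {M : Type} [AddCommGroup M] [Module ℚ M] {δ w : ℕ} (β : Bool) (c : Fin δ × W w)
    (F : Fin δ × W w → M) : ∑ c', bm δ w β c' c • F c'
      = if c.2 ≠ W.root w ∧ c.2.lt = !β then -F (c.1, c.2.par) else 0 := by
  classical
  rw [sum_eq_single (c.1, c.2.par)]
  · simp only [bm, Matrix.of_apply, W.eq_cons_iff, and_true, true_and]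
    split_ifs <;> simp
  · rintro ⟨μ, v⟩ _ h
    simp only [bm, Matrix.of_apply, W.eq_cons_iff]
    rw [if_neg, zero_smul]
    rintro ⟨rfl, -, -, rfl⟩
    exact h rfl
  · simp only [mem_univ, not_true_eq_false, smul_eq_zero, IsEmpty.forall_iff]

theorem sum_child {w : ℕ} (β : Bool) (t : W w) (F : W w → ℚ) :
    (∃ u : W w, u.1 = β :: t.1 ∧ ∑ u, F u * sm w β u t = F u) ∨
      ((∀ u : W w, u.1 ≠ β :: t.1) ∧ ∑ u, F u * sm w β u t = 0) := by
  classical
  by_cases h : ∃ u : W w, u.1 = β :: t.1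
  · obtain ⟨u, hu⟩ := h
    refine Or.inl ⟨u, hu, ?_⟩
    rw [sum_eq_single u]
    · simp [sm, hu]
    · intro u' _ h'
      have : u'.1 ≠ β :: t.1 := fun h'' => h' (Subtype.ext (h''.trans hu.symm))
      simp [sm, this]
    · simp only [mem_univ, not_true_eq_false, mul_eq_zero, IsEmpty.forall_iff]
  · push Not at h
    exact Or.inr ⟨h, sum_eq_zero fun u _ => by simp [sm, h u]⟩

theorem card_W_le (w : ℕ) : Fintype.card (W w) ≤ 2 ^ w := by
  induction w with
  | zero =>
    refine Fintype.card_le_one_iff.2 fun u v => Subtype.ext ?_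
    rw [List.eq_nil_of_length_eq_zero (Nat.le_zero.1 u.2.2),
      List.eq_nil_of_length_eq_zero (Nat.le_zero.1 v.2.2)]
  | succ w ih =>
    let F : W (w + 1) → Bool × W w := fun u => (u.lt, ⟨u.par.1, u.par.2.1, by
      have := u.2.2
      simp only [W.par, List.length_tail]; omega⟩)
    have hF : Function.Injective F := by
      rintro ⟨u, hu⟩ ⟨v, hv⟩ h
      simp only [F, Prod.mk.injEq, Subtype.mk.injEq, W.lt, W.par] at h
      refine Subtype.ext ?_
      cases u with
      | nil =>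
        cases v with
        | nil => rfl
        | cons y s =>
          simp only [List.headD_nil, List.headD_cons, List.tail_nil, List.tail_cons] at h
          obtain ⟨rfl, rfl⟩ := h
          exact absurd rfl hv.1.ne_nil
      | cons x t =>
        cases v with
        | nil =>
          simp only [List.headD_nil, List.headD_cons, List.tail_nil, List.tail_cons] at h
          obtain ⟨rfl, rfl⟩ := h
          exact absurd rfl hu.1.ne_nil
        | cons y s =>
          simp only [List.headD_cons, List.tail_cons] at h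
          exact congrArg₂ List.cons h.1 h.2
    have := Fintype.card_le_of_injective F hF
    rw [Fintype.card_prod, Fintype.card_bool] at this
    rw [pow_succ]; omega

theorem card_top (k : ℕ) :
    2 ^ k ≤ (univ.filter fun u : W (k + 1) => u.1.length = k + 1).card := by
  classical
  let F : List.Vector Bool k → W (k + 1) := fun v =>
    ⟨v.1 ++ [true], by simp [Adm], by simp [v.2]⟩
  have h := card_le_card_of_injOn (s := univ)
    (t := univ.filter fun u : W (k + 1) => u.1.length = k + 1) F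
    (fun v _ => by simp only [coe_filter, mem_univ, true_and, F, Set.mem_ofPred_eq, List.length_append, v.2, List.length_cons, List.length_nil, zero_add, Nat.add_left_cancel_iff]) (fun v _ v' _ h => by
      have := congrArg Subtype.val h
      exact Subtype.ext (List.append_cancel_right this))
  rwa [card_univ, card_vector, Fintype.card_bool] at h

theorem lY_rel2 {δ w0 w1 : ℕ} (φ : Fin δ → ℝ →ₗ[ℚ] ℚ) (u : W w0) (c : Fin δ × W w1) (P : ℚ[X]) :
    lY (φ c.1) u.1 c.2.1 (th P + (1 - 2 * X) * P)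
      + ((∑ u', sm w0 false u u' • lY (φ c.1) u'.1 c.2.1) ((1 - X) * P)
        + (∑ u', sm w0 true u u' • lY (φ c.1) u'.1 c.2.1) (X * P))
      + ((∑ c', bm δ w1 false c' c • lY (φ c'.1) u.1 c'.2.1) ((1 - X) * P)
        + (∑ c', bm δ w1 true c' c • lY (φ c'.1) u.1 c'.2.1) (X * P)) = 0 := by
  have h := lY_rel (φ c.1) (w := w0 + w1) ⟨u.1, u.2.1, u.2.2.trans (by omega)⟩
    ⟨c.2.1, c.2.2.1, c.2.2.2.trans (by omega)⟩ P
  have e0 : ((⟨u.1, u.2.1, u.2.2.trans (by omega)⟩ : W (w0 + w1)) = W.root _) = (u = W.root _) := by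
    simp [W.root, Subtype.ext_iff]
  have e1 : ((⟨c.2.1, c.2.2.1, c.2.2.2.trans (by omega)⟩ : W (w0 + w1)) = W.root _)
      = (c.2 = W.root _) := by
    simp [W.root, Subtype.ext_iff]
  simp only [e0, e1] at h
  change lY (φ c.1) u.1 c.2.1 (th P + (1 - 2 * X) * P)
      + (if u = W.root w0 then 0 else lY (φ c.1) u.par.1 c.2.1 ((if u.lt then X else 1 - X) * P))
      - (if c.2 = W.root w1 then 0 else
        lY (φ c.1) u.1 c.2.par.1 ((if c.2.lt then 1 - X else X) * P)) = 0 at h
  rw [sum_sm false u fun u' => lY (φ c.1) u'.1 c.2.1, sum_sm true u fun u' => lY (φ c.1) u'.1 c.2.1,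
    sum_bm false c fun c' => lY (φ c'.1) u.1 c'.2.1, sum_bm true c fun c' => lY (φ c'.1) u.1 c'.2.1,
    ← h]
  by_cases hu : u = W.root w0 <;> by_cases hv : c.2 = W.root w1 <;> cases u.lt <;> cases c.2.lt <;>
    simp only [hu, hv, sub_eq_add_neg, map_add, ne_eq, not_true_eq_false, and_true, ↓ reduceIte, LinearMap.zero_apply, Bool.false_eq_true, and_self, add_zero, Bool.not_false, Bool.not_true, neg_zero, Bool.true_eq_false, not_false_eq_true, and_false, LinearMap.neg_apply, zero_add]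

theorem word_ann {δ : ℕ} (φ : Fin δ → ℝ →ₗ[ℚ] ℚ) (k w1 : ℕ)
    (hk : 2 * (δ * Fintype.card (W w1)) < 2 ^ k) :
    ∃ C0 : ℚ, 0 ≤ C0 ∧ ∀ n : ℕ, ∃ η : W w1 → Fin δ × W w1 → ℚ, (∀ v c, |η v c| ≤ C0) ∧
      (∀ v μ, η v (μ, v) = φ μ 1) ∧
      (∀ v μ v', v'.1.length ≤ v.1.length → v' ≠ v → η v (μ, v') = 0) ∧
      ∀ y : (Fin δ × W w1) × Fin (n + 1) → ℚ,
        (∀ u : W (k + 1), ∀ i ≤ n + 2 * Fintype.card ((Fin δ × W w1) ⊕ W (k + 1)),
          ∑ q : (Fin δ × W w1) × Fin (n + 1), φ q.1.1 (Y u.1 q.1.2.1 (i + 1) (q.2 + 1)) * y q = 0) →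
        ∀ v j, ∑ c, η v c * y (c, j) = 0 := by
  classical
  let l : W (k + 1) → Fin δ × W w1 → ℚ[X] →ₗ[ℚ] ℚ := fun u c => lY (φ c.1) u.1 c.2.1
  set γ := gam (sm (k + 1)) (bm δ w1) l with hγ
  set Γ : ℚ := ∑ c, ∑ u, |γ u c| with hΓ
  have hΓ0 : 0 ≤ Γ := sum_nonneg fun c _ => sum_nonneg fun u _ => abs_nonneg _
  refine ⟨(k + 2) * Γ, by positivity, fun n => ?_⟩
  obtain ⟨N, hN1, ⟨ξ, hξ, hξ0, hξT⟩, hN3⟩ := mom_core (sm (k + 1)) (bm δ w1) l (lY_rel2 φ)
    (Sum.elim (fun c => k + 2 + c.2.1.length) fun u => k + 1 - u.1.length) (by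
      rintro β (c' | u) (c | u') h
      · simp only [epsM, Matrix.fromBlocks_apply₁₁, bm, Matrix.of_apply, ne_eq, ite_eq_right_iff,
          not_forall] at h
        obtain ⟨h, -⟩ := h
        simp only [Sum.elim_inl, h.2, List.length_cons, add_lt_add_iff_left, lt_add_iff_pos_right, Order.lt_one_iff]
      · simp [epsM] at h
      · simp only [Sum.elim_inl, Sum.elim_inr]; omega
      · simp only [epsM, Matrix.fromBlocks_apply₂₂, Matrix.neg_apply, sm, Matrix.of_apply, ne_eq,
          neg_eq_zero, ite_eq_right_iff, not_forall] at h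
        obtain ⟨h, -⟩ := h
        have h1 := u.2.2
        have h2 := congrArg List.length h
        simp only [Sum.elim_inr, List.length_cons] at h2 ⊢
        omega)
    ((univ.filter fun u : W (k + 1) => u.1.length = k + 1).map ⟨Sum.inr, Sum.inr_injective⟩) (by
      rw [card_map, Fintype.card_prod, Fintype.card_fin]
      exact hk.trans_le (card_top k)) n
  have hr : ∀ (ψ : (Fin δ × W w1) ⊕ W (k + 1) → ℚ) β t,
      (-Matrix.vecMul ψ (epsM (sm (k + 1)) (bm δ w1) l β)) (Sum.inr t)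
        = ∑ u, ψ (Sum.inr u) * sm (k + 1) β u t := by
    intro ψ β t
    simp only [epsM, Pi.neg_apply, Matrix.vecMul, dotProduct, Fintype.sum_sum_type, Matrix.fromBlocks_apply₁₂, Matrix.zero_apply, mul_zero, sum_const_zero, Matrix.fromBlocks_apply₂₂, Matrix.neg_apply, mul_neg, sum_neg_distrib, zero_add, neg_neg]
  have hl : ∀ (ψ : (Fin δ × W w1) ⊕ W (k + 1) → ℚ) β c,
      (-Matrix.vecMul ψ (epsM (sm (k + 1)) (bm δ w1) l β)) (Sum.inl c)
        = (if c.2 ≠ W.root w1 ∧ c.2.lt = !β then ψ (Sum.inl (c.1, c.2.par)) else 0)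
          + ∑ u, ψ (Sum.inr u) * γ u c := by
    intro ψ β c
    have := sum_bm β c fun c' => ψ (Sum.inl c')
    simp only [smul_eq_mul, mul_comm (bm δ w1 β _ c)] at this
    simp only [Pi.neg_apply, Matrix.vecMul, dotProduct, epsM, Fintype.sum_sum_type,
      Matrix.fromBlocks_apply₁₁, Matrix.fromBlocks_apply₂₁, this, Matrix.neg_apply, mul_neg,
      sum_neg_distrib, neg_add, neg_neg, ← hγ]
    split_ifs <;> simp only [neg_neg, neg_zero, zero_add]
  have hb : ∀ (ψ : (Fin δ × W w1) ⊕ W (k + 1) → ℚ) β (B : ℚ), 0 ≤ B → (∀ u, |ψ (Sum.inr u)| ≤ 1) →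
      (∀ c, |ψ (Sum.inl c)| ≤ B) → ∀ c,
      |(-Matrix.vecMul ψ (epsM (sm (k + 1)) (bm δ w1) l β)) (Sum.inl c)| ≤ B + Γ := by
    intro ψ β B hB h1 h2 c
    rw [hl]
    refine (abs_add_le _ _).trans (add_le_add ?_ ?_)
    · split_ifs
      · exact h2 _
      · simpa only [abs_zero] using hB
    · refine (abs_sum_le_sum_abs _ _).trans (le_trans (sum_le_sum fun u _ => ?_)
        (single_le_sum (f := fun c => ∑ u, |γ u c|)
          (fun c _ => sum_nonneg fun u _ => abs_nonneg _) (mem_univ c)))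
      rw [abs_mul]
      exact mul_le_of_le_one_left (abs_nonneg _) (h1 u)
  have H1 : ∀ j ≤ k + 1, ∃ ψ ∈ N, (∀ u : W (k + 1), u.1.length + j ≠ k + 1 → ψ (Sum.inr u) = 0) ∧
      (∀ u, |ψ (Sum.inr u)| ≤ 1) ∧ (∃ u, ψ (Sum.inr u) = 1) ∧ ∀ c, |ψ (Sum.inl c)| ≤ j * Γ := by
    intro j
    induction j with
    | zero =>
      intro _
      obtain ⟨u0, -, hu0⟩ := exists_max_image univ (fun u : W (k + 1) => |ξ (Sum.inr u)|)
        ⟨W.root _, mem_univ _⟩
      have hinl : ∀ c, ξ (Sum.inl c) = 0 := fun c => hξT _ (by simp only [mem_map, mem_filter, mem_univ, true_and, Function.Embedding.coeFn_mk, reduceCtorEq, and_false, exists_false, not_false_eq_true])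
      have hne : ξ (Sum.inr u0) ≠ 0 := by
        intro h0
        apply hξ0
        funext i
        rcases i with c | u
        · exact hinl c
        · have := hu0 u (mem_univ u)
          rw [h0, abs_zero] at this
          exact abs_nonpos_iff.1 this
      refine ⟨(ξ (Sum.inr u0))⁻¹ • ξ, N.smul_mem _ hξ, fun u hu => ?_, fun u => ?_,
        ⟨u0, by simp [hne]⟩, fun c => by simp [hinl]⟩
      · rw [Pi.smul_apply, hξT (Sum.inr u) (by simpa only [mem_map_mk, mem_filter, mem_univ, true_and, add_zero, ne_eq] using hu), smul_zero]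
      · rw [Pi.smul_apply, smul_eq_mul, abs_mul, abs_inv, inv_mul_le_iff₀ (abs_pos.2 hne), mul_one]
        exact hu0 u (mem_univ u)
    | succ j ih =>
      intro hj
      obtain ⟨ψ, h0, h1, h2, ⟨u, h3⟩, h4⟩ := ih (by omega)
      have hu : u ≠ W.root _ := by
        rintro rfl
        rw [h1 _ (by simp [W.root]; omega)] at h3
        exact zero_ne_one h3
      refine ⟨_, N.neg_mem (hN1 ψ h0 u.lt), fun t ht => ?_, fun t => ?_, ⟨u.par, ?_⟩, fun c => ?_⟩
      · rw [hr]
        rcases sum_child u.lt t (fun u => ψ (Sum.inr u)) with ⟨u', h5, h6⟩ | ⟨-, h6⟩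
        · rw [h6, h1]
          rw [h5, List.length_cons]
          omega
        · exact h6
      · rw [hr]
        rcases sum_child u.lt t (fun u => ψ (Sum.inr u)) with ⟨u', -, h6⟩ | ⟨-, h6⟩
        · rw [h6]; exact h2 _
        · rw [h6]; simp
      · rw [hr]
        rcases sum_child u.lt u.par (fun u => ψ (Sum.inr u)) with ⟨u', h5, h6⟩ | ⟨h5, -⟩
        · rw [h6, show u' = u from Subtype.ext (h5.trans (W.cons_of_ne hu).symm), h3]
        · exact absurd (W.cons_of_ne hu) (h5 u)
      · refine (hb ψ _ _ (by positivity) h2 h4 c).trans (le_of_eq ?_)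
        push_cast; ring
  have H2 : ∀ (v : List Bool) (hv : Adm v ∧ v.length ≤ w1), ∃ ψ ∈ N, (∀ u, ψ (Sum.inr u) = 0) ∧
      (∀ c, |ψ (Sum.inl c)| ≤ (k + 2) * Γ) ∧ (∀ μ, ψ (Sum.inl (μ, ⟨v, hv⟩)) = φ μ 1) ∧
      ∀ μ (v' : W w1), v'.1.length ≤ v.length → v'.1 ≠ v → ψ (Sum.inl (μ, v')) = 0 := by
    intro v
    induction v with
    | nil =>
      intro hv
      obtain ⟨ψ, h0, h1, h2, ⟨u, h3⟩, h4⟩ := H1 (k + 1) le_rfl
      have h5 : ∀ u : W (k + 1), u ≠ W.root _ → ψ (Sum.inr u) = 0 := fun u hu => h1 u (by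
        rw [W.cons_of_ne hu, List.length_cons]; omega)
      have hu : u = W.root _ := by
        by_contra hu
        rw [h5 u hu] at h3
        exact zero_ne_one h3
      subst hu
      refine ⟨_, N.neg_mem (hN1 ψ h0 false), fun t => ?_, fun c => ?_, fun μ => ?_,
        fun μ v' h6 h7 => absurd (List.eq_nil_of_length_eq_zero (Nat.le_zero.1 h6)) h7⟩
      · rw [hr]
        rcases sum_child false t (fun u => ψ (Sum.inr u)) with ⟨u', h6, h7⟩ | ⟨-, h7⟩
        · rw [h7, h5 _ ((W.eq_cons_iff _ _ _).1 h6).1]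
        · exact h7
      · refine (hb ψ _ _ (by positivity) h2 h4 c).trans (le_of_eq ?_)
        push_cast; ring
      · rw [hl, if_neg (fun h => h.1 rfl), zero_add, sum_eq_single (W.root _), h3, one_mul]
        · have e := lY_X_pow (φ μ) [] [] 0
          rw [pow_zero, Y_nil_nil] at e
          have e1 := fun β => sum_sm β (W.root (k + 1)) fun u' => l u' (μ, W.root w1) 1
          have e2 := fun β => sum_bm β (μ, W.root w1) fun c' => l (W.root (k + 1)) c' 1
          simp only [smul_eq_mul, ne_eq, not_true_eq_false, false_and, if_false] at e1 e2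
          change γ (W.root _) (μ, W.root w1) = _
          simp only [hγ, gam, Matrix.of_apply, e1, e2, sub_self, add_zero]
          change lY (φ μ) [] [] 1 = _
          rw [e]
          simp only [bt, zero_add, tsub_self, Nat.factorial_zero, Nat.cast_one, mul_one, Nat.reduceAdd, Nat.add_one_sub_one, Nat.factorial_one, ne_eq, one_ne_zero, not_false_eq_true, div_self, Rat.cast_one]
        · intro u _ hu
          rw [h5 u hu, zero_mul]
        · simp only [mem_univ, not_true_eq_false, mul_eq_zero, IsEmpty.forall_iff]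
    | cons x t ih =>
      intro hv
      have ht : Adm t ∧ t.length ≤ w1 := ⟨hv.1.tail, by have := hv.2; simp at this; omega⟩
      obtain ⟨ψ, h0, h1, h2, h3, h4⟩ := ih ht
      refine ⟨_, N.neg_mem (hN1 ψ h0 (!x)), fun t => ?_, fun c => ?_, fun μ => ?_,
        fun μ v' h6 h7 => ?_⟩
      · simp only [hr, h1, zero_mul, sum_const_zero]
      · simp only [hl, h1, zero_mul, sum_const_zero, add_zero]
        split_ifs
        · exact h2 _
        · rw [abs_zero]; positivity
      · simp only [hl, h1, zero_mul, sum_const_zero, add_zero]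
        rw [if_pos ⟨by simp [W.root], by simp [W.lt]⟩]
        exact h3 μ
      · simp only [hl, h1, zero_mul, sum_const_zero, add_zero]
        split_ifs with h8
        · have h9 := W.cons_of_ne h8.1
          refine h4 μ _ ?_ fun h => h7 ?_
          · rw [h9] at h6
            simpa only [List.length_cons, add_le_add_iff_right] using h6
          · rw [h9, h, h8.2, Bool.not_not]
        · rfl
  choose ψ h0 h1 h2 h3 h4 using H2
  refine ⟨fun v c => ψ v.1 v.2 (Sum.inl c), fun v c => h2 _ _ c, fun v μ => h3 _ _ μ,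
    fun v μ v' h5 h6 => h4 _ _ μ v' h5 fun h => h6 (Subtype.ext h), fun y hy v j => ?_⟩
  have h := hN3 _ (h0 v.1 v.2) (h1 _ _)
    (fun c => ∑ j : Fin (n + 1), C (y (c, j)) * (1 - X) ^ (j : ℕ)) (by
      intro c
      refine natDegree_sum_le_of_forall_le _ _ fun j _ => ?_
      have h1 : (1 - X : ℚ[X]).natDegree ≤ 1 := by compute_degree
      have h2 := natDegree_pow_le_of_le (j : ℕ) h1
      have h3 := natDegree_C_mul_le (y (c, j)) ((1 - X : ℚ[X]) ^ (j : ℕ))
      have := j.2
      omega) (by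
      intro u i hi
      have := hy u i hi
      rw [Fintype.sum_prod_type] at this
      rw [← this]
      refine sum_congr rfl fun c _ => ?_
      rw [mul_sum, map_sum]
      refine sum_congr rfl fun j _ => ?_
      rw [mul_left_comm, ← smul_eq_C_mul, map_smul, lY_pow, smul_eq_mul, mul_comm])
  have h5 := congrArg (fun p : ℚ[X] => (p.comp (1 - X)).coeff j) h
  simp only [zero_comp, coeff_zero, Polynomial.sum_comp, mul_comp, C_comp, pow_comp,
    sub_comp, one_comp, X_comp, sub_sub_cancel, finsetSum_coeff, coeff_C_mul, coeff_X_pow] at h5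
  rw [← h5]
  refine sum_congr rfl fun c _ => ?_
  rw [sum_eq_single j]
  · simp
  · intro b _ hb
    rw [if_neg (fun h => hb (Fin.ext h.symm)), mul_zero]
  · simp

end MZVLB

end

-- part MP_f3dc73_nt.H30.Small
section

/-!
Transversality and smallness estimates over the reals.
-/

set_option autoImplicit false

namespace MZVLB

open Finset

theorem tri_bound {V : Type} [Fintype V] (len : V → ℕ) (w : ℕ) (hw : ∀ v, len v ≤ w)
    (t : V → V → ℝ) (B : ℝ) (hB : 0 ≤ B) (ht : ∀ v v', |t v v'| ≤ B) (ht1 : ∀ v, t v v = 1)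
    (ht0 : ∀ v v', len v' ≤ len v → v' ≠ v → t v v' = 0) (y : V → ℝ) (e : ℝ) (he0 : 0 ≤ e)
    (he : ∀ v, |∑ v', t v v' * y v'| ≤ e) (v : V) :
    |y v| ≤ (Fintype.card V * B + 1) ^ (w + 1) * e := by
  classical
  have h1 : (1 : ℝ) ≤ Fintype.card V * B + 1 := le_add_of_nonneg_left (by positivity)
  suffices H : ∀ d v, w < len v + d → |y v| ≤ (Fintype.card V * B + 1) ^ d * e from
    H _ v (by omega)
  intro d
  induction d with
  | zero => intro v h; exact absurd (hw v) (by omega)
  | succ d ih =>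
    intro v h
    have h2 := he v
    rw [← add_sum_erase _ _ (mem_univ v), ht1, one_mul] at h2
    have h3 : |∑ v' ∈ univ.erase v, t v v' * y v'|
        ≤ Fintype.card V * (B * ((Fintype.card V * B + 1) ^ d * e)) := by
      refine (abs_sum_le_sum_abs _ _).trans ((sum_le_card_nsmul _ _
        (B * ((Fintype.card V * B + 1) ^ d * e)) fun v' hv' => ?_).trans ?_)
      · by_cases hl : len v' ≤ len v
        · rw [ht0 v v' hl (ne_of_mem_erase hv'), zero_mul, abs_zero]; positivity
        · rw [abs_mul]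
          exact mul_le_mul (ht _ _) (ih v' (by omega)) (abs_nonneg _) hB
      · rw [nsmul_eq_mul]
        gcongr
        exact card_le_univ _
    have h4 : e ≤ (Fintype.card V * B + 1) ^ d * e := le_mul_of_one_le_left he0 (one_le_pow₀ h1)
    have h5 := abs_sub (y v + ∑ v' ∈ univ.erase v, t v v' * y v')
      (∑ v' ∈ univ.erase v, t v v' * y v')
    rw [add_sub_cancel_right] at h5
    rw [pow_succ]
    linarith only [h2, h3, h4, h5]

/-- Uniform transversality of the real direction to the kernel of the stacked matrix. -/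
theorem transversal {δ : ℕ} (φ : Fin δ → ℝ →ₗ[ℚ] ℚ) (θ : Fin δ → ℝ)
    (h1 : ∑ μ, ((φ μ 1 : ℚ) : ℝ) * θ μ = 1) (k w1 : ℕ)
    (hk : 2 * (δ * Fintype.card (W w1)) < 2 ^ k) :
    ∃ κ : ℝ, 0 ≤ κ ∧ ∀ (n : ℕ) (y : W w1 × Fin (n + 1) → ℝ)
      (z : (Fin δ × W w1) × Fin (n + 1) → ℝ),
      (∀ u : W (k + 1), ∀ i ≤ n + 2 * Fintype.card ((Fin δ × W w1) ⊕ W (k + 1)),
        ∑ q : (Fin δ × W w1) × Fin (n + 1),
          ((φ q.1.1 (Y u.1 q.1.2.1 (i + 1) (q.2 + 1)) : ℚ) : ℝ) * z q = 0) →
      ‖y‖ ≤ κ * ‖(fun q : (Fin δ × W w1) × Fin (n + 1) => θ q.1.1 * y (q.1.2, q.2)) - z‖ := by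
  obtain ⟨C0, hC0, H⟩ := word_ann φ k w1 hk
  have hC : (0 : ℝ) ≤ C0 := by exact_mod_cast hC0
  have hΘ : 0 ≤ ∑ μ, |θ μ| := sum_nonneg fun μ _ => abs_nonneg _
  refine ⟨(Fintype.card (W w1) * (C0 * ∑ μ, |θ μ|) + 1) ^ (w1 + 1)
    * (Fintype.card (Fin δ × W w1) * C0), by positivity, fun n y z hz => ?_⟩
  obtain ⟨η, h2, h3, h4, h5⟩ := H n
  have h6 : ∀ v j, ∑ c, ((η v c : ℚ) : ℝ) * z (c, j) = 0 := by
    intro v j
    refine (Module.forall_dual_apply_eq_zero_iff ℚ _).1 fun ψ => ?_
    rw [← h5 (fun q => ψ (z q)) (fun u i hi => ?_) v j, map_sum]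
    · exact sum_congr rfl fun c _ => by rw [← Rat.smul_def, map_smul, smul_eq_mul]
    · have := congrArg ψ (hz u i hi)
      rw [map_sum, map_zero] at this
      rw [← this]
      exact sum_congr rfl fun c _ => by rw [← Rat.smul_def, map_smul, smul_eq_mul]
  set e := (fun q : (Fin δ × W w1) × Fin (n + 1) => θ q.1.1 * y (q.1.2, q.2)) - z with he
  refine (pi_norm_le_iff_of_nonneg (by positivity)).2 fun ⟨v, j⟩ => ?_
  rw [mul_assoc]
  refine tri_bound (fun v : W w1 => v.1.length) w1 (fun v => v.2.2)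
    (fun v v' => ∑ μ, ((η v (μ, v') : ℚ) : ℝ) * θ μ) _ (by positivity) (fun v v' => ?_)
    (fun v => by simp only [h3, h1]) (fun v v' h7 h8 => by simp only [h4 v _ v' h7 h8, Rat.cast_zero, zero_mul, sum_const_zero])
    (fun v => y (v, j)) _ (by positivity) (fun v => ?_) v
  · rw [mul_sum]
    refine (abs_sum_le_sum_abs _ _).trans (sum_le_sum fun μ _ => ?_)
    rw [abs_mul]
    gcongr
    exact_mod_cast h2 v (μ, v')
  · have h7 : ∑ v', (∑ μ, ((η v (μ, v') : ℚ) : ℝ) * θ μ) * y (v', j)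
        = ∑ c, ((η v c : ℚ) : ℝ) * e (c, j) := by
      simp only [he, Pi.sub_apply, mul_sub, sum_sub_distrib, h6, sub_zero, sum_mul]
      rw [Fintype.sum_prod_type_right]
      exact sum_congr rfl fun v' _ => sum_congr rfl fun μ _ => mul_assoc _ _ _
    rw [h7, mul_assoc, ← nsmul_eq_mul]
    refine (abs_sum_le_sum_abs _ _).trans (sum_le_card_nsmul _ _ _ fun c _ => ?_)
    rw [abs_mul]
    exact mul_le_mul (by exact_mod_cast h2 v c) (norm_le_pi_norm e (c, j)) (abs_nonneg _) hC

theorem major_real {β : Type} [Fintype β] (u : β → List Bool) (i : β → ℕ) (x : β → ℝ) (h : ℝ)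
    (hx : ∀ p, |x p| ≤ h) : ∃ s : ℝ, 0 ≤ s ∧ s ≤ h * Fintype.card β ∧
      HasSum (fun m : ℕ => |∑ p, x p * ((cs (u p) (i p) m : ℚ) : ℝ)| / (m + 1)) s := by
  have h0 : ∀ m : ℕ, (0 : ℝ) ≤ |∑ p, x p * ((cs (u p) (i p) m : ℚ) : ℝ)| / (m + 1) :=
    fun m => by positivity
  have hc : ∀ p m, (0 : ℝ) ≤ ((cs (u p) (i p) m : ℚ) : ℝ) := fun p m => by
    exact_mod_cast yrel_cs_nonneg _ _ _
  have h1 : ∀ M : ℕ, ∑ m ∈ range M, |∑ p, x p * ((cs (u p) (i p) m : ℚ) : ℝ)| / (m + 1) ≤
      h * Fintype.card β := by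
    intro M
    calc _ ≤ ∑ m ∈ range M, ∑ p, h * (((cs (u p) (i p) m : ℚ) : ℝ) / (m + 1)) := by
          refine sum_le_sum fun m _ => ?_
          rw [div_le_iff₀ (by positivity), sum_mul]
          refine (abs_sum_le_sum_abs _ _).trans (sum_le_sum fun p _ => ?_)
          rw [abs_mul, abs_of_nonneg (hc _ _), mul_assoc, div_mul_cancel₀ _ (by positivity)]
          exact mul_le_mul_of_nonneg_right (hx p) (hc _ _)
      _ = ∑ p, h * ∑ m ∈ range M, ((cs (u p) (i p) m : ℚ) : ℝ) / (m + 1) := by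
          rw [sum_comm]; simp only [mul_sum]
      _ ≤ ∑ _p : β, h := sum_le_sum fun p _ =>
          mul_le_of_le_one_right ((abs_nonneg _).trans (hx p)) (by
            exact_mod_cast yrel_cs_S (u p) (i p) M)
      _ = _ := by simp only [sum_const, card_univ, nsmul_eq_mul, mul_comm]
  exact ⟨_, tsum_nonneg h0, Real.tsum_le_of_sum_range_le h0 h1,
    (summable_of_sum_range_le h0 h1).hasSum⟩

/-- The real pairing is small on a subspace of codimension at most 2 T. -/
theorem Y_small_real (u : List Bool) (i : ℕ) {β : Type} [Fintype β] (v : β → List Bool)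
    (j : β → ℕ) (y : β → ℝ) (h : ℝ) (hy : ∀ q, |y q| ≤ h) (T : ℕ)
    (h0 : ∀ l < T, ∑ q, y q * ((cs (v q) (j q) l : ℚ) : ℝ) = 0)
    (h1 : ∀ m < T, ∑ q, y q * Y [] (v q) (m + 1) (j q + 1) = 0) :
    |∑ q, y q * Y u (v q) (i + 1) (j q + 1)|
      ≤ h * Fintype.card β * ((2 * T + 2) ^ 2 / 4 ^ T) := by
  obtain ⟨s0, a0, a1, a2⟩ := major_real (fun _ : Unit => u) (fun _ => i) (fun _ => 1) 1 (by simp)
  obtain ⟨s1, b0, b1, b2⟩ := major_real v j y h hy
  simp only [univ_unique, sum_singleton, one_mul, Fintype.card_unique, Nat.cast_one] at a1 a2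
  have c0 : ∀ (u : List Bool) (i : ℕ), HasSum (fun z : ℕ × ℕ => ((cs u i z.1 : ℚ) : ℝ) *
      (∑ q, y q * ((cs (v q) (j q) z.2 : ℚ) : ℝ)) * ((bt (z.1 + 1) (z.2 + 1) : ℚ) : ℝ))
      (∑ q, y q * Y u (v q) (i + 1) (j q + 1)) := by
    intro u i
    refine (hasSum_sum (s := univ) fun q _ =>
      (yrel_shift u (v q) i (j q)).mul_left (y q)).congr_fun fun z => ?_
    rw [mul_sum, sum_mul]
    push_cast
    exact sum_congr rfl fun q _ => by ring
  have c1 := (c0 u i).sub (hasSum_sum (s := range T) fun m _ =>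
    (c0 [] m).mul_left ((cs u i m : ℚ) : ℝ))
  rw [sum_eq_zero (s := range T) (fun m hm => by rw [h1 m (mem_range.1 hm), mul_zero]), sub_zero] at c1
  have c2 := (a2.mul b2 (a2.summable.mul_of_nonneg b2.summable
    (fun m => by positivity) (fun m => by positivity))).mul_right
    ((2 * (T : ℝ) + 2) ^ 2 / 4 ^ T)
  refine (c1.norm_le_of_bounded c2 fun z => ?_).trans (mul_le_mul_of_nonneg_right
    ((mul_le_mul a1 b1 b0 zero_le_one).trans (le_of_eq (one_mul _))) (by positivity))
  obtain ⟨B, hB⟩ : ∃ B, B = ∑ q, y q * ((cs (v q) (j q) z.2 : ℚ) : ℝ) := ⟨_, rfl⟩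
  rw [← hB, Real.norm_eq_abs]
  have e : ∀ m, ((cs [] m z.1 : ℚ) : ℝ) = if m = z.1 then 1 else 0 := by
    intro m
    simp only [cs, c]
    split_ifs <;> first | omega | simp
  simp only [e, ite_mul, one_mul, zero_mul, mul_ite, mul_zero, sum_ite_eq', mem_range]
  split_ifs with hz1
  · rw [mul_assoc, sub_self, abs_zero]; positivity
  by_cases hz2 : z.2 < T
  · rw [hB, h0 _ hz2]; simp
  have w : ((yrelW z.1 z.2 : ℚ) : ℝ) ≤ (2 * (T : ℝ) + 2) ^ 2 / 4 ^ T := by
    have := (Rat.cast_le (K := ℝ)).2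
      ((yrelW_anti (not_lt.1 hz1) (not_lt.1 hz2)).trans (yrelW_diag T))
    push_cast at this
    exact this
  refine le_trans (le_of_eq ?_) (mul_le_mul_of_nonneg_left w (by positivity))
  have hb : (0 : ℝ) ≤ ((bt (z.1 + 1) (z.2 + 1) : ℚ) : ℝ) := by exact_mod_cast yrel_bt_nonneg _ _
  rw [sub_zero, abs_mul, abs_mul, abs_of_nonneg hb]
  unfold yrelW
  push_cast
  field_simp

end MZVLB

end

-- part MP_f3dc73_nt.H30.Det
section

/-!
A determinant inequality for an integer matrix which is small on a subspace transversal to its kernel.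
-/

set_option autoImplicit false

namespace MZVLB

open Finset
open scoped RealInnerProductSpace

theorem abs_det_le_cols {r : ℕ} (N : Matrix (Fin r) (Fin r) ℝ) (c : Fin r → ℝ)
    (h : ∀ i k, |N i k| ≤ c k) : |N.det| ≤ (r : ℝ) ^ r * ∏ k, c k := by
  rw [Matrix.det_apply']
  refine (abs_sum_le_sum_abs _ _).trans ?_
  have h1 : ∀ σ : Equiv.Perm (Fin r), |((Equiv.Perm.sign σ : ℤ) : ℝ) * ∏ k, N (σ k) k|
      ≤ ∏ k, c k := by
    intro σ
    have h2 : |((Equiv.Perm.sign σ : ℤ) : ℝ)| = 1 := by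
      rcases Int.units_eq_one_or (Equiv.Perm.sign σ) with h | h <;> simp [h]
    rw [abs_mul, h2, one_mul, abs_prod]
    exact prod_le_prod (fun k _ => abs_nonneg _) fun k _ => h _ _
  refine (sum_le_card_nsmul _ _ _ fun σ _ => h1 σ).trans ?_
  rw [card_univ, Fintype.card_perm, Fintype.card_fin, nsmul_eq_mul]
  refine mul_le_mul_of_nonneg_right ?_ ((abs_nonneg _).trans (h1 1))
  exact_mod_cast Nat.factorial_le_pow r

theorem det_lemma {α β : Type} [Fintype β] [Nonempty β] (a : α → β → ℤ) (E : ℝ) (hE : 1 ≤ E)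
    (ha : ∀ i q, |(a i q : ℝ)| ≤ E) {γ : Type} [Fintype γ] (H : Submodule ℝ (γ → ℝ))
    (J : (γ → ℝ) →ₗ[ℝ] (β → ℝ)) (m : ℕ) (hm : m ≤ Module.finrank ℝ H) (ρ κ : ℝ) (hρ : 0 ≤ ρ)
    (hκ : 0 ≤ κ) (hsmall : ∀ y ∈ H, ∀ i, |∑ q, (a i q : ℝ) * J y q| ≤ E * ρ * ‖y‖)
    (htrans : ∀ y ∈ H, ∀ z : β → ℝ, (∀ i, ∑ q, (a i q : ℝ) * z q = 0) → ‖y‖ ≤ κ * ‖J y - z‖) :
    1 ≤ ((Fintype.card β : ℝ) ^ 2 * E) ^ Fintype.card β * (ρ * κ) ^ m := by
  classical
  let A : α → EuclideanSpace ℝ β := fun i => WithLp.toLp 2 fun q => (a i q : ℝ)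
  have hA : ∀ i (x : EuclideanSpace ℝ β), ⟪A i, x⟫ = ∑ q, (a i q : ℝ) * x q := by
    intro i x
    simp [A, PiLp.inner_apply, mul_comm]
  let P : Submodule ℝ (EuclideanSpace ℝ β) := Submodule.span ℝ (Set.range A)
  have hAP : ∀ i, A i ∈ P := fun i => Submodule.subset_span ⟨i, rfl⟩
  obtain ⟨ι, s, -, hsp, hli⟩ := exists_linearIndependent' ℝ A
  have : Finite ι := hli.finite
  let _ : Fintype ι := Fintype.ofFinite ι
  obtain ⟨r, hr⟩ : ∃ r, r = Module.finrank ℝ P := ⟨_, rfl⟩
  have hcard : Fintype.card ι = r := by rw [← finrank_span_eq_card hli, hsp, hr]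
  have hrβ : r ≤ Fintype.card β := by
    rw [hr]
    exact (Submodule.finrank_le P).trans (by simp)
  let e : Fin r ≃ ι := (Fintype.equivFinOfCardEq hcard).symm
  have hli' : LinearIndependent ℝ fun i : Fin r => A (s (e i)) := hli.comp e e.injective
  let π : (γ → ℝ) →ₗ[ℝ] P := (P.orthogonalProjectionOnto : EuclideanSpace ℝ β →ₗ[ℝ] P) ∘ₗ
    (WithLp.linearEquiv 2 ℝ (β → ℝ)).symm.toLinearMap ∘ₗ J
  have hπ : ∀ y i, ⟪A i, (π y : EuclideanSpace ℝ β)⟫ = ∑ q, (a i q : ℝ) * J y q := by
    intro y i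
    have h1 := P.starProjection_inner_eq_zero (WithLp.toLp 2 (J y)) _ (hAP i)
    rw [real_inner_comm, inner_sub_right, sub_eq_zero, hA] at h1
    exact h1.symm
  have hπn : ∀ y ∈ H, ‖y‖ ≤ κ * ‖π y‖ := by
    intro y hy
    have h1 := htrans y hy (J y - (π y : EuclideanSpace ℝ β).ofLp) (fun i => by
      simp only [Pi.sub_apply, mul_sub, sum_sub_distrib]
      rw [← hπ, hA, sub_self])
    rw [sub_sub_cancel] at h1
    refine h1.trans (mul_le_mul_of_nonneg_left ?_ hκ)
    exact (pi_norm_le_iff_of_nonneg (norm_nonneg _)).2 fun q => PiLp.norm_apply_le _ q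
  have hfin : Module.finrank ℝ (H.map π) = Module.finrank ℝ H := by
    rw [← LinearMap.range_domRestrict]
    refine LinearMap.finrank_range_of_inj ?_
    rw [← LinearMap.ker_eq_bot, LinearMap.ker_eq_bot']
    intro y hy
    have h1 := hπn y y.2
    rw [show π y = 0 from hy, norm_zero, mul_zero] at h1
    exact Subtype.ext (norm_le_zero_iff.1 h1)
  let o := stdOrthonormalBasis ℝ (H.map π)
  let v : Fin r → P := fun k => if h : (k : ℕ) < m then (o ⟨k, by omega⟩ : P) else 0
  obtain ⟨b, hb⟩ := Orthonormal.exists_orthonormalBasis_extension_of_card_eq (𝕜 := ℝ) (E := P)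
    (ι := Fin r) (by simp only [hr, Fintype.card_fin]) (v := v) (s := {k | (k : ℕ) < m}) (by
      have h1 : Orthonormal ℝ fun k => (o k : P) := o.orthonormal.comp_linearIsometry
        (H.map π).subtypeₗᵢ
      have h2 := h1.comp (fun k : {k : Fin r | (k : ℕ) < m} =>
          ⟨k.1, lt_of_lt_of_le (show (k.1 : ℕ) < m from k.2) (hm.trans hfin.ge)⟩)
        (fun k k' h => Subtype.ext (Fin.ext (by simpa only [Set.mem_ofPred_eq, Fin.mk.injEq] using h)))
      have h3 : Set.domRestrict {k : Fin r | (k : ℕ) < m} v = (fun k => (o k : P)) ∘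
          (fun k : {k : Fin r | (k : ℕ) < m} =>
          ⟨k.1, lt_of_lt_of_le (show (k.1 : ℕ) < m from k.2) (hm.trans hfin.ge)⟩) := by
        funext k
        have : (k.1 : ℕ) < m := k.2
        simp only [v, Set.domRestrict_apply, Set.mem_ofPred_eq, this, ↓ reduceDIte, Function.comp_apply]
      rw [h3]
      exact h2)
  have hmr : m ≤ r := by
    have := Submodule.finrank_le (H.map π)
    omega
  let N : Matrix (Fin r) (Fin r) ℝ := Matrix.of fun i k => ⟪A (s (e i)), (b k : EuclideanSpace ℝ β)⟫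
  let G : Matrix (Fin r) (Fin r) ℤ := Matrix.of fun i i' => ∑ q, a (s (e i)) q * a (s (e i')) q
  have hG : G.map (Int.castRingHom ℝ) = N * N.transpose := by
    ext i i'
    have h1 := b.sum_inner_mul_inner ⟨_, hAP (s (e i))⟩ ⟨_, hAP (s (e i'))⟩
    simp only [Submodule.coe_inner] at h1
    rw [hA] at h1
    simp only [Matrix.map_apply, G, Matrix.of_apply, Matrix.mul_apply, Matrix.transpose_apply, N,
      eq_intCast, Int.cast_sum, Int.cast_mul]
    rw [show (∑ q, ((a (s (e i)) q : ℝ) * (a (s (e i')) q : ℝ))) = _ from h1.symm]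
    exact sum_congr rfl fun k _ => by rw [real_inner_comm (A (s (e i')))]
  have hN : N.det ≠ 0 := by
    intro h0
    obtain ⟨c, hc0, hc⟩ := Matrix.exists_vecMul_eq_zero_iff.2 h0
    apply hc0
    funext i
    refine Fintype.linearIndependent_iff.1 hli' c ?_ i
    have h1 : (∑ i, c i • (⟨_, hAP (s (e i))⟩ : P)) = 0 := by
      apply b.repr.injective
      ext k
      rw [map_zero, b.repr_apply_apply, real_inner_comm, sum_inner]
      have := congrFun hc k
      simp only [Matrix.vecMul, dotProduct, N, Matrix.of_apply, Pi.zero_apply] at this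
      simpa only [SetLike.mk_smul_mk, Submodule.coe_inner, inner_smul_left, Real.ringHom_apply, PiLp.zero_apply] using this
    simpa only [SetLike.mk_smul_mk, AddSubmonoidClass.coe_finsetSum, ZeroMemClass.coe_zero] using congrArg Subtype.val h1
  have h1 : (1 : ℝ) ≤ |N.det| := by
    have h2 : ((G.det : ℤ) : ℝ) = N.det ^ 2 := by
      have := (Int.castRingHom ℝ).map_det G
      rw [RingHom.mapMatrix_apply, hG, Matrix.det_mul, Matrix.det_transpose] at this
      rw [sq]; exact this
    have h3 : (0 : ℤ) < G.det := by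
      have : (0 : ℝ) < ((G.det : ℤ) : ℝ) := by rw [h2]; positivity
      exact_mod_cast this
    have h4 : (1 : ℝ) ≤ N.det ^ 2 := by
      rw [← h2]; exact_mod_cast h3
    exact (one_le_sq_iff_one_le_abs _).1 h4
  have hβ : (1 : ℝ) ≤ Fintype.card β := by exact_mod_cast Fintype.card_pos
  have h2 := abs_det_le_cols N
    (fun k => (Fintype.card β * E) * if (k : ℕ) < m then ρ * κ else 1) (by
      intro i k
      simp only [N, Matrix.of_apply]
      split_ifs with hk
      · obtain ⟨y, hy, hy'⟩ := (o ⟨k, by omega⟩).2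
        have h3 : b k = π y := by rw [hb k hk, hy']; simp [v, hk]
        have h4 := hπn y hy
        rw [← h3, b.orthonormal.1 k, mul_one] at h4
        rw [h3, hπ]
        refine (hsmall y hy _).trans ?_
        calc E * ρ * ‖y‖ ≤ E * ρ * κ := by gcongr
          _ = 1 * E * (ρ * κ) := by ring
          _ ≤ _ := by gcongr
      · rw [hA, mul_one]
        refine (abs_sum_le_sum_abs _ _).trans ?_
        refine (sum_le_card_nsmul _ _ E fun q _ => ?_).trans (by simp)
        rw [abs_mul]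
        have h3 : |(b k : EuclideanSpace ℝ β) q| ≤ 1 := by
          have := PiLp.norm_apply_le (b k : EuclideanSpace ℝ β) q
          rw [show ‖(b k : EuclideanSpace ℝ β)‖ = 1 from b.orthonormal.1 k] at this
          exact this
        calc _ ≤ E * 1 := by gcongr; exact ha _ _
          _ = E := mul_one E)
  rw [prod_mul_distrib, prod_const, card_univ, Fintype.card_fin, prod_ite, prod_const, prod_const,
    one_pow, mul_one, Fin.card_filter_val_lt, min_eq_right hmr, ← mul_assoc, ← mul_pow] at h2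
  refine h1.trans (h2.trans (mul_le_mul_of_nonneg_right ?_ (by positivity)))
  have h5 : (r : ℝ) ≤ Fintype.card β := by exact_mod_cast hrβ
  calc _ ≤ ((Fintype.card β : ℝ) ^ 2 * E) ^ r := by
        rw [sq, mul_assoc]; gcongr
    _ ≤ _ := pow_le_pow_right₀ (by nlinarith only [hE, hβ]) hrβ

end MZVLB

end

-- part MP_f3dc73_nt.H30.Final
section

/-!
The lower bound with exponent one third.
-/

set_option autoImplicit false

namespace MZVLB

open Finset

theorem dual_data (R : ℕ) : ∀ δ : ℕ, δ = Module.finrank ℚ (Submodule.span ℚ (G R)) →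
    ∃ (φ : Fin δ → ℝ →ₗ[ℚ] ℚ) (θ : Fin δ → ℝ) (M : ℕ), 1 ≤ M ∧ (∀ μ, Good R (φ μ) M) ∧
      ∀ x ∈ Submodule.span ℚ (G R), ∑ μ, ((φ μ x : ℚ) : ℝ) * θ μ = x := by
  rintro δ rfl
  set V : Submodule ℚ ℝ := Submodule.span ℚ (G R) with hV
  have : FiniteDimensional ℚ V := FiniteDimensional.span_of_finite ℚ (G_finite R)
  let b := Module.finBasis ℚ V
  have hext : ∀ i, ∃ g : ℝ →ₗ[ℚ] ℚ, g.comp V.subtype = b.coord i :=
    fun i => LinearMap.exists_extend _
  choose ψ hψ using hext
  obtain ⟨D, M, hD, hDM⟩ := Siegel_denom ((Set.univ : Set (Fin (Module.finrank ℚ V))) ×ˢ G R)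
    (Set.finite_univ.prod (G_finite R)) (fun x => ψ x.1 x.2)
  have hD' : (0 : ℝ) < D := by exact_mod_cast hD
  refine ⟨fun i => (D : ℚ) • ψ i, fun i => (b i : ℝ) / D, M + 1, by omega, fun i g hg => ?_,
    fun x hx => ?_⟩
  · have := hDM (i, g) ⟨Set.mem_univ _, hg⟩
    simp only [LinearMap.smul_apply, smul_eq_mul]
    exact ⟨this.1, this.2.trans (by push_cast; linarith only [])⟩
  · have h2 := congrArg (fun v : V => (v : ℝ)) (b.sum_repr ⟨x, hx⟩)
    simp only [AddSubmonoidClass.coe_finsetSum, SetLike.val_smul] at h2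
    conv_rhs => rw [← h2]
    refine Finset.sum_congr rfl fun i _ => ?_
    have h3 : ψ i x = b.repr ⟨x, hx⟩ i := by
      have := congrArg (fun g : V →ₗ[ℚ] ℚ => g ⟨x, hx⟩) (hψ i)
      simpa using this
    simp only [LinearMap.smul_apply, smul_eq_mul, h3, Rat.smul_def]
    push_cast
    field_simp

theorem Y_mem (R : ℕ) (u v : List Bool) (hu : Adm u) (hv : Adm v) (hR : u.length + v.length ≤ R)
    (i j : ℕ) : Y u v (i + 1) (j + 1) ∈ Submodule.span ℚ (G R) := by
  by_contra hns
  obtain ⟨g, hg1, hg2⟩ := LinearMap.exists_extend_of_notMem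
    (0 : Submodule.span ℚ (G R) →ₗ[ℚ] ℚ) hns (1 : ℚ)
  have h2 := (arith R g 0 (fun x hx => by
    have h3 : g x = 0 := by
      have := congrArg (fun f : Submodule.span ℚ (G R) →ₗ[ℚ] ℚ =>
        f ⟨x, Submodule.subset_span hx⟩) hg1
      simpa only [LinearMap.coe_comp, Submodule.coe_subtype, Function.comp_apply, LinearMap.zero_apply] using this
    exact ⟨⟨0, by simp [h3]⟩, by simp [h3]⟩) u v hu hv hR (i + j) i j le_rfl).2
  rw [hg2] at h2
  norm_num at h2

theorem step3 (k w1 δ : ℕ) (hδ : δ = Module.finrank ℚ (Submodule.span ℚ (G (k + 1 + w1))))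
    (hδ1 : 1 ≤ δ) (hk : 2 * (δ * Fintype.card (W w1)) < 2 ^ k) :
    ∃ C κ c0 : ℕ, ∀ t : ℕ, 4 ^ (Fintype.card (W w1) * (t + 1)) ≤
      ((δ * Fintype.card (W w1) * (4 * t + 4)) ^ 2 * (Nat.lcmUpto (8 * t + c0) ^ (k + 1 + w1 + 1)
        * (C * 2 ^ (4 * t + 3)))) ^ (2 * δ) * (Fintype.card (W w1) * (4 * t + 4)
          * (2 * (Fintype.card (W w1) * (t + 1)) + 2) ^ 2 * κ) := by
  classical
  obtain ⟨φ, θ, M, hM, hφ, hθ⟩ := dual_data _ δ hδ
  obtain ⟨κ, hκ, htr⟩ := transversal φ θ (hθ 1 (Submodule.subset_span (one_mem_G _))) k w1 hk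
  set c := Fintype.card ((Fin δ × W w1) ⊕ W (k + 1)) with hc
  set R := k + 1 + w1 with hR
  set N := Fintype.card (W w1) with hN
  have hN1 : 1 ≤ N := Fintype.card_pos_iff.2 ⟨W.root w1⟩
  refine ⟨M * 4 ^ R, ⌈κ⌉₊, 6 + 2 * c + 1, fun t => ?_⟩
  set D := Nat.lcmUpto (8 * t + (6 + 2 * c + 1)) ^ (R + 1) with hD
  have hD1 : 1 ≤ D := Nat.one_le_pow _ _ (Nat.lcmUpto_pos _)
  set T := N * (t + 1) with hT
  have ha := fun (p : W (k + 1) × Fin (4 * t + 3 + 2 * c + 1))
      (q : (Fin δ × W w1) × Fin (4 * t + 3 + 1)) =>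
    arith R (φ q.1.1) M (hφ _) p.1.1 q.1.2.1 p.1.2.1 q.1.2.2.1
      (by have := p.1.2.2; have := q.1.2.2.2; omega) (8 * t + (6 + 2 * c)) p.2 q.2
      (by have := p.2.2; have := q.2.2; omega)
  choose a haz using fun p q => (ha p q).1
  have haz' : ∀ p q, ((a p q : ℤ) : ℝ)
      = D * ((φ q.1.1 (Y p.1.1 q.1.2.1 (p.2 + 1) (q.2 + 1)) : ℚ) : ℝ) := by
    intro p q
    have := congrArg (fun x : ℚ => (x : ℝ)) (haz p q)
    simp only [Rat.cast_intCast, Rat.cast_mul, Rat.cast_pow, Rat.cast_natCast] at this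
    rw [← this, hD]
    push_cast
    rfl
  let L : (W w1 × Fin (4 * t + 3 + 1) → ℝ) →ₗ[ℝ] (Fin T ⊕ Fin T → ℝ) :=
    Matrix.vecMulLinear (Matrix.of fun q => Sum.elim
      (fun l => ((cs q.1.1 q.2 l : ℚ) : ℝ)) fun m => Y [] q.1.1 (m + 1) (q.2 + 1))
  let J : (W w1 × Fin (4 * t + 3 + 1) → ℝ) →ₗ[ℝ] ((Fin δ × W w1) × Fin (4 * t + 3 + 1) → ℝ) :=
    LinearMap.pi fun q => θ q.1.1 • LinearMap.proj (q.1.2, q.2)
  have : Nonempty (Fin δ) := ⟨⟨0, hδ1⟩⟩
  have : Nonempty (W w1) := ⟨W.root w1⟩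
  have hE : (D : ℝ) ≤ D * (M * 4 ^ R * 2 ^ (4 * t + 3)) := by
    refine le_mul_of_one_le_right (by positivity) ?_
    exact_mod_cast Nat.one_le_iff_ne_zero.2 (by positivity)
  have key := det_lemma a (D * (M * 4 ^ R * 2 ^ (4 * t + 3)))
    (le_trans (by exact_mod_cast hD1) hE) (by
      intro p q
      rw [haz', abs_mul, Nat.abs_cast]
      refine mul_le_mul_of_nonneg_left ?_ (by positivity)
      have h1 : |φ q.1.1 (Y p.1.1 q.1.2.1 (p.2 + 1) (q.2 + 1))| ≤ M * 4 ^ R * 2 ^ (4 * t + 3) := by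
        refine (ha p q).2.trans ?_
        have : (q.2 : ℕ) ≤ 4 * t + 3 := by have := q.2.2; omega
        rw [mul_right_comm]
        gcongr
        norm_num
      exact_mod_cast h1) (LinearMap.ker L) J (2 * T) (by
      have h1 := LinearMap.finrank_range_add_finrank_ker L
      have h2 := Submodule.finrank_le (LinearMap.range L)
      simp only [Module.finrank_fintype_fun_eq_card, Fintype.card_sum, Fintype.card_prod,
        Fintype.card_fin, ← hN] at h1 h2
      have h3 : N * (4 * t + 3 + 1) = 4 * T := by rw [hT]; ring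
      omega) (N * (4 * t + 4) * ((2 * T + 2) ^ 2 / 4 ^ T)) κ (by positivity) hκ (by
      intro y hy p
      have h1 : ∑ q, (a p q : ℝ) * J y q
          = D * ∑ q : W w1 × Fin (4 * t + 3 + 1), y q * Y p.1.1 q.1.1 (p.2 + 1) (q.2 + 1) := by
        simp only [haz', J, LinearMap.pi_apply, LinearMap.smul_apply, LinearMap.proj_apply,
          smul_eq_mul, Fintype.sum_prod_type, mul_sum]
        rw [sum_comm]
        refine sum_congr rfl fun v _ => ?_
        rw [sum_comm]
        refine sum_congr rfl fun j _ => ?_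
        rw [← hθ _ (Y_mem R p.1.1 v.1 p.1.2.1 v.2.1 (by have := p.1.2.2; have := v.2.2; omega)
          p.2 j)]
        conv_lhs => enter [2, μ, 1, 2]; rw [hθ _ (Y_mem R p.1.1 v.1 p.1.2.1 v.2.1
          (by have := p.1.2.2; have := v.2.2; omega) p.2 j)]
        rw [mul_sum, mul_sum]
        exact sum_congr rfl fun μ _ => by ring
      have h2 := Y_small_real p.1.1 p.2 (fun q : W w1 × Fin (4 * t + 3 + 1) => q.1.1)
        (fun q => q.2) y ‖y‖ (fun q => norm_le_pi_norm y q) T
        (fun l hl => by simpa only [L, LinearMap.flip_apply, Matrix.vecMulBilin_apply, Matrix.vecMul, dotProduct, Matrix.of_apply, Sum.elim_inl, Pi.zero_apply] using congrFun hy (Sum.inl ⟨l, hl⟩))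
        (fun l hl => by simpa only [L, LinearMap.flip_apply, Matrix.vecMulBilin_apply, Matrix.vecMul, dotProduct, Matrix.of_apply, Sum.elim_inr, Pi.zero_apply] using congrFun hy (Sum.inr ⟨l, hl⟩))
      rw [h1, abs_mul, Nat.abs_cast]
      simp only [Fintype.card_prod, Fintype.card_fin, ← hN] at h2
      refine (mul_le_mul hE h2 (abs_nonneg _) (by positivity)).trans (le_of_eq ?_)
      push_cast
      ring) (by
      intro y _ z hz
      refine htr (4 * t + 3) y z fun u i hi => ?_
      have h1 := hz (u, ⟨i, by omega⟩)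
      simp only [haz', mul_assoc, ← mul_sum] at h1
      exact (mul_eq_zero.1 h1).resolve_left (by positivity))
  have hcard : Fintype.card ((Fin δ × W w1) × Fin (4 * t + 3 + 1)) = 2 * δ * (2 * T) := by
    simp only [Fintype.card_prod, Fintype.card_fin, ← hN, hT]; ring
  rw [hcard, pow_mul, ← mul_pow, one_le_pow_iff_of_nonneg (by positivity) (by positivity)] at key
  have h4 : (0 : ℝ) < 4 ^ T := by positivity
  have h5 : (4 : ℝ) ^ T ≤ (((2 * δ * (2 * T) : ℕ) : ℝ) ^ 2
      * (D * (M * 4 ^ R * 2 ^ (4 * t + 3)))) ^ (2 * δ)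
      * (N * (4 * t + 4) * (2 * T + 2) ^ 2 * ⌈κ⌉₊) := by
    rw [← one_le_div h4]
    refine key.trans ?_
    rw [mul_div_assoc]
    refine mul_le_mul_of_nonneg_left ?_ (by positivity)
    calc _ ≤ (N : ℝ) * (4 * t + 4) * ((2 * T + 2) ^ 2 / 4 ^ T) * ⌈κ⌉₊ := by
          gcongr
          exact Nat.le_ceil κ
      _ = _ := by ring
  rw [show δ * N * (4 * t + 4) = 2 * δ * (2 * T) by rw [hT]; ring]
  exact_mod_cast h5

theorem bd_lcm (c0 : ℕ) : Bd (fun t => Nat.lcmUpto (8 * t + c0)) 17 := by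
  obtain ⟨C, hC⟩ := Chebyshev.psi_sub_theta_le_mul_sqrt
  refine ⟨2 ^ (3 * c0 + ⌈6 * C ^ 2⌉₊), 0, fun t => ?_⟩
  have h1 := hC ((8 * t + c0 : ℕ) : ℝ)
  have h2 := Chebyshev.theta_le_log4_mul_x (x := ((8 * t + c0 : ℕ) : ℝ)) (by positivity)
  rw [Chebyshev.psi_eq_log_lcmUpto] at h1
  have h3 : Real.log 4 = 2 * Real.log 2 := by
    rw [show (4 : ℝ) = 2 ^ 2 by norm_num, Real.log_pow]; norm_num
  have h4 := Real.log_two_gt_d9
  have h5 := Real.sq_sqrt (x := ((8 * t + c0 : ℕ) : ℝ)) (by positivity)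
  have h6 := Nat.le_ceil (6 * C ^ 2)
  have h7 : Real.log (Nat.lcmUpto (8 * t + c0))
      ≤ Real.log (2 ^ (3 * c0 + ⌈6 * C ^ 2⌉₊ + 17 * t)) := by
    rw [Real.log_pow]
    generalize √((8 * t + c0 : ℕ) : ℝ) = s at h1 h5
    push_cast at h1 h2 h5 ⊢
    have h8 : (0 : ℝ) ≤ t := by positivity
    have h9 : (0 : ℝ) ≤ c0 := by positivity
    nlinarith only [sq_nonneg (s - 8 * C), h3, h4, h6, h1, h2, h5]
  have h8 := (Real.log_le_log_iff (by exact_mod_cast Nat.lcmUpto_pos _) (by positivity)).1 h7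
  rw [pow_zero, mul_one, ← pow_add]
  exact_mod_cast h8

theorem dichotomy (k w1 δ : ℕ) (hδ : δ = Module.finrank ℚ (Submodule.span ℚ (G (k + 1 + w1))))
    (hδ1 : 1 ≤ δ) (hk : 2 * (δ * Fintype.card (W w1)) < 2 ^ k) :
    Fintype.card (W w1) ≤ δ * (17 * (k + 1 + w1) + 21) := by
  by_contra hcon
  push Not at hcon
  obtain ⟨C, κ, c0, H⟩ := step3 k w1 δ hδ hδ1 hk
  generalize Fintype.card (W w1) = N at hcon H
  generalize k + 1 + w1 = R at hcon H
  have hall := (((((Bd.const (δ * N)).mul (Bd.lin 4 4)).pow 2).mul (((bd_lcm c0).pow (R + 1)).mul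
    ((Bd.const C).mul (Bd.exp 4 3)))).pow (2 * δ)).mul ((((Bd.const N).mul (Bd.lin 4 4)).mul
      ((Bd.lin (2 * N) (2 * N + 2)).pow 2)).mul (Bd.const κ))
  refine not_bd hall fun t _ => le_trans ?_ ((H t).trans (le_of_eq ?_))
  · rw [show (4 : ℕ) = 2 ^ 2 by norm_num, ← pow_mul]
    refine Nat.pow_le_pow_right (by norm_num) ?_
    linarith only [Nat.mul_le_mul_right t (Nat.succ_le_of_lt hcon)]
  · congr 4
    ring

theorem main3_nat (k : ℕ) (hk : 2 ≤ k) :
    2 ^ k ≤ 64 * (k - 1) ^ 3 * (17 * k - 13) ^ 2 * Module.finrank ℚ (Zs k) ^ 3 := by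
  obtain ⟨R, rfl⟩ : ∃ R, k = R + 2 := ⟨k - 2, by omega⟩
  have h2 := finrank_G_le R (R + 2) le_rfl
  obtain ⟨δ, hδ⟩ : ∃ δ, δ = Module.finrank ℚ (Submodule.span ℚ (G R)) := ⟨_, rfl⟩
  have h3 : 1 ≤ δ := by
    have : Module.Finite ℚ (Submodule.span ℚ (G R)) := Module.Finite.span_of_finite ℚ (G_finite _)
    rw [hδ, Nat.one_le_iff_ne_zero, Ne, Submodule.finrank_eq_zero, Submodule.span_eq_bot]
    intro h
    exact one_ne_zero (h 1 (one_mem_G _))
  rw [← hδ] at h2
  obtain ⟨A, hA⟩ : ∃ A, A = δ * (17 * R + 21) := ⟨_, rfl⟩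
  have hA1 : 1 ≤ A := by rw [hA]; exact Nat.one_le_iff_ne_zero.2 (by positivity)
  have h4 : 2 ^ R ≤ 16 * δ * A ^ 2 := by
    have h5 := Nat.lt_pow_succ_log_self (b := 2) (by norm_num) A
    have h6 := Nat.pow_log_le_self 2 (show A ≠ 0 by omega)
    generalize Nat.log 2 A = w at h5 h6
    rcases le_or_gt R (w + 1) with h | h
    · calc 2 ^ R ≤ 2 ^ (w + 1) := Nat.pow_le_pow_right (by norm_num) h
        _ ≤ 2 * A := by rw [pow_succ]; omega
        _ ≤ 16 * δ * A ^ 2 := by nlinarith only [h3, hA1]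
    · obtain ⟨k, rfl⟩ : ∃ k, R = k + 1 + (w + 1) := ⟨R - w - 2, by omega⟩
      have h7 : 2 ^ k ≤ 2 * (δ * 2 ^ (w + 1)) := by
        by_contra h8
        have h9 := dichotomy k (w + 1) δ hδ h3
          (lt_of_le_of_lt (by gcongr; exact card_W_le _) (not_le.1 h8))
        have h10 := card_W (w + 1)
        rw [← hA] at h9
        exact absurd (h5.trans_le (h10.trans h9)) (lt_irrefl _)
      calc 2 ^ (k + 1 + (w + 1)) = 4 * 2 ^ k * 2 ^ w := by ring
        _ ≤ 4 * (2 * (δ * 2 ^ (w + 1))) * 2 ^ w := by gcongr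
        _ = 16 * δ * (2 ^ w) ^ 2 := by ring
        _ ≤ 16 * δ * A ^ 2 := by gcongr
  rw [show R + 2 - 1 = R + 1 by omega, show 17 * (R + 2) - 13 = 17 * R + 21 by omega]
  calc 2 ^ (R + 2) = 4 * 2 ^ R := by ring
    _ ≤ 4 * (16 * δ * A ^ 2) := by gcongr
    _ = 64 * δ ^ 3 * (17 * R + 21) ^ 2 := by rw [hA]; ring
    _ ≤ 64 * ((R + 1) * Module.finrank ℚ (Zs (R + 2))) ^ 3 * (17 * R + 21) ^ 2 := by gcongr
    _ = _ := by ring

theorem main3_real (k : ℕ) (hk : 2 ≤ k) :
    (2 : ℝ) ^ ((k : ℝ) / 3) / (27 * (k : ℝ) ^ ((5 : ℝ) / 3)) ≤ (Module.finrank ℚ (Zs k) : ℝ) := by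
  have h0 : 2 ^ k ≤ 27 ^ 3 * k ^ 5 * Module.finrank ℚ (Zs k) ^ 3 := by
    refine (main3_nat k hk).trans (Nat.mul_le_mul_right _ ?_)
    calc 64 * (k - 1) ^ 3 * (17 * k - 13) ^ 2 ≤ 64 * k ^ 3 * (17 * k) ^ 2 := by
          gcongr <;> omega
      _ = 18496 * k ^ 5 := by ring
      _ ≤ 27 ^ 3 * k ^ 5 := by gcongr; norm_num
  have h1 : (2 : ℝ) ^ k ≤ 27 ^ 3 * (k : ℝ) ^ 5 * (Module.finrank ℚ (Zs k) : ℝ) ^ 3 := by
    exact_mod_cast h0
  have hk' : (0 : ℝ) < k := by exact_mod_cast (by omega : 0 < k)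
  rw [div_le_iff₀ (by positivity), mul_comm]
  refine le_of_pow_le_pow_left₀ (n := 3) (by norm_num) (by positivity) ?_
  have e1 : ((2 : ℝ) ^ ((k : ℝ) / 3)) ^ 3 = 2 ^ k := by
    rw [← Real.rpow_natCast, ← Real.rpow_mul (by norm_num), ← Real.rpow_natCast]
    congr 1
    push_cast
    ring
  have e2 : ((k : ℝ) ^ ((5 : ℝ) / 3)) ^ 3 = (k : ℝ) ^ 5 := by
    rw [← Real.rpow_natCast, ← Real.rpow_mul hk'.le, ← Real.rpow_natCast]
    congr 1
    push_cast
    ring
  rw [e1, mul_pow, mul_pow, e2]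
  exact h1

end MZVLB

end
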