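import Pool.Agent.MP_f3dc73_nt.Mg.H30_Final

attribute [-instance] Module.FaithfullyFlat.of_isIntegral_of_isDomain AddQuantale.instAddLeftMono
  AddQuantale.instAddRightMono IdemSemiring.toCanonicallyOrderedAdd bot_nonempty RKHS.instFunLike
  Nontrivial.to_nonempty LieAdmissibleAlgebra.toModule NumberField.to_charZero
  Quantale.instMulRightMono RightPreLieAlgebra.toModule Zero.instNonempty LeftPreLieAlgebra.toModule
  Fintype.decidableForallFintype IdemSemiring.toMulLeftMono instCoeTCOfCoe One.instNonempty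
  IdemSemiring.toMulRightMono Group.IsPerfect.subsingleton_of_isMulCommutative NeZero.of_gt'
  AddTorsor.nonempty littleWedderburn IsOrderedMonoid.toMulLeftMono Invertible.toNeZero
  InnerProductSpace.toNormedSpace Module.IsNoetherian.finite Quantale.instMulLeftMono
  NonUnitalAlgSemiHomClass.toDistribMulActionSemiHomClass top_nonempty
  NonUnitalNonAssocSemiring.toMulZeroClass ConnectedSpace.toNonempty TestFunctionClass.toDFunLike
  TotallySeparatedSpace.t2Space AddGroup.addLeftReflectLE_of_addLeftMono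
  ContDiffMapSupportedInClass.toDFunLike instCoeTOfCoeDep

-- part MP_f3dc73_nt.H4.Arith
section

/-!
Arithmetic of the polylogarithmic integrals with control of the depth.
-/

set_option autoImplicit false

namespace MZVLB

open Finset Filter Topology

/-- Convergent multiple zeta values of weight at most R and depth at most D. -/
def GD (R D : ℕ) : Set ℝ :=
  {x | ∃ u : List Bool, Adm u ∧ u.head? ≠ some true ∧ u.length ≤ R ∧ u.count true ≤ D ∧ x = zw u}

/-- The rational span of the multiple zeta values of weight w and depth at most d. -/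
noncomputable def ZD (w d : ℕ) : Submodule ℚ ℝ :=
  Submodule.span ℚ {x : ℝ | ∃ m : ℕ, ∃ n : Fin m → ℕ, m ≤ d ∧
    (∀ i, 1 ≤ n i) ∧ (∀ i : Fin m, (i : ℕ) + 1 = m → 2 ≤ n i) ∧ ∑ i, n i = w ∧ x = zeta m n}

/-- Integer values of bounded size on GD R D. -/
def GoodD (R D : ℕ) (φ : ℝ →ₗ[ℚ] ℚ) (C : ℚ) : Prop :=
  ∀ g ∈ GD R D, (∃ z : ℤ, φ g = z) ∧ |φ g| ≤ C

theorem one_mem_GD (R D : ℕ) : (1 : ℝ) ∈ GD R D :=
  ⟨[], adm_nil, by simp, by simp, by simp, zw_nil.symm⟩

theorem GD_finite (R D : ℕ) : (GD R D).Finite :=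
  (G_finite R).subset fun _ ⟨u, h1, h2, h3, _, h5⟩ => ⟨u, h1, h2, h3, h5⟩

theorem cutD (v : List Bool) : ∀ u : List Bool, Adm u → Adm v →
    (u ≠ [] → Y u v 0 1 ∈ GD (u.length + v.length + 1) (u.count true + v.count false)) ∧
      (v ≠ [] → Y u v 1 0 ∈ GD (u.length + v.length + 1) (u.count true + v.count false + 1)) := by
  induction v with
  | nil =>
    intro u hu _
    exact ⟨fun h => ⟨false :: u, hu.cons h _, by simp, by simp, by simp, Y_zw u h⟩,
      fun h => absurd rfl h⟩
  | cons x t ih =>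
    intro u hu hv
    have key : ∀ w : List Bool, Adm w → w ≠ [] →
        DY w (x :: t) 0 0 ∈ GD (w.length + t.length + 1) (w.count true + (x :: t).count false) := by
      intro w hw hw0
      have h := Y_ibp w (x :: t) hw hv 0 0 (Or.inl hw0) (Or.inl (by simp))
      simp only [Nat.cast_zero, zero_mul, zero_add] at h
      rw [h]
      cases x
      · simp only [DY]
        rw [Y_symm]
        simpa [add_assoc] using (ih w hw hv.tail).2 hv.ne_nil
      · simp only [DY]
        rw [Y_symm]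
        simpa using (ih w hw hv.tail).1 hw0
    refine ⟨fun h => ?_, fun _ => ?_⟩
    · have := key (false :: u) (hu.cons h _) (by simp)
      simp only [DY, List.length_cons] at this ⊢
      convert this using 2
      · ring
      · simp
    · have := key (true :: u) hu.cons_true (by simp)
      simp only [DY, List.length_cons] at this ⊢
      convert this using 2
      · ring
      · simp only [List.count_cons_self]; ring

theorem arith_GD {R D : ℕ} {φ : ℝ →ₗ[ℚ] ℚ} {C : ℚ} (hφ : GoodD R D φ C) (E : ℕ) {r s : ℕ}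
    (hr : r ≤ R) (hs : s ≤ D) {x : ℝ} (hx : x ∈ GD r s) : ArithOk E φ 0 C x := by
  obtain ⟨u, h1, h2, h3, h4, h5⟩ := hx
  simpa only [ArithOk, pow_zero, one_mul] using hφ x ⟨u, h1, h2, h3.trans hr, h4.trans hs, h5⟩

theorem arith_ID {R D : ℕ} {φ : ℝ →ₗ[ℚ] ℚ} {C : ℚ} (hφ : GoodD R D φ C) (K : ℕ) (r : ℕ) :
    r ≤ R → ∀ u v : List Bool, Adm u → Adm v → u.length + v.length = r →
      u.count true + v.count false ≤ D → ∀ k ≤ K,
      ArithOk (Nat.lcmUpto (K + 1)) φ (r + 1) (C * 4 ^ r) (Y u v (k + 1) 1) := by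
  have hC : 0 ≤ C := (abs_nonneg _).trans (hφ 1 (one_mem_GD R D)).2
  induction r with
  | zero =>
    intro _ u v _ _ h _ k hk
    obtain rfl : u = [] := List.eq_nil_of_length_eq_zero (by omega)
    obtain rfl : v = [] := List.eq_nil_of_length_eq_zero (by omega)
    refine ArithOk.div (k := k) (by omega) ?_
    have e : ((k + 1 : ℕ) : ℝ) * Y [] [] (k + 1) 1 = 1 := by
      rw [Y_nil_nil]
      have := yrel_bt_succ k 0
      simp only [zero_add, add_zero, Nat.factorial_succ] at this
      rw [this]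
      push_cast
      field_simp
      simp
    rw [e]
    refine (arith_GD hφ _ le_rfl le_rfl (one_mem_GD R D)).mono le_rfl ?_
    push_cast
    have : (0 : ℚ) ≤ k := by positivity
    nlinarith only [hC]
  | succ r ih =>
    intro hr
    replace ih := ih (by omega)
    have h4 : (1 : ℚ) ≤ 4 ^ r := one_le_pow₀ (by norm_num)
    have hC4 : C ≤ C * 4 ^ r := le_mul_of_one_le_right hC h4
    have J : ∀ u v : List Bool, Adm u → Adm v → u.length + v.length = r →
        u.count true + v.count false + 1 ≤ D → v ≠ [] → ∀ k ≤ K + 1,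
        ArithOk (Nat.lcmUpto (K + 1)) φ (r + 1) (C + k * (C * 4 ^ r)) (Y u v (k + 1) 0) := by
      intro u v hu hv h hD hv0 k
      induction k with
      | zero =>
        intro _
        exact (arith_GD hφ _ (by omega) hD ((cutD v u hu hv).2 hv0)).mono (by omega) (by simp)
      | succ k ihk =>
        intro hk
        have e := Y_split u v (k + 1) 0 (Or.inr (by omega)) (Or.inl hv0)
        rw [eq_sub_of_add_eq e.symm]
        refine ((ihk (by omega)).sub (ih u v hu hv h (by omega) k (by omega))).mono le_rfl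
          (le_of_eq ?_)
        push_cast; ring
    intro u v hu hv h hD k hk
    have hk0 : (0 : ℚ) ≤ k * (C * 4 ^ r) := by positivity
    refine ArithOk.div (k := k) (by omega) ?_
    cases v with
    | cons y s =>
      have e := Y_ibp u (y :: s) hu hv (k + 1) 0 (Or.inr (by omega)) (Or.inl (by simp))
      simp only [Nat.cast_zero, zero_mul, zero_add] at e
      rw [eq_sub_of_add_eq e]
      have a1 : ArithOk (Nat.lcmUpto (K + 1)) φ (r + 1) (C + (k + 1 : ℕ) * (C * 4 ^ r))
          (DY (y :: s) u 0 (k + 1)) := by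
        have hl : u.length + s.length = r := by simp at h; omega
        cases y
        · simp only [DY]
          rw [Y_symm]
          exact J u s hu hv.tail hl (by simp at hD; omega) hv.ne_nil (k + 1) (by omega)
        · simp only [DY]
          rw [Y_symm]
          exact (ih u s hu hv.tail hl (by simpa using hD) k hk).mono le_rfl
            (by push_cast; linarith only [hC, hk0])
      have a2 : ArithOk (Nat.lcmUpto (K + 1)) φ (r + 1) (C + (k + 1 : ℕ) * (C * 4 ^ r))
          (DY u (y :: s) (k + 1) 0) := by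
        cases u with
        | nil => exact .zero (by positivity)
        | cons x t =>
          have hl : t.length + (y :: s).length = r := by simp only [List.length_cons] at h ⊢; omega
          cases x
          · exact (ih t _ hu.tail hv hl (by simpa using hD) k hk).mono le_rfl
              (by push_cast; linarith only [hC, hk0])
          · exact J t _ hu.tail hv hl (by rw [List.count_cons_self] at hD; omega) (by simp) (k + 1)
              (by omega)
      refine (a1.sub a2).mono le_rfl ?_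
      push_cast
      rw [pow_succ]
      linarith only [hC4, hk0]
    | nil =>
      cases u with
      | nil => simp at h
      | cons x t =>
        have hl : t.length + ([] : List Bool).length = r := by simpa using h
        have step : ∀ a : ℕ, ((a + 1 : ℕ) : ℝ) * Y (x :: t) [] (a + 1) 1 =
            a * Y (x :: t) [] a 1 + DY (x :: t) [] a 1 := by
          intro a
          have e1 := Y_ibp (x :: t) [] hu hv a 1 (Or.inl (by simp)) (Or.inr le_rfl)
          have e2 := Y_split (x :: t) [] a 1 (Or.inl (by simp)) (Or.inr le_rfl)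
          rw [show DY [] (x :: t) 1 a = 0 from rfl] at e1
          push_cast at e1 ⊢
          rw [e2]
          linarith only [e1]
        cases x
        · have hD' : t.count true + ([] : List Bool).count false ≤ D := by simpa using hD
          have cl : ∀ a : ℕ, (a : ℝ) * Y (false :: t) [] a 1 = Y t [] 0 1 - Y t [] a 1 := by
            intro a
            induction a with
            | zero => simp
            | succ a iha =>
              rw [step, iha, Y_split t [] a 1 (Or.inl hu.ne_nil) (Or.inr le_rfl)]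
              simp only [DY]
              ring
          rw [cl]
          refine (((arith_GD hφ _ (by omega) hD' ((cutD [] t hu.tail hv).1 hu.ne_nil)).mono
            (Nat.zero_le _) le_rfl).sub (ih t [] hu.tail hv hl hD' k hk)).mono le_rfl ?_
          push_cast
          rw [pow_succ]
          linarith only [hC, hC4, hk0]
        · have hD' : t.count true + ([] : List Bool).count false ≤ D := by
            rw [List.count_cons_self] at hD; omega
          have cl : ∀ a ≤ K + 1, ArithOk (Nat.lcmUpto (K + 1)) φ (r + 1) (a * (C * 4 ^ r))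
              ((a : ℝ) * Y (true :: t) [] a 1) := by
            intro a
            induction a with
            | zero => intro _; simpa using ArithOk.zero le_rfl
            | succ a iha =>
              intro ha
              rw [step]
              refine ((iha (by omega)).add (ih t [] hu.tail hv hl hD' a (by omega))).mono le_rfl
                (le_of_eq ?_)
              push_cast; ring
          refine (cl (k + 1) (by omega)).mono le_rfl ?_
          push_cast
          rw [pow_succ]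
          linarith only [hC, hC4, hk0]

theorem arithD (R D : ℕ) (φ : ℝ →ₗ[ℚ] ℚ) (C : ℚ) (hφ : GoodD R D φ C)
    (u v : List Bool) (hu : Adm u) (hv : Adm v) (hR : u.length + v.length ≤ R)
    (hD : u.count true + v.count false ≤ D) (K i j : ℕ) (hK : i + j ≤ K) :
    (∃ z : ℤ, (Nat.lcmUpto (K + 1) : ℚ) ^ (R + 1) * φ (Y u v (i + 1) (j + 1)) = z) ∧
      |φ (Y u v (i + 1) (j + 1))| ≤ C * 2 ^ j * 4 ^ R := by
  have hC : 0 ≤ C := (abs_nonneg _).trans (hφ 1 (one_mem_GD R D)).2
  change ArithOk _ φ (R + 1) _ _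
  induction j generalizing i with
  | zero =>
    refine (arith_ID hφ K _ hR u v hu hv rfl hD i (by omega)).mono (by omega) ?_
    rw [pow_zero, mul_one]
    exact mul_le_mul_of_nonneg_left (pow_le_pow_right₀ (by norm_num) hR) hC
  | succ j ih =>
    have e := Y_split u v (i + 1) (j + 1) (Or.inr (by omega)) (Or.inr (by omega))
    rw [eq_sub_of_add_eq' e.symm]
    exact ((ih i (by omega)).sub (ih (i + 1) (by omega))).mono le_rfl (le_of_eq (by ring))

theorem dual_dataD (R D : ℕ) : ∀ δ : ℕ, δ = Module.finrank ℚ (Submodule.span ℚ (GD R D)) →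
    ∃ (φ : Fin δ → ℝ →ₗ[ℚ] ℚ) (θ : Fin δ → ℝ) (M : ℕ), 1 ≤ M ∧ (∀ μ, GoodD R D (φ μ) M) ∧
      ∀ x ∈ Submodule.span ℚ (GD R D), ∑ μ, ((φ μ x : ℚ) : ℝ) * θ μ = x := by
  rintro δ rfl
  set V : Submodule ℚ ℝ := Submodule.span ℚ (GD R D) with hV
  have : FiniteDimensional ℚ V := FiniteDimensional.span_of_finite ℚ (GD_finite R D)
  let b := Module.finBasis ℚ V
  have hext : ∀ i, ∃ g : ℝ →ₗ[ℚ] ℚ, g.comp V.subtype = b.coord i :=
    fun i => LinearMap.exists_extend _
  choose ψ hψ using hext
  obtain ⟨E, M, hE, hEM⟩ := Siegel_denom ((Set.univ : Set (Fin (Module.finrank ℚ V))) ×ˢ GD R D)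
    (Set.finite_univ.prod (GD_finite R D)) (fun x => ψ x.1 x.2)
  have hE' : (0 : ℝ) < E := by exact_mod_cast hE
  refine ⟨fun i => (E : ℚ) • ψ i, fun i => (b i : ℝ) / E, M + 1, by omega, fun i g hg => ?_,
    fun x hx => ?_⟩
  · have := hEM (i, g) ⟨Set.mem_univ _, hg⟩
    simp only [LinearMap.smul_apply, smul_eq_mul]
    exact ⟨this.1, this.2.trans (by push_cast; linarith only [])⟩
  · have h2 := congrArg (fun v : V => (v : ℝ)) (b.sum_repr ⟨x, hx⟩)
    simp only [AddSubmonoidClass.coe_finsetSum, SetLike.val_smul] at h2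
    conv_rhs => rw [← h2]
    refine Finset.sum_congr rfl fun i _ => ?_
    have h3 : ψ i x = b.repr ⟨x, hx⟩ i := by
      have := congrArg (fun g : V →ₗ[ℚ] ℚ => g ⟨x, hx⟩) (hψ i)
      simpa using this
    simp only [LinearMap.smul_apply, smul_eq_mul, h3, Rat.smul_def]
    push_cast
    field_simp

theorem Y_memD (R D : ℕ) (u v : List Bool) (hu : Adm u) (hv : Adm v)
    (hR : u.length + v.length ≤ R) (hD : u.count true + v.count false ≤ D) (i j : ℕ) :
    Y u v (i + 1) (j + 1) ∈ Submodule.span ℚ (GD R D) := by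
  by_contra hns
  obtain ⟨g, hg1, hg2⟩ := LinearMap.exists_extend_of_notMem
    (0 : Submodule.span ℚ (GD R D) →ₗ[ℚ] ℚ) hns (1 : ℚ)
  have h2 := (arithD R D g 0 (fun x hx => by
    have h3 : g x = 0 := by
      have := congrArg (fun f : Submodule.span ℚ (GD R D) →ₗ[ℚ] ℚ =>
        f ⟨x, Submodule.subset_span hx⟩) hg1
      simpa only [LinearMap.coe_comp, Submodule.coe_subtype, Function.comp_apply, LinearMap.zero_apply] using this
    exact ⟨⟨0, by simp [h3]⟩, by simp [h3]⟩) u v hu hv hR hD (i + j) i j le_rfl).2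
  rw [hg2] at h2
  norm_num at h2

/-- The composition attached to a word. -/
def cmp : List Bool → List ℕ
  | [] => []
  | true :: t => 1 :: cmp t
  | false :: t => match cmp t with
    | [] => []
    | a :: n => (a + 1) :: n

theorem cmp_length (u : List Bool) : (cmp u).length = u.count true := by
  induction u with
  | nil => rfl
  | cons b t ih =>
    cases b
    · simp only [cmp]
      rw [show (false :: t).count true = t.count true by simp, ← ih]
      cases cmp t <;> rfl
    · simp [cmp, ih]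

theorem cmp_word (u : List Bool) (hu : Adm u) : (∀ a ∈ cmp u, 1 ≤ a) ∧
    (cmp u).sum = u.length ∧ (u.head? ≠ some true → ∀ a ∈ (cmp u).head?, 2 ≤ a) ∧
    (∀ k, 1 ≤ k → ∑ j ∈ range k, ((c u j : ℚ) : ℝ) = zetaT (cmp u) k) ∧
    (u ≠ [] → ∃ a n', cmp u = a :: n' ∧
      ∀ k, 1 ≤ k → ((c u k : ℚ) : ℝ) = zetaT n' k / (k : ℝ) ^ a) := by
  have key : ∀ (v : List Bool) (a : ℕ) (n' : List ℕ), v ≠ [] →
      (∀ k, 1 ≤ k → ((c v k : ℚ) : ℝ) = zetaT n' k / (k : ℝ) ^ a) →
      ∀ k, 1 ≤ k → ∑ j ∈ range k, ((c v j : ℚ) : ℝ) = zetaT (a :: n') k := by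
    intro v a n' hv h k hk
    simp only [zetaT]
    rw [range_eq_Ico, sum_eq_sum_Ico_succ_bot hk, c_zero hv]
    simp only [Rat.cast_zero, zero_add]
    exact sum_congr rfl fun j hj => h j (mem_Ico.1 hj).1
  induction u with
  | nil =>
    refine ⟨by simp [cmp], by simp [cmp], by simp [cmp], fun k hk => ?_, fun h => absurd rfl h⟩
    rw [sum_eq_single 0]
    · simp [c, zetaT, cmp]
    · intro j _ hj
      simp [c, hj]
    · intro h
      exact absurd (mem_range.2 hk) h
  | cons b t ih =>
    obtain ⟨h1, h2, -, h4, h5⟩ := ih hu.tail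
    cases b with
    | false =>
      obtain ⟨a, n', e, h6⟩ := h5 hu.ne_nil
      have e' : cmp (false :: t) = (a + 1) :: n' := by simp only [cmp, e]
      rw [e] at h1 h2
      rw [e']
      have ha : 1 ≤ a := h1 a (by simp)
      have h7 : ∀ k, 1 ≤ k → ((c (false :: t) k : ℚ) : ℝ) = zetaT n' k / (k : ℝ) ^ (a + 1) := by
        intro k hk
        simp only [c]
        push_cast
        rw [h6 k hk, div_div, pow_succ]
      refine ⟨?_, ?_, ?_, key _ _ _ (by simp) h7, fun _ => ⟨_, _, rfl, h7⟩⟩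
      · intro x hx
        rcases List.mem_cons.1 hx with rfl | hx
        · omega
        · exact h1 x (by simp [hx])
      · simp only [List.sum_cons, List.length_cons] at h2 ⊢
        omega
      · intro _ x hx
        simp only [List.head?_cons, Option.mem_def, Option.some.injEq] at hx
        omega
    | true =>
      have h7 : ∀ k, 1 ≤ k → ((c (true :: t) k : ℚ) : ℝ) = zetaT (cmp t) k / (k : ℝ) ^ 1 := by
        intro k hk
        simp only [c]
        push_cast
        rw [h4 k hk, pow_one]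
      rw [show cmp (true :: t) = 1 :: cmp t from rfl]
      refine ⟨?_, ?_, ?_, key _ _ _ (by simp) h7, fun _ => ⟨_, _, rfl, h7⟩⟩
      · intro x hx
        rcases List.mem_cons.1 hx with rfl | hx
        · omega
        · exact h1 x hx
      · simp only [List.sum_cons, List.length_cons]
        omega
      · intro h
        simp at h

theorem cmp_zw (u : List Bool) (hu : Adm u) (hh : u.head? ≠ some true) :
    ZetaConv (cmp u) ∧ (cmp u).sum = u.length ∧ Tendsto (zetaT (cmp u)) atTop (𝓝 (zw u)) := by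
  obtain ⟨h1, h2, h3, h4, -⟩ := cmp_word u hu
  have hc : ZetaConv (cmp u) := ⟨h1, h3 hh⟩
  refine ⟨hc, h2, ?_⟩
  obtain ⟨C, hC⟩ := zetaT_bdd _ hc
  have h0 : ∀ j, (0 : ℝ) ≤ ((c u j : ℚ) : ℝ) := fun j => by exact_mod_cast c_nonneg u j
  have hs : Summable fun j => ((c u j : ℚ) : ℝ) := by
    refine summable_of_sum_range_le h0 (c := C) fun k => ?_
    refine le_trans (sum_le_sum_of_subset_of_nonneg (range_mono (Nat.le_succ k))
      fun j _ _ => h0 j) ?_
    rw [h4 (k + 1) (by omega)]
    exact hC _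
  refine hs.hasSum.tendsto_sum_nat.congr' ?_
  filter_upwards [eventually_ge_atTop 1] with k hk using h4 k hk

theorem zetaSt_length (a : ℕ) (n : List ℕ) : ∀ s ∈ zetaSt a n, s.length ≤ n.length + 1 := by
  induction n with
  | nil => simp [zetaSt]
  | cons b n ih =>
    intro s hs
    simp only [zetaSt, List.mem_cons, List.mem_map] at hs
    rcases hs with rfl | rfl | ⟨t, ht, rfl⟩
    · simp
    · simp
    · simpa only [List.length_cons, add_le_add_iff_right] using ih t ht

theorem zeta_mul_memD (a : ℕ) (ha : 2 ≤ a) (u : List Bool) (hu : Adm u)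
    (hh : u.head? ≠ some true) (D : ℕ) (hD : u.count true ≤ D) :
    zeta 1 (zetaFn [a]) * zw u ∈ ZD (a + u.length) (D + 1) := by
  obtain ⟨hn, hs, ht⟩ := cmp_zw u hu hh
  have hl := cmp_length u
  generalize cmp u = n at hn hs ht hl
  have hca : ZetaConv [a] := ⟨by simpa only [List.mem_cons, List.not_mem_nil, or_false, forall_eq] using (by omega : 1 ≤ a), by simpa using ha⟩
  have h1 := (zeta_tendsto [a] hca).mul ht
  have h2 : Tendsto (fun M => ((zetaSt a n).map fun s => zetaT s M).sum) atTop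
      (𝓝 ((zetaSt a n).map fun s => zeta s.length (zetaFn s)).sum) :=
    tendsto_list_sum _ fun s hs => zeta_tendsto s (zetaSt_conv a ha n hn s hs)
  have h3 : zeta 1 (zetaFn [a]) * zw u =
      ((zetaSt a n).map fun s => zeta s.length (zetaFn s)).sum :=
    tendsto_nhds_unique (h1.congr fun M => zetaSt_mul a (by omega) n hn.1 M) h2
  rw [h3]
  refine list_sum_mem fun x hx => ?_
  obtain ⟨s, hs', rfl⟩ := List.mem_map.1 hx
  have h4 := zetaSt_conv a ha n hn s hs'
  have h5 := zetaSt_length a n s hs'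
  exact Submodule.subset_span ⟨s.length, zetaFn s, by omega, zetaFn_one s h4.1, zetaFn_two s h4,
    by rw [zetaFn_sum, zetaSt_sum a n s hs', hs], rfl⟩

theorem ZD_finite (k d : ℕ) : Module.Finite ℚ (ZD k d) := by
  have := zeta_Zs_finite k
  refine Submodule.finiteDimensional_of_le (S₂ := Zs k) (Submodule.span_mono ?_)
  rintro x ⟨m, n, -, h⟩
  exact ⟨m, n, h⟩

/-- Convergent values of weight exactly j and depth at most D. -/
def GE (j D : ℕ) : Set ℝ :=
  {x | ∃ u : List Bool, Adm u ∧ u.head? ≠ some true ∧ u.length = j ∧ u.count true ≤ D ∧ x = zw u}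

theorem GE_finite (j D : ℕ) : (GE j D).Finite :=
  (G_finite j).subset fun _ ⟨u, h1, h2, h3, _, h4⟩ => ⟨u, h1, h2, h3.le, h4⟩

theorem GE_le (j k D : ℕ) (h : j + 2 ≤ k) :
    Module.finrank ℚ (Submodule.span ℚ (GE j D)) ≤ Module.finrank ℚ (ZD k (D + 1)) := by
  have := ZD_finite k (D + 1)
  set z := zeta 1 (zetaFn [k - j]) with hz
  have hz0 : z ≠ 0 := (zeta_one_pos (k - j) (by omega)).ne'
  have hle : (Submodule.span ℚ (GE j D)).map (LinearMap.mulLeft ℚ z) ≤ ZD k (D + 1) := by
    rw [Submodule.map_span, Submodule.span_le]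
    rintro _ ⟨_, ⟨u, h1, h2, h3, h4, rfl⟩, rfl⟩
    have := zeta_mul_memD (k - j) (by omega) u h1 h2 D h4
    rwa [h3, show k - j + j = k by omega] at this
  have hinj : Function.Injective (LinearMap.mulLeft ℚ z) := mul_right_injective₀ hz0
  rw [(Submodule.equivMapOfInjective _ hinj _).finrank_eq]
  exact Submodule.finrank_mono hle

theorem finrank_GD_le (R k D : ℕ) (h : R + 2 ≤ k) :
    Module.finrank ℚ (Submodule.span ℚ (GD R D))
      ≤ (R + 1) * Module.finrank ℚ (ZD k (D + 1)) := by
  induction R with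
  | zero =>
    have : GD 0 D = GE 0 D := by
      ext x
      simp only [GD, ne_eq, nonpos_iff_eq_zero, List.length_eq_zero_iff, ↓ existsAndEq, List.head?_nil, reduceCtorEq, not_false_eq_true, List.nodup_nil, List.count_nil, zero_le, true_and, Set.mem_ofPred_eq, GE]
    rw [this, zero_add, one_mul]
    exact GE_le 0 k D h
  | succ R ih =>
    have hG : GD (R + 1) D = GD R D ∪ GE (R + 1) D := by
      ext x
      constructor
      · rintro ⟨u, h1, h2, h3, h4⟩
        rcases Nat.lt_or_ge u.length (R + 1) with h5 | h5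
        · exact Or.inl ⟨u, h1, h2, by omega, h4⟩
        · exact Or.inr ⟨u, h1, h2, by omega, h4⟩
      · rintro (⟨u, h1, h2, h3, h4⟩ | ⟨u, h1, h2, h3, h4⟩)
        · exact ⟨u, h1, h2, by omega, h4⟩
        · exact ⟨u, h1, h2, by omega, h4⟩
    have := Module.Finite.span_of_finite ℚ (GD_finite R D)
    have := Module.Finite.span_of_finite ℚ (GE_finite (R + 1) D)
    rw [hG, Submodule.span_union]
    refine (Submodule.finrank_add_le_finrank_add_finrank _ _).trans ?_
    have h1 := ih (by omega)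
    have h2 := GE_le (R + 1) k D h
    linarith only [h1, h2]

end MZVLB

end

-- part MP_f3dc73_nt.H4.Word
section

/-!
Words with a bounded number of occurrences of one letter, and the constant functionals killing the
kernel of the stacked matrix.
-/

set_option autoImplicit false

namespace MZVLB

open Finset Polynomial

/-- Admissible words of length at most w with at most d letters equal to b. -/
abbrev V (b : Bool) (d w : ℕ) : Type :=
  {u : List Bool // (Adm u ∧ u.length ≤ w) ∧ u.count b ≤ d}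

instance (b : Bool) (d w : ℕ) : Finite (V b d w) :=
  ((List.finite_length_le Bool w).subset (fun _ h => h.1.2) :
    {u : List Bool | (Adm u ∧ u.length ≤ w) ∧ u.count b ≤ d}.Finite)

noncomputable instance (b : Bool) (d w : ℕ) : Fintype (V b d w) := Fintype.ofFinite _

section

variable {b : Bool} {d w : ℕ}

def V.root (b : Bool) (d w : ℕ) : V b d w := ⟨[], ⟨adm_nil, Nat.zero_le _⟩, Nat.zero_le _⟩

theorem V.tail_mem {x : Bool} {t : List Bool}
    (h : (Adm (x :: t) ∧ (x :: t).length ≤ w) ∧ (x :: t).count b ≤ d) :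
    (Adm t ∧ t.length ≤ w) ∧ t.count b ≤ d :=
  ⟨⟨h.1.1.tail, by have := h.1.2; simp at this; omega⟩,
    le_trans (List.Sublist.count_le _ (List.sublist_cons_self x t)) h.2⟩

def V.par (u : V b d w) : V b d w :=
  ⟨u.1.tail, by
    obtain ⟨u, hu⟩ := u
    cases u with
    | nil => exact hu
    | cons a t => exact V.tail_mem hu⟩

def V.lt (u : V b d w) : Bool := u.1.headD false

theorem V.cons_of_ne {u : V b d w} (hu : u ≠ V.root b d w) : u.1 = u.lt :: u.par.1 := by
  obtain ⟨u, h⟩ := u
  cases u with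
  | nil => exact absurd rfl hu
  | cons a t => rfl

theorem V.eq_cons_iff (u u' : V b d w) (β : Bool) :
    u.1 = β :: u'.1 ↔ u ≠ V.root b d w ∧ u.lt = β ∧ u' = u.par := by
  constructor
  · intro h
    refine ⟨fun h' => ?_, by simp [V.lt, h], Subtype.ext (by simp [V.par, h])⟩
    rw [h'] at h
    simp [V.root] at h
  · rintro ⟨h1, rfl, rfl⟩
    exact V.cons_of_ne h1

end

/-- The matrix removing the first letter. -/
def smV (b : Bool) (d w : ℕ) (β : Bool) : Matrix (V b d w) (V b d w) ℚ :=
  Matrix.of fun u u' => if u.1 = β :: u'.1 then 1 else 0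

/-- The matrix adding a first letter, on the stacked columns. -/
def bmV (δ : ℕ) (b : Bool) (d w : ℕ) (β : Bool) : Matrix (Fin δ × V b d w) (Fin δ × V b d w) ℚ :=
  Matrix.of fun c' c => if c'.1 = c.1 ∧ c.2.1 = (!β) :: c'.2.1 then -1 else 0

theorem sum_smV {M : Type} [AddCommGroup M] [Module ℚ M] {b : Bool} {d w : ℕ} (β : Bool)
    (u : V b d w) (F : V b d w → M) :
    ∑ u', smV b d w β u u' • F u' = if u ≠ V.root b d w ∧ u.lt = β then F u.par else 0 := by
  classical
  rw [sum_eq_single u.par]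
  · simp only [smV, Matrix.of_apply, V.eq_cons_iff, and_true]
    split_ifs <;> simp
  · intro u' _ h
    simp [smV, V.eq_cons_iff, h]
  · simp only [mem_univ, not_true_eq_false, smul_eq_zero, IsEmpty.forall_iff]

theorem sum_bmV {M : Type} [AddCommGroup M] [Module ℚ M] {δ : ℕ} {b : Bool} {d w : ℕ} (β : Bool)
    (c : Fin δ × V b d w) (F : Fin δ × V b d w → M) : ∑ c', bmV δ b d w β c' c • F c'
      = if c.2 ≠ V.root b d w ∧ c.2.lt = !β then -F (c.1, c.2.par) else 0 := by
  classical
  rw [sum_eq_single (c.1, c.2.par)]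
  · simp only [bmV, Matrix.of_apply, V.eq_cons_iff, and_true, true_and]
    split_ifs <;> simp
  · rintro ⟨μ, v⟩ _ h
    simp only [bmV, Matrix.of_apply, V.eq_cons_iff]
    rw [if_neg, zero_smul]
    rintro ⟨rfl, -, -, rfl⟩
    exact h rfl
  · simp only [mem_univ, not_true_eq_false, smul_eq_zero, IsEmpty.forall_iff]

theorem sum_childV {b : Bool} {d w : ℕ} (β : Bool) (t : V b d w) (F : V b d w → ℚ) :
    (∃ u : V b d w, u.1 = β :: t.1 ∧ ∑ u, F u * smV b d w β u t = F u) ∨
      ((∀ u : V b d w, u.1 ≠ β :: t.1) ∧ ∑ u, F u * smV b d w β u t = 0) := by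
  classical
  by_cases h : ∃ u : V b d w, u.1 = β :: t.1
  · obtain ⟨u, hu⟩ := h
    refine Or.inl ⟨u, hu, ?_⟩
    rw [sum_eq_single u]
    · simp [smV, hu]
    · intro u' _ h'
      have : u'.1 ≠ β :: t.1 := fun h'' => h' (Subtype.ext (h''.trans hu.symm))
      simp [smV, this]
    · simp only [mem_univ, not_true_eq_false, mul_eq_zero, IsEmpty.forall_iff]
  · push Not at h
    exact Or.inr ⟨h, sum_eq_zero fun u _ => by simp [smV, h u]⟩

theorem lY_relV {δ d0 w0 d1 w1 : ℕ} (φ : Fin δ → ℝ →ₗ[ℚ] ℚ) (u : V true d0 w0)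
    (c : Fin δ × V false d1 w1) (P : ℚ[X]) :
    lY (φ c.1) u.1 c.2.1 (th P + (1 - 2 * X) * P)
      + ((∑ u', smV true d0 w0 false u u' • lY (φ c.1) u'.1 c.2.1) ((1 - X) * P)
        + (∑ u', smV true d0 w0 true u u' • lY (φ c.1) u'.1 c.2.1) (X * P))
      + ((∑ c', bmV δ false d1 w1 false c' c • lY (φ c'.1) u.1 c'.2.1) ((1 - X) * P)
        + (∑ c', bmV δ false d1 w1 true c' c • lY (φ c'.1) u.1 c'.2.1) (X * P)) = 0 := by
  have h := lY_rel (φ c.1) (w := w0 + w1) ⟨u.1, u.2.1.1, u.2.1.2.trans (by omega)⟩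
    ⟨c.2.1, c.2.2.1.1, c.2.2.1.2.trans (by omega)⟩ P
  have e0 : ((⟨u.1, u.2.1.1, u.2.1.2.trans (by omega)⟩ : W (w0 + w1)) = W.root _)
      = (u = V.root _ _ _) := by
    simp [W.root, V.root, Subtype.ext_iff]
  have e1 : ((⟨c.2.1, c.2.2.1.1, c.2.2.1.2.trans (by omega)⟩ : W (w0 + w1)) = W.root _)
      = (c.2 = V.root _ _ _) := by
    simp [W.root, V.root, Subtype.ext_iff]
  simp only [e0, e1] at h
  change lY (φ c.1) u.1 c.2.1 (th P + (1 - 2 * X) * P)
      + (if u = V.root _ _ _ then 0 else lY (φ c.1) u.par.1 c.2.1 ((if u.lt then X else 1 - X) * P))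
      - (if c.2 = V.root _ _ _ then 0 else
        lY (φ c.1) u.1 c.2.par.1 ((if c.2.lt then 1 - X else X) * P)) = 0 at h
  rw [sum_smV false u fun u' => lY (φ c.1) u'.1 c.2.1,
    sum_smV true u fun u' => lY (φ c.1) u'.1 c.2.1,
    sum_bmV false c fun c' => lY (φ c'.1) u.1 c'.2.1,
    sum_bmV true c fun c' => lY (φ c'.1) u.1 c'.2.1, ← h]
  by_cases hu : u = V.root _ _ _ <;> by_cases hv : c.2 = V.root _ _ _ <;> cases u.lt <;>
    cases c.2.lt <;> simp only [hu, hv, sub_eq_add_neg, map_add, ne_eq, not_true_eq_false, and_true, ↓ reduceIte, LinearMap.zero_apply, Bool.false_eq_true, and_self, add_zero, Bool.not_false, Bool.not_true, neg_zero, Bool.true_eq_false, not_false_eq_true, and_false, LinearMap.neg_apply, zero_add]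

theorem adm_count_zero {u : List Bool} (hu : Adm u) (h : u.count true = 0) : u = [] := by
  induction u with
  | nil => rfl
  | cons x t ih =>
    cases x
    · exact absurd (ih hu.tail (by simpa using h)) hu.ne_nil
    · simp at h

theorem word_annV {δ : ℕ} (φ : Fin δ → ℝ →ₗ[ℚ] ℚ) (d0 w0 d1 w1 : ℕ)
    (hk : 2 * (δ * Fintype.card (V false d1 w1))
      < (univ.filter fun u : V true d0 w0 => u.1.count true = d0).card) :
    ∃ C0 : ℚ, 0 ≤ C0 ∧ ∀ n : ℕ, ∃ η : V false d1 w1 → Fin δ × V false d1 w1 → ℚ,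
      (∀ v c, |η v c| ≤ C0) ∧ (∀ v μ, η v (μ, v) = φ μ 1) ∧
      (∀ v μ v', v'.1.length ≤ v.1.length → v' ≠ v → η v (μ, v') = 0) ∧
      ∀ y : (Fin δ × V false d1 w1) × Fin (n + 1) → ℚ,
        (∀ u : V true d0 w0, ∀ i ≤ n + 2 * Fintype.card ((Fin δ × V false d1 w1) ⊕ V true d0 w0),
          ∑ q : (Fin δ × V false d1 w1) × Fin (n + 1),
            φ q.1.1 (Y u.1 q.1.2.1 (i + 1) (q.2 + 1)) * y q = 0) →
        ∀ v j, ∑ c, η v c * y (c, j) = 0 := by
  classical
  let l : V true d0 w0 → Fin δ × V false d1 w1 → ℚ[X] →ₗ[ℚ] ℚ := fun u c => lY (φ c.1) u.1 c.2.1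
  set γ := gam (smV true d0 w0) (bmV δ false d1 w1) l with hγ
  set Γ : ℚ := ∑ c, ∑ u, |γ u c| with hΓ
  have hΓ0 : 0 ≤ Γ := sum_nonneg fun c _ => sum_nonneg fun u _ => abs_nonneg _
  refine ⟨(w0 + 1) * Γ, by positivity, fun n => ?_⟩
  obtain ⟨N, hN1, ⟨ξ, hξ, hξ0, hξT⟩, hN3⟩ := mom_core (smV true d0 w0) (bmV δ false d1 w1) l
    (lY_relV φ) (Sum.elim (fun c => w0 + 1 + c.2.1.length) fun u => w0 - u.1.length) (by
      rintro β (c' | u) (c | u') h
      · simp only [epsM, Matrix.fromBlocks_apply₁₁, bmV, Matrix.of_apply, ne_eq, ite_eq_right_iff,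
          not_forall] at h
        obtain ⟨h, -⟩ := h
        simp only [Sum.elim_inl, h.2, List.length_cons, add_lt_add_iff_left, lt_add_iff_pos_right, Order.lt_one_iff]
      · simp [epsM] at h
      · simp only [Sum.elim_inl, Sum.elim_inr]; omega
      · simp only [epsM, Matrix.fromBlocks_apply₂₂, Matrix.neg_apply, smV, Matrix.of_apply, ne_eq,
          neg_eq_zero, ite_eq_right_iff, not_forall] at h
        obtain ⟨h, -⟩ := h
        have h1 := u.2.1.2
        have h2 := congrArg List.length h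
        simp only [Sum.elim_inr, List.length_cons] at h2 ⊢
        omega)
    ((univ.filter fun u : V true d0 w0 => u.1.count true = d0).map ⟨Sum.inr, Sum.inr_injective⟩) (by
      rw [card_map, Fintype.card_prod, Fintype.card_fin]
      exact hk) n
  have hr : ∀ (ψ : (Fin δ × V false d1 w1) ⊕ V true d0 w0 → ℚ) β t,
      (-Matrix.vecMul ψ (epsM (smV true d0 w0) (bmV δ false d1 w1) l β)) (Sum.inr t)
        = ∑ u, ψ (Sum.inr u) * smV true d0 w0 β u t := by
    intro ψ β t
    simp only [epsM, Pi.neg_apply, Matrix.vecMul, dotProduct, Fintype.sum_sum_type, Matrix.fromBlocks_apply₁₂, Matrix.zero_apply, mul_zero, sum_const_zero, Matrix.fromBlocks_apply₂₂, Matrix.neg_apply, mul_neg, sum_neg_distrib, zero_add, neg_neg]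
  have hl : ∀ (ψ : (Fin δ × V false d1 w1) ⊕ V true d0 w0 → ℚ) β c,
      (-Matrix.vecMul ψ (epsM (smV true d0 w0) (bmV δ false d1 w1) l β)) (Sum.inl c)
        = (if c.2 ≠ V.root _ _ _ ∧ c.2.lt = !β then ψ (Sum.inl (c.1, c.2.par)) else 0)
          + ∑ u, ψ (Sum.inr u) * γ u c := by
    intro ψ β c
    have := sum_bmV β c fun c' => ψ (Sum.inl c')
    simp only [smul_eq_mul, mul_comm (bmV δ false d1 w1 β _ c)] at this
    simp only [Pi.neg_apply, Matrix.vecMul, dotProduct, epsM, Fintype.sum_sum_type,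
      Matrix.fromBlocks_apply₁₁, Matrix.fromBlocks_apply₂₁, this, Matrix.neg_apply, mul_neg,
      sum_neg_distrib, neg_add, neg_neg, ← hγ]
    split_ifs <;> simp only [neg_neg, neg_zero, zero_add]
  have hb : ∀ (ψ : (Fin δ × V false d1 w1) ⊕ V true d0 w0 → ℚ) β (B : ℚ), 0 ≤ B →
      (∀ u, |ψ (Sum.inr u)| ≤ 1) → (∀ c, |ψ (Sum.inl c)| ≤ B) → ∀ c,
      |(-Matrix.vecMul ψ (epsM (smV true d0 w0) (bmV δ false d1 w1) l β)) (Sum.inl c)|
        ≤ B + Γ := by
    intro ψ β B hB h1 h2 c
    rw [hl]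
    refine (abs_add_le _ _).trans (add_le_add ?_ ?_)
    · split_ifs
      · exact h2 _
      · simpa only [abs_zero] using hB
    · refine (abs_sum_le_sum_abs _ _).trans (le_trans (sum_le_sum fun u _ => ?_)
        (single_le_sum (f := fun c => ∑ u, |γ u c|)
          (fun c _ => sum_nonneg fun u _ => abs_nonneg _) (mem_univ c)))
      rw [abs_mul]
      exact mul_le_of_le_one_left (abs_nonneg _) (h1 u)
  have H0 : ∀ (t : List Bool) (ht : (Adm t ∧ t.length ≤ w0) ∧ t.count true ≤ d0) (B : ℚ), 0 ≤ B →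
      ∀ ψ ∈ N, (∀ u : V true d0 w0, u.1.count true ≠ t.count true → ψ (Sum.inr u) = 0) →
      (∀ u, |ψ (Sum.inr u)| ≤ 1) → ψ (Sum.inr ⟨t, ht⟩) = 1 → (∀ c, |ψ (Sum.inl c)| ≤ B) →
      ∃ ψ' ∈ N, (∀ u : V true d0 w0, u ≠ V.root _ _ _ → ψ' (Sum.inr u) = 0) ∧
        ψ' (Sum.inr (V.root _ _ _)) = 1 ∧ ∀ c, |ψ' (Sum.inl c)| ≤ B + t.length * Γ := by
    intro t
    induction t with
    | nil =>
      intro ht B _ ψ h0 h1 _ h3 h4
      refine ⟨ψ, h0, fun u hu => h1 u fun h => hu (Subtype.ext ?_), h3, by simpa only [List.length_nil, CharP.cast_eq_zero, zero_mul, add_zero, Prod.forall, Subtype.forall, forall_and_index] using h4⟩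
      exact adm_count_zero u.2.1.1 h
    | cons x t ih =>
      intro ht B hB ψ h0 h1 h2 h3 h4
      obtain ⟨ψ', h5, h6, h7, h8⟩ := ih (V.tail_mem ht) (B + Γ) (by positivity) _
        (N.neg_mem (hN1 ψ h0 x)) (by
          intro s hs
          rw [hr]
          rcases sum_childV x s (fun u => ψ (Sum.inr u)) with ⟨u', h5, h6⟩ | ⟨-, h6⟩
          · rw [h6, h1]
            rw [h5, List.count_cons, List.count_cons]
            omega
          · exact h6) (by
          intro s
          rw [hr]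
          rcases sum_childV x s (fun u => ψ (Sum.inr u)) with ⟨u', -, h6⟩ | ⟨-, h6⟩
          · rw [h6]; exact h2 _
          · rw [h6]; simp) (by
          rw [hr]
          rcases sum_childV x ⟨t, V.tail_mem ht⟩ (fun u => ψ (Sum.inr u)) with
            ⟨u', h5, h6⟩ | ⟨h5, -⟩
          · rw [h6, show u' = ⟨x :: t, ht⟩ from Subtype.ext h5, h3]
          · exact absurd rfl (h5 ⟨x :: t, ht⟩)) (hb ψ _ _ hB h2 h4)
      refine ⟨ψ', h5, h6, h7, fun c => (h8 c).trans (le_of_eq ?_)⟩
      simp only [List.length_cons]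
      push_cast; ring
  have H1 : ∃ ψ ∈ N, (∀ u : V true d0 w0, u ≠ V.root _ _ _ → ψ (Sum.inr u) = 0) ∧
      ψ (Sum.inr (V.root _ _ _)) = 1 ∧ ∀ c, |ψ (Sum.inl c)| ≤ w0 * Γ := by
    obtain ⟨u0, -, hu0⟩ := exists_max_image univ (fun u : V true d0 w0 => |ξ (Sum.inr u)|)
      ⟨V.root _ _ _, mem_univ _⟩
    have hinl : ∀ c, ξ (Sum.inl c) = 0 := fun c => hξT _ (by simp only [mem_map, mem_filter, mem_univ, true_and, Function.Embedding.coeFn_mk, reduceCtorEq, and_false, exists_false, not_false_eq_true])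
    have hne : ξ (Sum.inr u0) ≠ 0 := by
      intro h0
      apply hξ0
      funext i
      rcases i with c | u
      · exact hinl c
      · have := hu0 u (mem_univ u)
        rw [h0, abs_zero] at this
        exact abs_nonpos_iff.1 this
    have hd : u0.1.count true = d0 := by
      by_contra h
      exact hne (hξT (Sum.inr u0) (by simpa only [mem_map_mk, mem_filter, mem_univ, true_and] using h))
    obtain ⟨ψ, h1, h2, h3, h4⟩ := H0 u0.1 u0.2 0 le_rfl ((ξ (Sum.inr u0))⁻¹ • ξ) (N.smul_mem _ hξ)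
      (fun u hu => by
        rw [Pi.smul_apply, hξT (Sum.inr u) (by simpa only [mem_map_mk, mem_filter, mem_univ, true_and, hd, ne_eq] using hu), smul_zero])
      (fun u => by
        rw [Pi.smul_apply, smul_eq_mul, abs_mul, abs_inv, inv_mul_le_iff₀ (abs_pos.2 hne), mul_one]
        exact hu0 u (mem_univ u)) (by simp [hne]) (fun c => by simp [hinl])
    refine ⟨ψ, h1, h2, h3, fun c => (h4 c).trans ?_⟩
    rw [zero_add]
    gcongr
    exact_mod_cast u0.2.1.2
  have H2 : ∀ (v : List Bool) (hv : (Adm v ∧ v.length ≤ w1) ∧ v.count false ≤ d1),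
      ∃ ψ ∈ N, (∀ u, ψ (Sum.inr u) = 0) ∧
      (∀ c, |ψ (Sum.inl c)| ≤ (w0 + 1) * Γ) ∧ (∀ μ, ψ (Sum.inl (μ, ⟨v, hv⟩)) = φ μ 1) ∧
      ∀ μ (v' : V false d1 w1), v'.1.length ≤ v.length → v'.1 ≠ v → ψ (Sum.inl (μ, v')) = 0 := by
    intro v
    induction v with
    | nil =>
      intro hv
      obtain ⟨ψ, h0, h5, h3, h4⟩ := H1
      have h2 : ∀ u, |ψ (Sum.inr u)| ≤ 1 := by
        intro u
        by_cases hu : u = V.root _ _ _
        · rw [hu, h3, abs_one]
        · rw [h5 u hu, abs_zero]; exact zero_le_one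
      refine ⟨_, N.neg_mem (hN1 ψ h0 false), fun t => ?_, fun c => ?_, fun μ => ?_,
        fun μ v' h6 h7 => absurd (List.eq_nil_of_length_eq_zero (Nat.le_zero.1 h6)) h7⟩
      · rw [hr]
        rcases sum_childV false t (fun u => ψ (Sum.inr u)) with ⟨u', h6, h7⟩ | ⟨-, h7⟩
        · rw [h7, h5 _ ((V.eq_cons_iff _ _ _).1 h6).1]
        · exact h7
      · refine (hb ψ _ _ (by positivity) h2 h4 c).trans (le_of_eq ?_)
        ring
      · rw [hl, if_neg (fun h => h.1 rfl), zero_add, sum_eq_single (V.root _ _ _), h3, one_mul]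
        · have e := lY_X_pow (φ μ) [] [] 0
          rw [pow_zero, Y_nil_nil] at e
          have e1 := fun β => sum_smV β (V.root true d0 w0) fun u' => l u' (μ, V.root false d1 w1) 1
          have e2 := fun β => sum_bmV β (μ, V.root false d1 w1) fun c' => l (V.root true d0 w0) c' 1
          simp only [smul_eq_mul, ne_eq, not_true_eq_false, false_and, if_false] at e1 e2
          change γ (V.root _ _ _) (μ, V.root false d1 w1) = _
          simp only [hγ, gam, Matrix.of_apply, e1, e2, sub_self, add_zero]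
          change lY (φ μ) [] [] 1 = _
          rw [e]
          simp only [bt, zero_add, tsub_self, Nat.factorial_zero, Nat.cast_one, mul_one, Nat.reduceAdd, Nat.add_one_sub_one, Nat.factorial_one, ne_eq, one_ne_zero, not_false_eq_true, div_self, Rat.cast_one]
        · intro u _ hu
          rw [h5 u hu, zero_mul]
        · simp only [mem_univ, not_true_eq_false, mul_eq_zero, IsEmpty.forall_iff]
    | cons x t ih =>
      intro hv
      obtain ⟨ψ, h0, h1, h2, h3, h4⟩ := ih (V.tail_mem hv)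
      refine ⟨_, N.neg_mem (hN1 ψ h0 (!x)), fun t => ?_, fun c => ?_, fun μ => ?_,
        fun μ v' h6 h7 => ?_⟩
      · simp only [hr, h1, zero_mul, sum_const_zero]
      · simp only [hl, h1, zero_mul, sum_const_zero, add_zero]
        split_ifs
        · exact h2 _
        · rw [abs_zero]; positivity
      · simp only [hl, h1, zero_mul, sum_const_zero, add_zero]
        rw [if_pos ⟨by simp [V.root], by simp [V.lt]⟩]
        exact h3 μ
      · simp only [hl, h1, zero_mul, sum_const_zero, add_zero]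
        split_ifs with h8
        · have h9 := V.cons_of_ne h8.1
          refine h4 μ _ ?_ fun h => h7 ?_
          · rw [h9] at h6
            simpa only [List.length_cons, add_le_add_iff_right] using h6
          · rw [h9, h, h8.2, Bool.not_not]
        · rfl
  choose ψ h0 h1 h2 h3 h4 using H2
  refine ⟨fun v c => ψ v.1 v.2 (Sum.inl c), fun v c => h2 _ _ c, fun v μ => h3 _ _ μ,
    fun v μ v' h5 h6 => h4 _ _ μ v' h5 fun h => h6 (Subtype.ext h), fun y hy v j => ?_⟩
  have h := hN3 _ (h0 v.1 v.2) (h1 _ _)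
    (fun c => ∑ j : Fin (n + 1), C (y (c, j)) * (1 - X) ^ (j : ℕ)) (by
      intro c
      refine natDegree_sum_le_of_forall_le _ _ fun j _ => ?_
      have h1 : (1 - X : ℚ[X]).natDegree ≤ 1 := by compute_degree
      have h2 := natDegree_pow_le_of_le (j : ℕ) h1
      have h3 := natDegree_C_mul_le (y (c, j)) ((1 - X : ℚ[X]) ^ (j : ℕ))
      have := j.2
      omega) (by
      intro u i hi
      have := hy u i hi
      rw [Fintype.sum_prod_type] at this
      rw [← this]
      refine sum_congr rfl fun c _ => ?_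
      rw [mul_sum, map_sum]
      refine sum_congr rfl fun j _ => ?_
      rw [mul_left_comm, ← smul_eq_C_mul, map_smul, lY_pow, smul_eq_mul, mul_comm])
  have h5 := congrArg (fun p : ℚ[X] => (p.comp (1 - X)).coeff j) h
  simp only [zero_comp, coeff_zero, Polynomial.sum_comp, mul_comp, C_comp, pow_comp,
    sub_comp, one_comp, X_comp, sub_sub_cancel, finsetSum_coeff, coeff_C_mul, coeff_X_pow] at h5
  rw [← h5]
  refine sum_congr rfl fun c _ => ?_
  rw [sum_eq_single j]
  · simp
  · intro b _ hb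
    rw [if_neg (fun h => hb (Fin.ext h.symm)), mul_zero]
  · simp

/-- Uniform transversality of the real direction to the kernel of the stacked matrix. -/
theorem transversalV {δ : ℕ} (φ : Fin δ → ℝ →ₗ[ℚ] ℚ) (θ : Fin δ → ℝ)
    (h1 : ∑ μ, ((φ μ 1 : ℚ) : ℝ) * θ μ = 1) (d0 w0 d1 w1 : ℕ)
    (hk : 2 * (δ * Fintype.card (V false d1 w1))
      < (univ.filter fun u : V true d0 w0 => u.1.count true = d0).card) :
    ∃ κ : ℝ, 0 ≤ κ ∧ ∀ (n : ℕ) (y : V false d1 w1 × Fin (n + 1) → ℝ)
      (z : (Fin δ × V false d1 w1) × Fin (n + 1) → ℝ),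
      (∀ u : V true d0 w0, ∀ i ≤ n + 2 * Fintype.card ((Fin δ × V false d1 w1) ⊕ V true d0 w0),
        ∑ q : (Fin δ × V false d1 w1) × Fin (n + 1),
          ((φ q.1.1 (Y u.1 q.1.2.1 (i + 1) (q.2 + 1)) : ℚ) : ℝ) * z q = 0) →
      ‖y‖ ≤ κ * ‖(fun q : (Fin δ × V false d1 w1) × Fin (n + 1) =>
        θ q.1.1 * y (q.1.2, q.2)) - z‖ := by
  obtain ⟨C0, hC0, H⟩ := word_annV φ d0 w0 d1 w1 hk
  have hC : (0 : ℝ) ≤ C0 := by exact_mod_cast hC0
  have hΘ : 0 ≤ ∑ μ, |θ μ| := sum_nonneg fun μ _ => abs_nonneg _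
  refine ⟨(Fintype.card (V false d1 w1) * (C0 * ∑ μ, |θ μ|) + 1) ^ (w1 + 1)
    * (Fintype.card (Fin δ × V false d1 w1) * C0), by positivity, fun n y z hz => ?_⟩
  obtain ⟨η, h2, h3, h4, h5⟩ := H n
  have h6 : ∀ v j, ∑ c, ((η v c : ℚ) : ℝ) * z (c, j) = 0 := by
    intro v j
    refine (Module.forall_dual_apply_eq_zero_iff ℚ _).1 fun ψ => ?_
    rw [← h5 (fun q => ψ (z q)) (fun u i hi => ?_) v j, map_sum]
    · exact sum_congr rfl fun c _ => by rw [← Rat.smul_def, map_smul, smul_eq_mul]
    · have := congrArg ψ (hz u i hi)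
      rw [map_sum, map_zero] at this
      rw [← this]
      exact sum_congr rfl fun c _ => by rw [← Rat.smul_def, map_smul, smul_eq_mul]
  set e := (fun q : (Fin δ × V false d1 w1) × Fin (n + 1) => θ q.1.1 * y (q.1.2, q.2)) - z with he
  refine (pi_norm_le_iff_of_nonneg (by positivity)).2 fun ⟨v, j⟩ => ?_
  rw [mul_assoc]
  refine tri_bound (fun v : V false d1 w1 => v.1.length) w1 (fun v => v.2.1.2)
    (fun v v' => ∑ μ, ((η v (μ, v') : ℚ) : ℝ) * θ μ) _ (by positivity) (fun v v' => ?_)
    (fun v => by simp only [h3, h1]) (fun v v' h7 h8 => by simp only [h4 v _ v' h7 h8, Rat.cast_zero, zero_mul, sum_const_zero])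
    (fun v => y (v, j)) _ (by positivity) (fun v => ?_) v
  · rw [mul_sum]
    refine (abs_sum_le_sum_abs _ _).trans (sum_le_sum fun μ _ => ?_)
    rw [abs_mul]
    gcongr
    exact_mod_cast h2 v (μ, v')
  · have h7 : ∑ v', (∑ μ, ((η v (μ, v') : ℚ) : ℝ) * θ μ) * y (v', j)
        = ∑ c, ((η v c : ℚ) : ℝ) * e (c, j) := by
      simp only [he, Pi.sub_apply, mul_sub, sum_sub_distrib, h6, sub_zero, sum_mul]
      rw [Fintype.sum_prod_type_right]
      exact sum_congr rfl fun v' _ => sum_congr rfl fun μ _ => mul_assoc _ _ _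
    rw [h7, mul_assoc, ← nsmul_eq_mul]
    refine (abs_sum_le_sum_abs _ _).trans (sum_le_card_nsmul _ _ _ fun c _ => ?_)
    rw [abs_mul]
    exact mul_le_mul (by exact_mod_cast h2 v c) (norm_le_pi_norm e (c, j)) (abs_nonneg _) hC

end MZVLB

end

-- part MP_f3dc73_nt.H4.Final
section

/-!
The lower bound for the span of the multiple zeta values of given weight and bounded depth.
-/

set_option autoImplicit false

namespace MZVLB

open Finset

theorem step3V (R E d0 w0 d1 w1 δ : ℕ) (hw : w0 + w1 ≤ R) (hd : d0 + d1 ≤ E)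
    (hδ : δ = Module.finrank ℚ (Submodule.span ℚ (GD R E))) (hδ1 : 1 ≤ δ)
    (hk : 2 * (δ * Fintype.card (V false d1 w1))
      < (univ.filter fun u : V true d0 w0 => u.1.count true = d0).card) :
    ∃ C κ c0 : ℕ, ∀ t : ℕ, 4 ^ (Fintype.card (V false d1 w1) * (t + 1)) ≤
      ((δ * Fintype.card (V false d1 w1) * (4 * t + 4)) ^ 2 * (Nat.lcmUpto (8 * t + c0) ^ (R + 1)
        * (C * 2 ^ (4 * t + 3)))) ^ (2 * δ) * (Fintype.card (V false d1 w1) * (4 * t + 4)
          * (2 * (Fintype.card (V false d1 w1) * (t + 1)) + 2) ^ 2 * κ) := by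
  classical
  obtain ⟨φ, θ, M, hM, hφ, hθ⟩ := dual_dataD R E δ hδ
  obtain ⟨κ, hκ, htr⟩ := transversalV φ θ (hθ 1 (Submodule.subset_span (one_mem_GD _ _)))
    d0 w0 d1 w1 hk
  set c := Fintype.card ((Fin δ × V false d1 w1) ⊕ V true d0 w0) with hc
  set N := Fintype.card (V false d1 w1) with hN
  have hN1 : 1 ≤ N := Fintype.card_pos_iff.2 ⟨V.root false d1 w1⟩
  refine ⟨M * 4 ^ R, ⌈κ⌉₊, 6 + 2 * c + 1, fun t => ?_⟩
  set D := Nat.lcmUpto (8 * t + (6 + 2 * c + 1)) ^ (R + 1) with hD
  have hD1 : 1 ≤ D := Nat.one_le_pow _ _ (Nat.lcmUpto_pos _)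
  set T := N * (t + 1) with hT
  have ha := fun (p : V true d0 w0 × Fin (4 * t + 3 + 2 * c + 1))
      (q : (Fin δ × V false d1 w1) × Fin (4 * t + 3 + 1)) =>
    arithD R E (φ q.1.1) M (hφ _) p.1.1 q.1.2.1 p.1.2.1.1 q.1.2.2.1.1
      (by have := p.1.2.1.2; have := q.1.2.2.1.2; omega)
      (by have := p.1.2.2; have := q.1.2.2.2; omega) (8 * t + (6 + 2 * c)) p.2 q.2
      (by have := p.2.2; have := q.2.2; omega)
  choose a haz using fun p q => (ha p q).1
  have haz' : ∀ p q, ((a p q : ℤ) : ℝ)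
      = D * ((φ q.1.1 (Y p.1.1 q.1.2.1 (p.2 + 1) (q.2 + 1)) : ℚ) : ℝ) := by
    intro p q
    have := congrArg (fun x : ℚ => (x : ℝ)) (haz p q)
    simp only [Rat.cast_intCast, Rat.cast_mul, Rat.cast_pow, Rat.cast_natCast] at this
    rw [← this, hD]
    push_cast
    rfl
  let L : (V false d1 w1 × Fin (4 * t + 3 + 1) → ℝ) →ₗ[ℝ] (Fin T ⊕ Fin T → ℝ) :=
    Matrix.vecMulLinear (Matrix.of fun q => Sum.elim
      (fun l => ((cs q.1.1 q.2 l : ℚ) : ℝ)) fun m => Y [] q.1.1 (m + 1) (q.2 + 1))
  let J : (V false d1 w1 × Fin (4 * t + 3 + 1) → ℝ) →ₗ[ℝ] ((Fin δ × V false d1 w1) × Fin (4 * t + 3 + 1) → ℝ) :=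
    LinearMap.pi fun q => θ q.1.1 • LinearMap.proj (q.1.2, q.2)
  have : Nonempty (Fin δ) := ⟨⟨0, hδ1⟩⟩
  have : Nonempty (V false d1 w1) := ⟨V.root false d1 w1⟩
  have hE : (D : ℝ) ≤ D * (M * 4 ^ R * 2 ^ (4 * t + 3)) := by
    refine le_mul_of_one_le_right (by positivity) ?_
    exact_mod_cast Nat.one_le_iff_ne_zero.2 (by positivity)
  have key := det_lemma a (D * (M * 4 ^ R * 2 ^ (4 * t + 3)))
    (le_trans (by exact_mod_cast hD1) hE) (by
      intro p q
      rw [haz', abs_mul, Nat.abs_cast]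
      refine mul_le_mul_of_nonneg_left ?_ (by positivity)
      have h1 : |φ q.1.1 (Y p.1.1 q.1.2.1 (p.2 + 1) (q.2 + 1))| ≤ M * 4 ^ R * 2 ^ (4 * t + 3) := by
        refine (ha p q).2.trans ?_
        have : (q.2 : ℕ) ≤ 4 * t + 3 := by have := q.2.2; omega
        rw [mul_right_comm]
        gcongr
        norm_num
      exact_mod_cast h1) (LinearMap.ker L) J (2 * T) (by
      have h1 := LinearMap.finrank_range_add_finrank_ker L
      have h2 := Submodule.finrank_le (LinearMap.range L)
      simp only [Module.finrank_fintype_fun_eq_card, Fintype.card_sum, Fintype.card_prod,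
        Fintype.card_fin, ← hN] at h1 h2
      have h3 : N * (4 * t + 3 + 1) = 4 * T := by rw [hT]; ring
      omega) (N * (4 * t + 4) * ((2 * T + 2) ^ 2 / 4 ^ T)) κ (by positivity) hκ (by
      intro y hy p
      have h1 : ∑ q, (a p q : ℝ) * J y q
          = D * ∑ q : V false d1 w1 × Fin (4 * t + 3 + 1), y q * Y p.1.1 q.1.1 (p.2 + 1) (q.2 + 1) := by
        simp only [haz', J, LinearMap.pi_apply, LinearMap.smul_apply, LinearMap.proj_apply,
          smul_eq_mul, Fintype.sum_prod_type, mul_sum]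
        rw [sum_comm]
        refine sum_congr rfl fun v _ => ?_
        rw [sum_comm]
        refine sum_congr rfl fun j _ => ?_
        have hm := Y_memD R E p.1.1 v.1 p.1.2.1.1 v.2.1.1
          (by have := p.1.2.1.2; have := v.2.1.2; omega)
          (by have := p.1.2.2; have := v.2.2; omega) p.2 j
        rw [← hθ _ hm]
        conv_lhs => enter [2, μ, 1, 2]; rw [hθ _ hm]
        rw [mul_sum, mul_sum]
        exact sum_congr rfl fun μ _ => by ring
      have h2 := Y_small_real p.1.1 p.2 (fun q : V false d1 w1 × Fin (4 * t + 3 + 1) => q.1.1)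
        (fun q => q.2) y ‖y‖ (fun q => norm_le_pi_norm y q) T
        (fun l hl => by simpa only [L, LinearMap.flip_apply, Matrix.vecMulBilin_apply, Matrix.vecMul, dotProduct, Matrix.of_apply, Sum.elim_inl, Pi.zero_apply] using congrFun hy (Sum.inl ⟨l, hl⟩))
        (fun l hl => by simpa only [L, LinearMap.flip_apply, Matrix.vecMulBilin_apply, Matrix.vecMul, dotProduct, Matrix.of_apply, Sum.elim_inr, Pi.zero_apply] using congrFun hy (Sum.inr ⟨l, hl⟩))
      rw [h1, abs_mul, Nat.abs_cast]
      simp only [Fintype.card_prod, Fintype.card_fin, ← hN] at h2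
      refine (mul_le_mul hE h2 (abs_nonneg _) (by positivity)).trans (le_of_eq ?_)
      push_cast
      ring) (by
      intro y _ z hz
      refine htr (4 * t + 3) y z fun u i hi => ?_
      have h1 := hz (u, ⟨i, by omega⟩)
      simp only [haz', mul_assoc, ← mul_sum] at h1
      exact (mul_eq_zero.1 h1).resolve_left (by positivity))
  have hcard : Fintype.card ((Fin δ × V false d1 w1) × Fin (4 * t + 3 + 1)) = 2 * δ * (2 * T) := by
    simp only [Fintype.card_prod, Fintype.card_fin, ← hN, hT]; ring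
  rw [hcard, pow_mul, ← mul_pow, one_le_pow_iff_of_nonneg (by positivity) (by positivity)] at key
  have h4 : (0 : ℝ) < 4 ^ T := by positivity
  have h5 : (4 : ℝ) ^ T ≤ (((2 * δ * (2 * T) : ℕ) : ℝ) ^ 2
      * (D * (M * 4 ^ R * 2 ^ (4 * t + 3)))) ^ (2 * δ)
      * (N * (4 * t + 4) * (2 * T + 2) ^ 2 * ⌈κ⌉₊) := by
    rw [← one_le_div h4]
    refine key.trans ?_
    rw [mul_div_assoc]
    refine mul_le_mul_of_nonneg_left ?_ (by positivity)
    calc _ ≤ (N : ℝ) * (4 * t + 4) * ((2 * T + 2) ^ 2 / 4 ^ T) * ⌈κ⌉₊ := by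
          gcongr
          exact Nat.le_ceil κ
      _ = _ := by ring
  rw [show δ * N * (4 * t + 4) = 2 * δ * (2 * T) by rw [hT]; ring]
  exact_mod_cast h5

theorem dichotomyV (R E d0 w0 d1 w1 δ : ℕ) (hw : w0 + w1 ≤ R) (hd : d0 + d1 ≤ E)
    (hδ : δ = Module.finrank ℚ (Submodule.span ℚ (GD R E))) (hδ1 : 1 ≤ δ)
    (hk : 2 * (δ * Fintype.card (V false d1 w1))
      < (univ.filter fun u : V true d0 w0 => u.1.count true = d0).card) :
    Fintype.card (V false d1 w1) ≤ δ * (17 * R + 21) := by
  by_contra hcon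
  push Not at hcon
  obtain ⟨C, κ, c0, H⟩ := step3V R E d0 w0 d1 w1 δ hw hd hδ hδ1 hk
  generalize Fintype.card (V false d1 w1) = N at hcon H
  have hall := (((((Bd.const (δ * N)).mul (Bd.lin 4 4)).pow 2).mul (((bd_lcm c0).pow (R + 1)).mul
    ((Bd.const C).mul (Bd.exp 4 3)))).pow (2 * δ)).mul ((((Bd.const N).mul (Bd.lin 4 4)).mul
      ((Bd.lin (2 * N) (2 * N + 2)).pow 2)).mul (Bd.const κ))
  refine not_bd hall fun t _ => le_trans ?_ ((H t).trans (le_of_eq ?_))
  · rw [show (4 : ℕ) = 2 ^ 2 by norm_num, ← pow_mul]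
    refine Nat.pow_le_pow_right (by norm_num) ?_
    linarith only [Nat.mul_le_mul_right t (Nat.succ_le_of_lt hcon)]
  · congr 4
    ring

theorem top_words (w : ℕ) : ∀ d : ℕ, ∃ s : Finset (List Bool), s.card = w.choose d ∧
    ∀ u ∈ s, Adm u ∧ u.length ≤ w ∧ u.count true = d := by
  induction w with
  | zero =>
    intro d
    cases d with
    | zero => exact ⟨{[]}, by simp, by simp [adm_nil]⟩
    | succ d => exact ⟨∅, by simp, by simp⟩
  | succ w ih =>
    intro d
    cases d with
    | zero => exact ⟨{[]}, by simp, by simp only [mem_singleton, forall_eq, adm_nil, List.length_nil, le_add_iff_nonneg_left, zero_le, List.nodup_nil, List.count_nil, and_self]⟩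
    | succ d =>
      obtain ⟨s1, h1, h2⟩ := ih d
      obtain ⟨s2, h3, h4⟩ := ih (d + 1)
      refine ⟨s1.image (List.cons true) ∪ s2.image (List.cons false), ?_, ?_⟩
      · rw [card_union_of_disjoint, card_image_of_injective _ List.cons_injective,
          card_image_of_injective _ List.cons_injective, h1, h3, Nat.choose_succ_succ]
        rw [disjoint_left]
        intro u hu hu'
        obtain ⟨a, -, rfl⟩ := mem_image.1 hu
        obtain ⟨b, -, hb⟩ := mem_image.1 hu'
        simp at hb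
      · intro u hu
        rcases mem_union.1 hu with hu | hu
        · obtain ⟨a, ha, rfl⟩ := mem_image.1 hu
          obtain ⟨h5, h6, h7⟩ := h2 a ha
          exact ⟨h5.cons_true, by simpa using h6, by simpa using h7⟩
        · obtain ⟨a, ha, rfl⟩ := mem_image.1 hu
          obtain ⟨h5, h6, h7⟩ := h4 a ha
          refine ⟨h5.cons ?_ _, by simpa using h6, by simpa using h7⟩
          rintro rfl
          simp at h7

theorem bot_words (w : ℕ) : ∀ e : ℕ, ∃ s : Finset (List Bool), s.card = w.choose e ∧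
    ∀ u ∈ s, Adm u ∧ u.length ≤ w ∧ (u = [] ∧ e = 0 ∨ u ≠ [] ∧ u.count false + 1 = e) := by
  induction w with
  | zero =>
    intro d
    cases d with
    | zero => exact ⟨{[]}, by simp, by simp [adm_nil]⟩
    | succ d => exact ⟨∅, by simp, by simp⟩
  | succ w ih =>
    intro d
    cases d with
    | zero => exact ⟨{[]}, by simp, by simp only [mem_singleton, and_true, ne_eq, Nat.add_eq_zero_iff, one_ne_zero, and_false, or_false, forall_eq, adm_nil, List.length_nil, le_add_iff_nonneg_left, zero_le, and_self]⟩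
    | succ d =>
      obtain ⟨s1, h1, h2⟩ := ih d
      obtain ⟨s2, h3, h4⟩ := ih (d + 1)
      refine ⟨s1.image (List.cons (decide (d = 0))) ∪ s2.image (List.cons true), ?_, ?_⟩
      · rw [card_union_of_disjoint, card_image_of_injective _ List.cons_injective,
          card_image_of_injective _ List.cons_injective, h1, h3, Nat.choose_succ_succ]
        rw [disjoint_left]
        intro u hu hu'
        obtain ⟨a, ha, rfl⟩ := mem_image.1 hu
        obtain ⟨b, hb, hb'⟩ := mem_image.1 hu'
        simp only [List.cons.injEq, true_eq_decide_iff] at hb'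
        obtain ⟨rfl, rfl⟩ := hb'
        have h5 := (h2 b ha).2.2
        have h6 := (h4 b hb).2.2
        rcases h5 with ⟨h5, -⟩ | ⟨-, h5⟩
        · rcases h6 with ⟨-, h6⟩ | ⟨h6, -⟩
          · omega
          · exact h6 h5
        · omega
      · intro u hu
        rcases mem_union.1 hu with hu | hu
        · obtain ⟨a, ha, rfl⟩ := mem_image.1 hu
          obtain ⟨h5, h6, h7⟩ := h2 a ha
          rcases h7 with ⟨rfl, rfl⟩ | ⟨h7, rfl⟩
          · simp [Adm]
          · exact ⟨h5.cons h7 _, by simpa using h6, Or.inr ⟨by simp, by simp⟩⟩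
        · obtain ⟨a, ha, rfl⟩ := mem_image.1 hu
          obtain ⟨h5, h6, h7⟩ := h4 a ha
          refine ⟨h5.cons_true, by simpa using h6, Or.inr ⟨by simp, ?_⟩⟩
          rcases h7 with ⟨-, h7⟩ | ⟨-, h7⟩
          · omega
          · simpa using h7

theorem card_topV (d w : ℕ) :
    w.choose d ≤ (univ.filter fun u : V true d w => u.1.count true = d).card := by
  classical
  obtain ⟨s, h1, h2⟩ := top_words w d
  rw [← h1, ← card_image_of_injective _ (Subtype.val_injective (p := fun u : List Bool =>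
    (Adm u ∧ u.length ≤ w) ∧ u.count true ≤ d))]
  refine card_le_card fun u hu => ?_
  obtain ⟨h3, h4, h5⟩ := h2 u hu
  exact mem_image.2 ⟨⟨u, ⟨h3, h4⟩, h5.le⟩, by simpa only [mem_filter, mem_univ, true_and] using h5, rfl⟩

theorem card_bot (d w e : ℕ) (he : e ≤ d + 1) : w.choose e ≤ Fintype.card (V false d w) := by
  classical
  obtain ⟨s, h1, h2⟩ := bot_words w e
  rw [← h1, ← card_univ, ← card_image_of_injective _ (Subtype.val_injective
    (p := fun u : List Bool => (Adm u ∧ u.length ≤ w) ∧ u.count false ≤ d))]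
  refine card_le_card fun u hu => ?_
  obtain ⟨h3, h4, h5⟩ := h2 u hu
  refine mem_image.2 ⟨⟨u, ⟨h3, h4⟩, ?_⟩, mem_univ _, rfl⟩
  rcases h5 with ⟨rfl, -⟩ | ⟨-, h5⟩
  · simp
  · omega

theorem card_V_zero (b : Bool) (d : ℕ) : Fintype.card (V b d 0) ≤ 1 := by
  refine Fintype.card_le_one_iff.2 fun u v => Subtype.ext ?_
  rw [List.eq_nil_of_length_eq_zero (Nat.le_zero.1 u.2.1.2),
    List.eq_nil_of_length_eq_zero (Nat.le_zero.1 v.2.1.2)]

theorem card_V_succ (b : Bool) (d w : ℕ) :
    Fintype.card (V b d (w + 1)) ≤ 2 * Fintype.card (V b d w) := by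
  let F : V b d (w + 1) → Bool × V b d w := fun u => (u.lt, ⟨u.par.1, ⟨u.par.2.1.1, by
    have := u.2.1.2
    simp only [V.par, List.length_tail]; omega⟩, u.par.2.2⟩)
  have hF : Function.Injective F := by
    rintro ⟨u, hu⟩ ⟨v, hv⟩ h
    simp only [F, Prod.mk.injEq, Subtype.mk.injEq, V.lt, V.par] at h
    refine Subtype.ext ?_
    cases u with
    | nil =>
      cases v with
      | nil => rfl
      | cons y s =>
        simp only [List.headD_nil, List.headD_cons, List.tail_nil, List.tail_cons] at h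
        obtain ⟨rfl, rfl⟩ := h
        exact absurd rfl hv.1.1.ne_nil
    | cons x t =>
      cases v with
      | nil =>
        simp only [List.headD_nil, List.headD_cons, List.tail_nil, List.tail_cons] at h
        obtain ⟨rfl, rfl⟩ := h
        exact absurd rfl hu.1.1.ne_nil
      | cons y s =>
        simp only [List.headD_cons, List.tail_cons] at h
        obtain ⟨rfl, rfl⟩ := h
        rfl
  have := Fintype.card_le_of_injective F hF
  rwa [Fintype.card_prod, Fintype.card_bool] at this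

theorem delta_alt (R E a b p q δ : ℕ) (hw : a + b ≤ R) (hd : p + q ≤ E)
    (hδ : δ = Module.finrank ℚ (Submodule.span ℚ (GD R E))) :
    1 ≤ δ ∧ (a.choose p ≤ 4 * δ ^ 2 * (17 * R + 21) ∨
      Fintype.card (V false q b) ≤ δ * (17 * R + 21)) := by
  classical
  have h3 : 1 ≤ δ := by
    have : Module.Finite ℚ (Submodule.span ℚ (GD R E)) :=
      Module.Finite.span_of_finite ℚ (GD_finite _ _)
    rw [hδ, Nat.one_le_iff_ne_zero, Ne, Submodule.finrank_eq_zero, Submodule.span_eq_bot]
    intro h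
    exact one_ne_zero (h 1 (one_mem_GD _ _))
  refine ⟨h3, ?_⟩
  obtain ⟨A, hA⟩ : ∃ A, A = δ * (17 * R + 21) := ⟨_, rfl⟩
  have hA1 : 1 ≤ A := by rw [hA]; exact Nat.one_le_iff_ne_zero.2 (by positivity)
  rw [← hA, or_iff_not_imp_right]
  intro hb
  have hex : ∃ w, A < Fintype.card (V false q w) := ⟨b, not_le.1 hb⟩
  have h4 := Nat.find_spec hex
  have h5 : Nat.find hex ≤ b := Nat.find_min' hex (not_le.1 hb)
  have h6 : Fintype.card (V false q (Nat.find hex)) ≤ 2 * A := by
    rcases h7 : Nat.find hex with _ | w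
    · exact (card_V_zero _ _).trans (by omega)
    · have h8 := Nat.find_min hex (m := w) (by omega)
      exact (card_V_succ _ _ _).trans (by omega)
  generalize Nat.find hex = w at h4 h5 h6
  by_contra h7
  have h8 := dichotomyV R E p a q w δ (by omega) hd hδ h3 (lt_of_lt_of_le (by
    calc 2 * (δ * Fintype.card (V false q w)) ≤ 2 * (δ * (2 * A)) := by gcongr
      _ = 4 * δ ^ 2 * (17 * R + 21) := by rw [hA]; ring
      _ < a.choose p := not_le.1 h7) (card_topV p a))
  omega

theorem depth_nat (k d n i j : ℕ) (hn : 3 * n + 2 ≤ k) (hij : i ≤ j) (hj : 1 ≤ j)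
    (hd : i + 2 * j ≤ d + 1) :
    n.choose i * n.choose j ≤ ((k - 1) * (17 * k - 13) * Module.finrank ℚ (ZD k d)) ^ 2 := by
  obtain ⟨R, rfl⟩ : ∃ R, k = R + 2 := ⟨k - 2, by omega⟩
  obtain ⟨E, rfl⟩ : ∃ E, d = E + 1 := ⟨d - 1, by omega⟩
  obtain ⟨q, rfl⟩ : ∃ q, j = q + 1 := ⟨j - 1, by omega⟩
  have h2 := finrank_GD_le R (R + 2) E le_rfl
  obtain ⟨δ, hδ⟩ : ∃ δ, δ = Module.finrank ℚ (Submodule.span ℚ (GD R E)) := ⟨_, rfl⟩
  obtain ⟨h3, h4⟩ := delta_alt R E (n + n) n (i + q) q δ (by omega) (by omega) hδ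
  rw [← hδ] at h2
  rw [show R + 2 - 1 = R + 1 by omega, show 17 * (R + 2) - 13 = 17 * R + 21 by omega]
  have h5 : n.choose i * n.choose (q + 1) ≤ (δ * (17 * R + 21)) ^ 2 := by
    rcases h4 with h4 | h4
    · have h6 : n.choose i * n.choose (q + 1) ≤ (n + n).choose (i + q + 1) := by
        rw [Nat.add_choose_eq]
        exact single_le_sum (f := fun ij : ℕ × ℕ => n.choose ij.1 * n.choose ij.2)
          (a := (i, q + 1)) (fun _ _ => Nat.zero_le _) (by simp [add_assoc])
      have h7 : (n + n).choose (i + q + 1) ≤ (n + n).choose (i + q) * (n + n) := by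
        refine le_trans (Nat.le_mul_of_pos_right _ (Nat.succ_pos (i + q))) ?_
        rw [Nat.choose_succ_right_eq]
        exact Nat.mul_le_mul_left _ (Nat.sub_le _ _)
      calc _ ≤ (n + n).choose (i + q) * (n + n) := h6.trans h7
        _ ≤ 4 * δ ^ 2 * (17 * R + 21) * (n + n) := by gcongr
        _ = δ ^ 2 * (17 * R + 21) * (8 * n) := by ring
        _ ≤ δ ^ 2 * (17 * R + 21) * (17 * R + 21) := by gcongr; omega
        _ = _ := by ring
    · rw [sq]
      exact Nat.mul_le_mul ((card_bot q n i (by omega)).trans h4)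
        ((card_bot q n (q + 1) le_rfl).trans h4)
  refine h5.trans (Nat.pow_le_pow_left ?_ 2)
  calc δ * (17 * R + 21) ≤ (R + 1) * Module.finrank ℚ (ZD (R + 2) (E + 1)) * (17 * R + 21) := by
        gcongr
    _ = _ := by ring

end MZVLB

end
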