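import Mathlib

-- part MP_f3dc73_nt.RankA
section

set_option autoImplicit false

namespace MZVLB

open Finset Polynomial

/-- The derivation x(1-x) d/dx. -/
noncomputable def th (f : ℚ[X]) : ℚ[X] := X * (1 - X) * derivative f

theorem th_add (f g : ℚ[X]) : th (f + g) = th f + th g := by
  simp only [th, derivative_add]; ring

theorem th_sub (f g : ℚ[X]) : th (f - g) = th f - th g := by
  simp only [th, derivative_sub]; ring

theorem th_mul (f g : ℚ[X]) : th (f * g) = th f * g + f * th g := by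
  simp only [th, derivative_mul]; ring

theorem th_C (a : ℚ) : th (C a) = 0 := by simp [th]

theorem th_zero : th 0 = 0 := by simp [th]

theorem th_X : th X = X * (1 - X) := by simp [th]

theorem th_sum {ι : Type} (s : Finset ι) (f : ι → ℚ[X]) : th (∑ i ∈ s, f i) = ∑ i ∈ s, th (f i) := by
  simp only [th, derivative_sum, mul_sum]

theorem natDegree_th_le (f : ℚ[X]) : (th f).natDegree ≤ f.natDegree + 1 := by
  rcases Nat.eq_zero_or_pos f.natDegree with h | h
  · rw [eq_C_of_natDegree_eq_zero h, th_C]; simp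
  · have h1 : (derivative f).natDegree ≤ f.natDegree - 1 := natDegree_derivative_le f
    have h2 : (X * (1 - X) : ℚ[X]).natDegree ≤ 2 := by compute_degree
    have h3 := natDegree_mul_le (p := (X * (1 - X) : ℚ[X])) (q := derivative f)
    unfold th
    omega

theorem coeff_X_mul_derivative (f : ℚ[X]) (d : ℕ) : (X * derivative f).coeff d = d * f.coeff d := by
  cases d with
  | zero => simp
  | succ d => rw [coeff_X_mul, coeff_derivative]; push_cast; ring

theorem natDegree_X_mul_derivative_le (f : ℚ[X]) : (X * derivative f).natDegree ≤ f.natDegree := by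
  rw [natDegree_le_iff_coeff_eq_zero]
  intro N hN
  rw [coeff_X_mul_derivative, coeff_eq_zero_of_natDegree_lt hN, mul_zero]

theorem natDegree_eq_of_wronskian {f g : ℚ[X]} (hf : f ≠ 0) (hg : g ≠ 0)
    (h : g * derivative f = f * derivative g) : f.natDegree = g.natDegree := by
  have h1 : g * (X * derivative f) = (X * derivative g) * f := by linear_combination X * h
  have h2 : coeff (g * (X * derivative f)) (g.natDegree + f.natDegree)
      = coeff ((X * derivative g) * f) (g.natDegree + f.natDegree) := by rw [h1]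
  rw [coeff_mul_add_eq_of_natDegree_le le_rfl (natDegree_X_mul_derivative_le f),
    coeff_mul_add_eq_of_natDegree_le (natDegree_X_mul_derivative_le g) le_rfl,
    coeff_X_mul_derivative, coeff_X_mul_derivative] at h2
  have hf' : f.coeff f.natDegree ≠ 0 := mt leadingCoeff_eq_zero.1 hf
  have hg' : g.coeff g.natDegree ≠ 0 := mt leadingCoeff_eq_zero.1 hg
  have h3 : ((f.natDegree : ℚ) - g.natDegree) * (f.coeff f.natDegree * g.coeff g.natDegree) = 0 := by
    linear_combination h2
  have h4 := (mul_eq_zero.1 h3).resolve_right (mul_ne_zero hf' hg')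
  exact_mod_cast sub_eq_zero.1 h4

theorem eq_C_mul_of_wronskian {f g : ℚ[X]} (hg : g ≠ 0)
    (h : g * derivative f = f * derivative g) : ∃ a : ℚ, f = C a * g := by
  have hg' : g.coeff g.natDegree ≠ 0 := mt leadingCoeff_eq_zero.1 hg
  refine ⟨f.coeff g.natDegree / g.coeff g.natDegree, ?_⟩
  by_contra hne
  have hne' : f - C (f.coeff g.natDegree / g.coeff g.natDegree) * g ≠ 0 := sub_ne_zero.2 hne
  have h1 := natDegree_eq_of_wronskian hne' hg (by
    simp only [derivative_sub, derivative_mul, derivative_C, zero_mul, zero_add]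
    linear_combination h)
  apply mt leadingCoeff_eq_zero.1 hne'
  rw [leadingCoeff, h1, coeff_sub, coeff_C_mul]
  field_simp
  ring

theorem X_sub_C_mul_derivative_pow (a : ℚ) (s : ℕ) (f : ℚ[X]) :
    (X - C a) * derivative ((X - C a) ^ s * f)
      = (X - C a) ^ s * (C (s : ℚ) * f + (X - C a) * derivative f) := by
  cases s with
  | zero => simp
  | succ s =>
    rw [derivative_mul, derivative_X_sub_C_pow]
    simp only [Nat.add_sub_cancel, map_natCast, map_add, map_one, Nat.cast_add, Nat.cast_one]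
    ring

/-- A logarithm is not a rational function. -/
theorem residue_zero {u f g h : ℚ[X]} {a : ℚ} (hu : eval a u ≠ 0) (hg : g ≠ 0)
    (H : u * (X - C a) * (g * derivative f - f * derivative g) = g ^ 2 * h) : eval a h = 0 := by
  by_cases hf : f = 0
  · subst hf
    have : g ^ 2 * h = 0 := by rw [← H]; simp
    rw [(mul_eq_zero.1 this).resolve_left (pow_ne_zero 2 hg)]; simp
  obtain ⟨g1, hg1, hg2⟩ := exists_eq_pow_rootMultiplicity_mul_and_not_dvd g hg a
  obtain ⟨f1, hf1, hf2⟩ := exists_eq_pow_rootMultiplicity_mul_and_not_dvd f hf a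
  rw [dvd_iff_isRoot, IsRoot.def] at hg2 hf2
  generalize rootMultiplicity a g = r at hg1
  generalize rootMultiplicity a f = s at hf1
  have hX : (X - C a : ℚ[X]) ≠ 0 := X_sub_C_ne_zero a
  set W : ℚ[X] := (C (s : ℚ) - C (r : ℚ)) * f1 * g1
    + (X - C a) * (g1 * derivative f1 - f1 * derivative g1) with hW
  have key : u * ((X - C a) ^ r * (X - C a) ^ s) * W = (X - C a) ^ r * (X - C a) ^ r * (g1 ^ 2 * h) := by
    have e1 := X_sub_C_mul_derivative_pow a s f1
    have e2 := X_sub_C_mul_derivative_pow a r g1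
    rw [← hf1] at e1
    rw [← hg1] at e2
    have e3 : u * (g * ((X - C a) * derivative f) - f * ((X - C a) * derivative g)) = g ^ 2 * h := by
      linear_combination H
    rw [e1, e2] at e3
    rw [hf1, hg1] at e3
    rw [hW]
    linear_combination e3
  have hWa : eval a W = ((s : ℚ) - r) * eval a f1 * eval a g1 := by simp [hW]
  rcases lt_or_ge s r with hsr | hsr
  · obtain ⟨d, rfl⟩ := Nat.exists_eq_add_of_lt hsr
    exfalso
    have k2 : u * W = (X - C a) ^ (d + 1) * (g1 ^ 2 * h) := by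
      apply mul_left_cancel₀ (mul_ne_zero (pow_ne_zero (s + d + 1) hX) (pow_ne_zero s hX))
      linear_combination key
    have k3 := congrArg (eval a) k2
    simp only [eval_mul, hWa, eval_pow, eval_sub, eval_X, eval_C, sub_self] at k3
    rw [zero_pow (Nat.succ_ne_zero d), zero_mul] at k3
    have : ((s : ℚ) - ((s + d + 1 : ℕ) : ℚ)) ≠ 0 := by
      push_cast
      have : (0 : ℚ) ≤ d := Nat.cast_nonneg d
      intro h0; linarith
    exact mul_ne_zero hu (mul_ne_zero (mul_ne_zero this hf2) hg2) k3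
  · obtain ⟨d, rfl⟩ := Nat.exists_eq_add_of_le hsr
    have k2 : u * (X - C a) ^ d * W = g1 ^ 2 * h := by
      apply mul_left_cancel₀ (mul_ne_zero (pow_ne_zero r hX) (pow_ne_zero r hX))
      linear_combination key
    have k3 := congrArg (eval a) k2
    simp only [eval_mul, hWa, eval_pow, eval_sub, eval_X, eval_C, sub_self] at k3
    have k4 : eval a u * (0 : ℚ) ^ d * ((((r + d : ℕ) : ℚ) - r) * eval a f1 * eval a g1) = 0 := by
      cases d with
      | zero => simp
      | succ d => simp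
    rw [k4] at k3
    exact (mul_eq_zero.1 k3.symm).resolve_left (pow_ne_zero 2 hg2)

theorem th_residue {f g h : ℚ[X]} (hg : g ≠ 0) (H : g * th f - th g * f = g ^ 2 * h) :
    eval 0 h = 0 ∧ eval 1 h = 0 := by
  constructor
  · refine residue_zero (u := 1 - X) (f := f) (by simp) hg ?_
    rw [← H]; simp only [th, map_zero]; ring
  · refine residue_zero (u := -X) (f := f) (by simp) hg ?_
    rw [← H]; simp only [th, map_one]; ring

theorem th_wronskian {f g : ℚ[X]} (hg : g ≠ 0) (H : g * th f - th g * f = 0) :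
    ∃ a : ℚ, f = C a * g := by
  apply eq_C_mul_of_wronskian hg
  have hX : (X * (1 - X) : ℚ[X]) ≠ 0 := by
    intro h
    have := congrArg (eval 2) h
    norm_num at this
  apply mul_left_cancel₀ hX
  simp only [th] at H
  linear_combination H

section socle

variable {U : Type} [Fintype U] [DecidableEq U]

/-- The connection on the module of combinations of polylogarithms. -/
noncomputable def conn (root : U) (par : U → U) (lt : U → Bool) (al : Bool → ℚ[X])
    (q : U → ℚ[X]) : U → ℚ[X] :=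
  fun v => th (q v) + ∑ u ∈ univ.filter (fun u => u ≠ root ∧ par u = v), al (lt u) * q u

theorem conn_add (root : U) (par : U → U) (lt : U → Bool) (al : Bool → ℚ[X]) (p q : U → ℚ[X]) :
    conn root par lt al (p + q) = conn root par lt al p + conn root par lt al q := by
  funext v
  simp only [conn, Pi.add_apply, th_add, mul_add, sum_add_distrib]
  ring

theorem conn_smul (root : U) (par : U → U) (lt : U → Bool) (al : Bool → ℚ[X]) (f : ℚ[X])
    (q : U → ℚ[X]) :
    conn root par lt al (f • q) = th f • q + f • conn root par lt al q := by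
  funext v
  simp only [conn, Pi.add_apply, Pi.smul_apply, smul_eq_mul, th_mul, mul_add, mul_sum]
  rw [add_assoc]
  congr 2
  exact sum_congr rfl fun u _ => by ring

/-- Every nonzero submodule stable under the connection meets the line of the constant function. -/
theorem socle (root : U) (par : U → U) (lt : U → Bool)
    (wt : U → ℕ) (hwt : ∀ u, u ≠ root → wt u = wt (par u) + 1)
    (hinj : ∀ u u', u ≠ root → u' ≠ root → par u = par u' → lt u = lt u' → u = u')
    (hroot : wt root = 0)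
    (al : Bool → ℚ[X])
    (hal : ∀ b, ∃ a : ℚ, (a = 0 ∨ a = 1) ∧ eval a (al b) ≠ 0 ∧ eval a (al (!b)) = 0)
    (A : Submodule ℚ[X] (U → ℚ[X])) (hA : ∀ q ∈ A, conn root par lt al q ∈ A) (hne : A ≠ ⊥) :
    ∃ f : ℚ[X], f ≠ 0 ∧ Pi.single root f ∈ A := by
  classical
  have hex : ∃ r : ℕ, ∃ q ∈ A, q ≠ 0 ∧ ∀ u, r < wt u → q u = 0 := by
    obtain ⟨q, hq, hq0⟩ := (Submodule.ne_bot_iff A).1 hne
    refine ⟨univ.sup wt, q, hq, hq0, fun u hu => ?_⟩
    exact absurd (le_sup (f := wt) (mem_univ u)) (not_le.2 hu)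
  have hr := Nat.find_spec hex
  have hmin := fun r' => Nat.find_min hex (m := r')
  generalize Nat.find hex = r at hr hmin
  have hex2 : ∃ n : ℕ, ∃ q ∈ A, q ≠ 0 ∧ (∀ u, r < wt u → q u = 0) ∧
      (univ.filter (fun u => wt u = r ∧ q u ≠ 0)).card = n := by
    obtain ⟨q, hq, hq0, hq1⟩ := hr
    exact ⟨_, q, hq, hq0, hq1, rfl⟩
  obtain ⟨q, hq, hq0, hq1, hcard⟩ := Nat.find_spec hex2
  have hmin2 := fun n' => Nat.find_min hex2 (m := n')
  rw [← hcard] at hmin2
  rcases Nat.eq_zero_or_pos r with rfl | hrpos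
  · have hq2 : ∀ u, u ≠ root → q u = 0 := fun u hu => hq1 u (by rw [hwt u hu]; omega)
    refine ⟨q root, ?_, ?_⟩
    · intro h0
      apply hq0
      funext u
      by_cases hu : u = root
      · rw [hu, h0]; rfl
      · exact hq2 u hu
    · convert hq using 1
      funext u
      by_cases hu : u = root
      · subst hu; simp
      · rw [Pi.single_eq_of_ne hu, hq2 u hu]
  exfalso
  have hu0 : ∃ u0, wt u0 = r ∧ q u0 ≠ 0 := by
    by_contra hcon
    push Not at hcon
    refine hmin (r - 1) (by omega) ⟨q, hq, hq0, fun u hu => ?_⟩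
    rcases eq_or_lt_of_le (show r ≤ wt u by omega) with h | h
    · exact hcon u h.symm
    · exact hq1 u h
  obtain ⟨u0, hu0, hg⟩ := hu0
  have hu0r : u0 ≠ root := by rintro rfl; omega
  have htop : ∀ v, r ≤ wt v → conn root par lt al q v = th (q v) := by
    intro v hv
    simp only [conn]
    rw [sum_eq_zero, add_zero]
    intro u hu
    simp only [mem_filter, mem_univ, true_and] at hu
    rw [hq1 u (by rw [hwt u hu.1, hu.2]; omega), mul_zero]
  have hq' : q u0 • conn root par lt al q - th (q u0) • q ∈ A :=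
    A.sub_mem (A.smul_mem _ (hA q hq)) (A.smul_mem _ hq)
  have hz : q u0 • conn root par lt al q - th (q u0) • q = 0 := by
    by_contra hne'
    refine hmin2 _ ?_ ⟨_, hq', hne', ?_, rfl⟩
    · apply card_lt_card
      rw [ssubset_iff_of_subset]
      · refine ⟨u0, by simp [hu0, hg], ?_⟩
        simp only [mem_filter, mem_univ, true_and, Pi.sub_apply, Pi.smul_apply, smul_eq_mul,
          htop u0 hu0.ge, not_and, not_not]
        intro _; ring
      · intro u hu
        simp only [mem_filter, mem_univ, true_and, Pi.sub_apply, Pi.smul_apply,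
          smul_eq_mul] at hu ⊢
        refine ⟨hu.1, fun h0 => hu.2 ?_⟩
        rw [htop u hu.1.ge, h0, th_zero]; ring
    · intro u hu
      simp only [Pi.sub_apply, Pi.smul_apply, smul_eq_mul]
      rw [htop u hu.le, hq1 u hu, th_zero]; ring
  have hc : ∀ u, ∃ a : ℚ, wt u = r → q u = C a * q u0 := by
    intro u
    by_cases hu : wt u = r
    · have h1 := congrFun hz u
      simp only [Pi.sub_apply, Pi.smul_apply, smul_eq_mul, Pi.zero_apply] at h1
      rw [htop u hu.ge] at h1
      obtain ⟨a, ha⟩ := th_wronskian hg h1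
      exact ⟨a, fun _ => ha⟩
    · exact ⟨0, fun h => absurd h hu⟩
  choose cc hcc using hc
  have hcc0 : cc u0 ≠ 0 := by
    intro h0
    have := hcc u0 hu0
    rw [h0] at this
    simp only [map_zero, zero_mul] at this
    exact hg this
  have h1 := congrFun hz (par u0)
  simp only [Pi.sub_apply, Pi.smul_apply, smul_eq_mul, Pi.zero_apply, conn] at h1
  have h2 : ∑ u ∈ univ.filter (fun u => u ≠ root ∧ par u = par u0), al (lt u) * q u
      = q u0 * ∑ u ∈ univ.filter (fun u => u ≠ root ∧ par u = par u0), C (cc u) * al (lt u) := by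
    rw [mul_sum]
    refine sum_congr rfl fun u hu => ?_
    simp only [mem_filter, mem_univ, true_and] at hu
    have : wt u = r := by rw [hwt u hu.1, hu.2, ← hwt u0 hu0r, hu0]
    rw [hcc u this]; ring
  rw [h2] at h1
  have h3 := th_residue (f := q (par u0))
    (h := -∑ u ∈ univ.filter (fun u => u ≠ root ∧ par u = par u0), C (cc u) * al (lt u)) hg
    (by linear_combination h1)
  obtain ⟨a, ha, ha1, ha2⟩ := hal (lt u0)
  have h4 : eval a (-∑ u ∈ univ.filter (fun u => u ≠ root ∧ par u = par u0),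
      C (cc u) * al (lt u)) = 0 := by
    rcases ha with rfl | rfl
    · exact h3.1
    · exact h3.2
  rw [eval_neg, neg_eq_zero, eval_finsetSum, sum_eq_single u0] at h4
  · simp only [eval_mul, eval_C] at h4
    exact mul_ne_zero hcc0 ha1 h4
  · intro u hu hne'
    simp only [mem_filter, mem_univ, true_and] at hu
    have : lt u = !lt u0 := by
      have : lt u ≠ lt u0 := fun h => hne' (hinj u u0 hu.1 hu0r hu.2 h)
      exact Bool.eq_not_iff.2 this
    rw [eval_mul, this, ha2, mul_zero]
  · intro h; exact absurd (by simp [hu0r]) h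

end socle

end MZVLB

end

-- part MP_f3dc73_nt.RankB
section

set_option autoImplicit false

namespace MZVLB

open Finset Polynomial

theorem sat_exists {E : Type} [AddCommGroup E] [Module ℚ[X] E] (Θ : E → E)
    (hadd : ∀ x y, Θ (x + y) = Θ x + Θ y) (hsmul : ∀ f x, Θ (f • x) = th f • x + f • Θ x)
    (e : ℕ → E) (he : ∀ j, e (j + 1) = Θ (e j)) (M : ℕ)
    (hM : ¬ LinearIndependent ℚ[X] (fun j : Fin (M + 1) => e j)) :
    ∃ μ ≤ M, LinearIndependent ℚ[X] (fun j : Fin μ => e j) ∧ ∃ Sat : Submodule ℚ[X] E,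
      (∀ x, x ∈ Sat ↔ ∃ f : ℚ[X], f ≠ 0 ∧ ∃ c : Fin μ → ℚ[X], f • x = ∑ j, c j • e j) ∧
      e 0 ∈ Sat ∧ ∀ x ∈ Sat, Θ x ∈ Sat := by
  classical
  have hex : ∃ m : ℕ, ¬ LinearIndependent ℚ[X] (fun j : Fin (m + 1) => e j) := ⟨M, hM⟩
  have hspec := Nat.find_spec hex
  have hmin := fun m => Nat.find_min hex (m := m)
  have hle := Nat.find_min' hex hM
  generalize Nat.find hex = μ at hspec hmin hle
  have hli : LinearIndependent ℚ[X] (fun j : Fin μ => e j) := by
    cases μ with
    | zero => exact linearIndependent_empty_type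
    | succ m => exact not_not.1 (hmin m (Nat.lt_succ_self m))
  let Sat : Submodule ℚ[X] E :=
    { carrier := {x | ∃ f : ℚ[X], f ≠ 0 ∧ ∃ c : Fin μ → ℚ[X], f • x = ∑ j, c j • e j}
      add_mem' := by
        rintro x y ⟨f, hf, c, hc⟩ ⟨g, hg, d, hd⟩
        refine ⟨f * g, mul_ne_zero hf hg, fun j => g * c j + f * d j, ?_⟩
        rw [smul_add, mul_smul f g y, mul_comm f g, mul_smul g f x, hc, hd, smul_sum, smul_sum,
          ← sum_add_distrib]
        exact sum_congr rfl fun j _ => by rw [add_smul, mul_smul, mul_smul]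
      zero_mem' := ⟨1, one_ne_zero, 0, by simp⟩
      smul_mem' := by
        rintro a x ⟨f, hf, c, hc⟩
        refine ⟨f, hf, fun j => a * c j, ?_⟩
        rw [smul_comm, hc, smul_sum]
        exact sum_congr rfl fun j _ => by rw [mul_smul] }
  have hmem : ∀ x, x ∈ Sat ↔ ∃ f : ℚ[X], f ≠ 0 ∧ ∃ c : Fin μ → ℚ[X], f • x = ∑ j, c j • e j :=
    fun x => Iff.rfl
  have hsat : ∀ (f : ℚ[X]) x, f ≠ 0 → f • x ∈ Sat → x ∈ Sat := by
    rintro f x hf ⟨g, hg, c, hc⟩
    exact ⟨g * f, mul_ne_zero hg hf, c, by rw [mul_smul, hc]⟩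
  have hlt : ∀ j < μ, e j ∈ Sat := by
    intro j hj
    refine ⟨1, one_ne_zero, Pi.single ⟨j, hj⟩ 1, ?_⟩
    rw [sum_eq_single ⟨j, hj⟩]
    · simp
    · intro b _ hb; simp [Pi.single_eq_of_ne hb]
    · simp
  have hμ : e μ ∈ Sat := by
    obtain ⟨g, hg, i, hi⟩ := Fintype.not_linearIndependent_iff.1 hspec
    rw [Fin.sum_univ_castSucc] at hg
    simp only [Fin.val_castSucc, Fin.val_last] at hg
    by_cases h0 : g (Fin.last μ) = 0
    · exfalso
      rw [h0, zero_smul, add_zero] at hg
      have := Fintype.linearIndependent_iff.1 hli (fun j => g j.castSucc) hg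
      apply hi
      induction i using Fin.lastCases with
      | last => exact h0
      | cast j => exact this j
    · refine ⟨g (Fin.last μ), h0, fun j => - g j.castSucc, ?_⟩
      simp only [neg_smul, sum_neg_distrib]
      exact eq_neg_of_add_eq_zero_right hg
  have hle' : ∀ j ≤ μ, e j ∈ Sat := by
    intro j hj
    rcases eq_or_lt_of_le hj with rfl | h
    · exact hμ
    · exact hlt j h
  have hΘ0 : Θ 0 = 0 := by
    have := hadd 0 0
    rw [add_zero] at this
    exact left_eq_add.1 this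
  refine ⟨μ, hle, hli, Sat, hmem, hle' 0 (Nat.zero_le _), ?_⟩
  rintro x ⟨f, hf, c, hc⟩
  have h1 : ∀ s : Finset (Fin μ), Θ (∑ j ∈ s, c j • e j) ∈ Sat := by
    intro s
    induction s using Finset.induction_on with
    | empty => rw [sum_empty, hΘ0]; exact Sat.zero_mem
    | insert a s ha ih =>
      rw [sum_insert ha, hadd, hsmul, ← he]
      exact Sat.add_mem (Sat.add_mem (Sat.smul_mem _ (hlt a a.2))
        (Sat.smul_mem _ (hle' _ a.2))) ih
  have h2 := h1 univ
  rw [← hc, hsmul] at h2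
  have hx : x ∈ Sat := ⟨f, hf, c, hc⟩
  have h3 := Sat.sub_mem h2 (Sat.smul_mem (th f) hx)
  rw [add_sub_cancel_left] at h3
  exact hsat f _ hf h3

theorem exists_ann {U : Type} [Fintype U] [DecidableEq U] (A : Submodule ℚ[X] (U → ℚ[X]))
    (hsat : ∀ (f : ℚ[X]) x, f ≠ 0 → f • x ∈ A → x ∈ A) (hA : A ≠ ⊤) :
    ∃ q : U → ℚ[X], q ≠ 0 ∧ ∀ p ∈ A, ∑ u, p u * q u = 0 := by
  have : Module.IsTorsionFree ℚ[X] ((U → ℚ[X]) ⧸ A) := by
    refine Module.IsTorsionFree.of_smul_eq_zero fun r m h => ?_
    obtain ⟨x, rfl⟩ := A.mkQ_surjective m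
    rw [← map_smul, Submodule.mkQ_apply, Submodule.Quotient.mk_eq_zero] at h
    by_cases hr : r = 0
    · exact Or.inl hr
    · right
      rw [Submodule.mkQ_apply, Submodule.Quotient.mk_eq_zero]
      exact hsat r x hr h
  obtain ⟨x, hx⟩ : ∃ x, x ∉ A := by
    by_contra hcon
    push Not at hcon
    exact hA (Submodule.eq_top_iff'.2 hcon)
  have hx' : A.mkQ x ≠ 0 := by
    rwa [Ne, Submodule.mkQ_apply, Submodule.Quotient.mk_eq_zero]
  obtain ⟨φ, hφ⟩ := Module.Projective.exists_dual_ne_zero ℚ[X] hx'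
  have hexp : ∀ p : U → ℚ[X], φ (A.mkQ p) = ∑ u, p u * φ (A.mkQ (Pi.single u 1)) := by
    intro p
    conv_lhs => rw [pi_eq_sum_univ' p]
    simp only [map_sum, map_smul, smul_eq_mul]
  refine ⟨fun u => φ (A.mkQ (Pi.single u 1)), ?_, ?_⟩
  · intro h0
    apply hφ
    rw [hexp]
    refine sum_eq_zero fun u _ => ?_
    rw [show φ (A.mkQ (Pi.single u 1)) = 0 from congrFun h0 u, mul_zero]
  · intro p hp
    rw [← hexp, Submodule.mkQ_apply, (Submodule.Quotient.mk_eq_zero A).2 hp, map_zero]

theorem count {U : Type} [Fintype U] [DecidableEq U] (μ k D : ℕ) (Q P : Fin μ → U → ℚ[X])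
    (hQ : ∀ j v, (Q j v).natDegree ≤ D)
    (hrel : ∀ u, ∃ f : ℚ[X], f ≠ 0 ∧ ∃ c : Fin μ → ℚ[X],
      ∑ j, c j • Q j = 0 ∧ ∑ j, c j • P j = Pi.single u f)
    (hinj : ∀ c : Fin μ → ℚ[X], (∀ j, (c j).natDegree ≤ k) → ∑ j, c j • Q j = 0 → c = 0) :
    μ * (k + 1) + (D + k + 1) * Fintype.card U ≤ (D + k + 1) * μ := by
  classical
  choose f hf c hc1 hc2 using hrel
  have hF : ∏ u, f u ≠ 0 := prod_ne_zero_iff.2 fun u _ => hf u
  have hinf : ({x : ℚ | IsRoot (∏ u, f u) x}ᶜ).Infinite := (finite_setOfPred_isRoot hF).infinite_compl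
  obtain ⟨pts, hpts, hcard⟩ := hinf.exists_subset_card_eq (D + k + 1)
  have hfx : ∀ x ∈ pts, ∀ u, eval x (f u) ≠ 0 := by
    intro x hx u h0
    apply hpts hx
    simp only [Set.mem_ofPred_eq, IsRoot.def, eval_prod]
    exact prod_eq_zero (mem_univ u) h0
  let Qx : ℚ → (Fin μ → ℚ) →ₗ[ℚ] (U → ℚ) := fun x =>
    Matrix.vecMulLinear (Matrix.of fun j v => eval x (Q j v))
  have hQx : ∀ x y v, Qx x y v = ∑ j, y j * eval x (Q j v) := by
    intro x y v
    simp [Qx, Matrix.vecMul, dotProduct]
  have hrk : ∀ x ∈ pts, Module.finrank ℚ (LinearMap.range (Qx x)) + Fintype.card U ≤ μ := by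
    intro x hx
    have h1 := LinearMap.finrank_range_add_finrank_ker (Qx x)
    rw [Module.finrank_fintype_fun_eq_card, Fintype.card_fin] at h1
    let Cx : (U → ℚ) →ₗ[ℚ] (Fin μ → ℚ) :=
      Matrix.vecMulLinear (Matrix.of fun u j => eval x (c u j))
    have hCx : ∀ y j, Cx y j = ∑ u, y u * eval x (c u j) := by
      intro y j
      simp [Cx, Matrix.vecMul, dotProduct]
    have hcomb : ∀ (R : Fin μ → U → ℚ[X]) (y : U → ℚ) (v : U),
        ∑ j, Cx y j * eval x (R j v) = ∑ u, y u * eval x ((∑ j, c u j • R j) v) := by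
      intro R y v
      simp only [hCx, sum_mul, Finset.sum_apply, Pi.smul_apply, smul_eq_mul, eval_finsetSum,
        eval_mul, mul_sum]
      rw [sum_comm]
      exact sum_congr rfl fun u _ => sum_congr rfl fun j _ => by ring
    have hker : LinearMap.range Cx ≤ LinearMap.ker (Qx x) := by
      rintro _ ⟨y, rfl⟩
      rw [LinearMap.mem_ker]
      funext v
      rw [hQx, hcomb]
      simp only [hc1, Pi.zero_apply, eval_zero, mul_zero, sum_const_zero]
    have hCinj : Function.Injective Cx := by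
      rw [← LinearMap.ker_eq_bot, LinearMap.ker_eq_bot']
      intro y hy
      funext v
      have h2 := hcomb P y v
      rw [hy, sum_eq_single v] at h2
      · rw [hc2] at h2
        simp only [Pi.zero_apply, zero_mul, sum_const_zero, Pi.single_eq_same] at h2
        exact (mul_eq_zero.1 h2.symm).resolve_right (hfx x hx v)
      · intro u _ hu
        rw [hc2, Pi.single_eq_of_ne hu.symm, eval_zero, mul_zero]
      · simp
    have h3 := Submodule.finrank_mono hker
    rw [LinearMap.finrank_range_of_inj hCinj, Module.finrank_fintype_fun_eq_card] at h3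
    omega
  let ev : ℚ → (Fin μ → degreeLT ℚ (k + 1)) →ₗ[ℚ] (Fin μ → ℚ) := fun x =>
    LinearMap.pi fun j => (leval x ∘ₗ (degreeLT ℚ (k + 1)).subtype) ∘ₗ LinearMap.proj j
  have hev : ∀ x y j, ev x y j = eval x (y j : ℚ[X]) := by
    intro x y j; simp [ev]
  let Ψ : (Fin μ → degreeLT ℚ (k + 1)) →ₗ[ℚ] (∀ x : pts, LinearMap.range (Qx x)) :=
    LinearMap.pi fun x => (Qx x).rangeRestrict ∘ₗ ev x
  have hΨ : Function.Injective Ψ := by
    rw [← LinearMap.ker_eq_bot, LinearMap.ker_eq_bot']
    intro y hy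
    have hdeg : ∀ j, (y j : ℚ[X]).natDegree ≤ k := by
      intro j
      have := mem_degreeLT.1 (y j).2
      exact natDegree_le_iff_degree_le.2 (Order.le_of_lt_succ (by exact_mod_cast this))
    have h0 := hinj (fun j => (y j : ℚ[X])) hdeg ?_
    · funext j
      exact Subtype.ext (congrFun h0 j)
    funext v
    apply eq_zero_of_natDegree_lt_card_of_eval_eq_zero' _ pts
    · intro x hx
      have h1 : Qx x (ev x y) = 0 := congrArg Subtype.val (congrFun hy ⟨x, hx⟩)
      have h2 := congrFun h1 v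
      rw [hQx] at h2
      simp only [hev] at h2
      simpa [eval_finsetSum] using h2
    · rw [hcard, Nat.lt_succ_iff, Finset.sum_apply]
      refine natDegree_sum_le_of_forall_le _ _ fun j _ => ?_
      simp only [Pi.smul_apply, smul_eq_mul]
      have := natDegree_mul_le (p := (y j : ℚ[X])) (q := Q j v)
      have := hdeg j
      have := hQ j v
      omega
  have h5 := LinearMap.finrank_le_finrank_of_injective hΨ
  rw [Module.finrank_pi_fintype, Module.finrank_pi_fintype] at h5
  simp only [Module.finrank_eq_card_basis (degreeLT.basis ℚ (k + 1)), Fintype.card_fin, sum_const,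
    card_univ, smul_eq_mul] at h5
  have h6 : ∑ x : pts, (Module.finrank ℚ (LinearMap.range (Qx x)) + Fintype.card U)
      ≤ ∑ _x : pts, μ := sum_le_sum fun x _ => hrk x x.2
  rw [sum_add_distrib] at h6
  simp only [sum_const, card_univ, Fintype.card_coe, hcard, smul_eq_mul] at h6
  omega

end MZVLB

end

-- part MP_f3dc73_nt.RankC
section

set_option autoImplicit false

namespace MZVLB

open Finset Polynomial

noncomputable def al0 (b : Bool) : ℚ[X] := if b then X else 1 - X

noncomputable def al1 (b : Bool) : ℚ[X] := -(if b then 1 - X else X)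

theorem hal0 : ∀ b, ∃ a : ℚ, (a = 0 ∨ a = 1) ∧ eval a (al0 b) ≠ 0 ∧ eval a (al0 (!b)) = 0 := by
  intro b
  cases b
  · exact ⟨0, Or.inl rfl, by simp [al0], by simp [al0]⟩
  · exact ⟨1, Or.inr rfl, by simp [al0], by simp [al0]⟩

theorem hal1 : ∀ b, ∃ a : ℚ, (a = 0 ∨ a = 1) ∧ eval a (al1 b) ≠ 0 ∧ eval a (al1 (!b)) = 0 := by
  intro b
  cases b
  · exact ⟨1, Or.inr rfl, by simp [al1], by simp [al1]⟩
  · exact ⟨0, Or.inl rfl, by simp [al1], by simp [al1]⟩

theorem natDegree_al0 (b : Bool) : (al0 b).natDegree ≤ 1 := by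
  cases b
  · simp only [al0, Bool.false_eq_true, if_false]; compute_degree
  · simp [al0]

theorem natDegree_al1 (b : Bool) : (al1 b).natDegree ≤ 1 := by
  cases b
  · simp [al1]
  · simp only [al1, if_true]; compute_degree

section core

variable {U : Type} [Fintype U] [DecidableEq U]

/-- The dual connection. -/
noncomputable def dconn (root : U) (par : U → U) (lt : U → Bool) (p : U → ℚ[X]) : U → ℚ[X] :=
  fun u => th (p u) - (if u = root then 0 else al0 (lt u) * p (par u))

omit [Fintype U] in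
theorem dconn_add (root : U) (par : U → U) (lt : U → Bool) (p q : U → ℚ[X]) :
    dconn root par lt (p + q) = dconn root par lt p + dconn root par lt q := by
  funext u
  simp only [dconn, Pi.add_apply, th_add]
  split_ifs <;> ring

omit [Fintype U] in
theorem dconn_smul (root : U) (par : U → U) (lt : U → Bool) (f : ℚ[X]) (p : U → ℚ[X]) :
    dconn root par lt (f • p) = th f • p + f • dconn root par lt p := by
  funext u
  simp only [dconn, Pi.add_apply, Pi.smul_apply, smul_eq_mul, th_mul]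
  split_ifs <;> ring

theorem sum_children (root : U) (par : U → U) {M : Type} [AddCommMonoid M] (F : U → U → M) :
    ∑ v, ∑ u ∈ univ.filter (fun u => u ≠ root ∧ par u = v), F u v
      = ∑ u, if u = root then 0 else F u (par u) := by
  simp only [sum_filter]
  rw [sum_comm]
  refine sum_congr rfl fun u _ => ?_
  by_cases hu : u = root
  · simp [hu]
  · simp [hu]

theorem th_pairing (root : U) (par : U → U) (lt : U → Bool) (p q : U → ℚ[X]) :
    th (∑ u, p u * q u)
      = ∑ u, dconn root par lt p u * q u + ∑ u, p u * conn root par lt al0 q u := by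
  simp only [th_sum, th_mul, dconn, conn, mul_add, sum_add_distrib, sub_mul, sum_sub_distrib,
    mul_sum]
  rw [sum_children root par (fun u v => p v * (al0 (lt u) * q u))]
  have : ∑ u, (if u = root then 0 else al0 (lt u) * p (par u)) * q u
      = ∑ u, if u = root then 0 else p (par u) * (al0 (lt u) * q u) := by
    refine sum_congr rfl fun u _ => ?_
    split_ifs <;> ring
  rw [this]; ring

theorem natDegree_conn_le (root : U) (par : U → U) (lt : U → Bool) (q : U → ℚ[X]) (d : ℕ)
    (hq : ∀ v, (q v).natDegree ≤ d) (v : U) : (conn root par lt al1 q v).natDegree ≤ d + 1 := by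
  unfold conn
  refine (natDegree_add_le _ _).trans (max_le ?_ ?_)
  · have := natDegree_th_le (q v)
    have := hq v
    omega
  · refine natDegree_sum_le_of_forall_le _ _ fun u _ => ?_
    have := natDegree_mul_le (p := al1 (lt u)) (q := q u)
    have := natDegree_al1 (lt u)
    have := hq u
    omega

theorem conn_single_root (root : U) (par : U → U) (lt : U → Bool) (al : Bool → ℚ[X]) :
    conn root par lt al (Pi.single root 1) = 0 := by
  funext v
  simp only [conn, Pi.zero_apply]
  rw [sum_eq_zero, add_zero]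
  · by_cases hv : v = root
    · subst hv; simp [th]
    · rw [Pi.single_eq_of_ne hv, th_zero]
  · intro u hu
    simp only [mem_filter, mem_univ, true_and] at hu
    rw [Pi.single_eq_of_ne hu.1, mul_zero]

omit [Fintype U] [DecidableEq U] in
theorem C_smul_eq (a : ℚ) (q : U → ℚ[X]) : (C a : ℚ[X]) • q = a • q := by
  funext v; simp [smul_eq_C_mul]

/-- Construction of the extension class. -/
theorem exists_delta (root : U) (par : U → U) (lt : U → Bool)
    (m : (U → ℚ[X]) →ₗ[ℚ] (U → ℚ)) (S : (U → ℚ[X]) →ₗ[ℚ] (U → ℚ[X]))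
    (hS : ∀ q, S ((X : ℚ[X]) • q) = (X : ℚ[X]) • S q + fun u => C (m q u))
    (hS0 : S (Pi.single root 1) = 0)
    (hm : ∀ q u, m (conn root par lt al1 q) u = -m ((1 - 2 * X : ℚ[X]) • q) u
      - (if u = root then 0 else m (al0 (lt u) • q) (par u))) :
    ∃ Δ : (U → ℚ[X]) →ₗ[ℚ[X]] (U → ℚ[X]),
      Δ (Pi.single root 1) root = C (m (Pi.single root 1) root) ∧
      ∀ q, m q = 0 → dconn root par lt (S q) - Δ q = S (conn root par lt al1 q) := by
  let π : (U → ℚ[X]) → U → ℚ[X] := fun q u => C (m q u) -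
    (if u = root then 0 else C ((if lt u then 1 else -1) * m q (par u)))
  let Δ : (U → ℚ[X]) → U → ℚ[X] := fun q =>
    dconn root par lt (S q) - S (conn root par lt al1 q) + π q
  have hadd : ∀ p q, Δ (p + q) = Δ p + Δ q := by
    intro p q
    funext u
    simp only [Δ, π, map_add, dconn_add, conn_add, Pi.add_apply, Pi.sub_apply, mul_add]
    split_ifs <;> ring
  have hC : ∀ (a : ℚ) q, Δ ((C a : ℚ[X]) • q) = (C a : ℚ[X]) • Δ q := by
    intro a q
    have e1 : S ((C a : ℚ[X]) • q) = (C a : ℚ[X]) • S q := by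
      rw [C_smul_eq, C_smul_eq, map_smul]
    have e2 : S (conn root par lt al1 ((C a : ℚ[X]) • q))
        = (C a : ℚ[X]) • S (conn root par lt al1 q) := by
      rw [conn_smul, th_C, zero_smul, zero_add, C_smul_eq, C_smul_eq, map_smul]
    have e3 : m ((C a : ℚ[X]) • q) = a • m q := by rw [C_smul_eq, map_smul]
    funext u
    simp only [Δ, π]
    rw [e1, e2, e3, dconn_smul, th_C]
    simp only [Pi.add_apply, Pi.sub_apply, Pi.smul_apply, smul_eq_mul, map_mul]
    split_ifs <;> ring
  have hX : ∀ q, Δ ((X : ℚ[X]) • q) = (X : ℚ[X]) • Δ q := by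
    intro q
    have e1 : conn root par lt al1 ((X : ℚ[X]) • q) = (X : ℚ[X]) • q - (X : ℚ[X]) • (X : ℚ[X]) • q
        + (X : ℚ[X]) • conn root par lt al1 q := by
      rw [conn_smul, th_X]
      funext v
      simp only [Pi.add_apply, Pi.sub_apply, Pi.smul_apply, smul_eq_mul]
      ring
    have e2 : (1 - 2 * X : ℚ[X]) • q = q - (X : ℚ[X]) • q - (X : ℚ[X]) • q := by
      funext v
      simp only [Pi.sub_apply, Pi.smul_apply, smul_eq_mul]
      ring
    have e3 : (1 - X : ℚ[X]) • q = q - (X : ℚ[X]) • q := by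
      funext v
      simp only [Pi.sub_apply, Pi.smul_apply, smul_eq_mul]
      ring
    funext u
    have e4 := hm q u
    rw [e2] at e4
    simp only [Δ, π]
    rw [e1, map_add, map_sub, hS, hS, hS, hS]
    simp only [Pi.add_apply, Pi.sub_apply, Pi.smul_apply, smul_eq_mul, dconn, th_add, th_mul,
      th_C, th_X]
    rw [e4]
    by_cases hu : u = root
    · simp only [hu, if_true, map_sub, map_neg, Pi.sub_apply, map_zero]
      ring
    · simp only [hu, if_false]
      cases hb : lt u
      · simp only [al0, Bool.false_eq_true, if_false, e3, map_sub, map_neg, Pi.sub_apply, map_mul,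
          map_one]
        ring
      · simp only [al0, if_true, map_sub, map_neg, Pi.sub_apply, map_mul, map_one]
        ring
  have hsm : ∀ (f : ℚ[X]) q, Δ (f • q) = f • Δ q := by
    intro f
    induction f using Polynomial.induction_on with
    | C a => exact hC a
    | add f g hf hg => intro q; rw [add_smul, hadd, hf, hg, add_smul]
    | monomial n a ih =>
      intro q
      rw [pow_succ, ← mul_assoc, mul_smul, ih, hX, ← mul_smul]
  refine ⟨⟨⟨Δ, hadd⟩, hsm⟩, ?_, ?_⟩
  · change Δ (Pi.single root 1) root = _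
    simp only [Δ, π, hS0, conn_single_root, map_zero, Pi.add_apply, Pi.sub_apply, dconn,
      Pi.zero_apply, th_zero, if_true]
    ring
  · intro q hq
    change _ - Δ q = _
    funext u
    simp only [Δ, π, hq, Pi.add_apply, Pi.sub_apply, Pi.zero_apply, map_zero, mul_zero]
    split_ifs <;> ring

theorem rank_core (root : U) (par : U → U) (lt : U → Bool)
    (wt : U → ℕ) (hwt : ∀ u, u ≠ root → wt u = wt (par u) + 1) (hroot : wt root = 0)
    (hinj : ∀ u u', u ≠ root → u' ≠ root → par u = par u' → lt u = lt u' → u = u')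
    (m : (U → ℚ[X]) →ₗ[ℚ] (U → ℚ)) (S : (U → ℚ[X]) →ₗ[ℚ] (U → ℚ[X]))
    (hS : ∀ q, S ((X : ℚ[X]) • q) = (X : ℚ[X]) • S q + fun u => C (m q u))
    (hS0 : S (Pi.single root 1) = 0)
    (hm : ∀ q u, m (conn root par lt al1 q) u = -m ((1 - 2 * X : ℚ[X]) • q) u
      - (if u = root then 0 else m (al0 (lt u) • q) (par u)))
    (h1 : m (Pi.single root 1) root ≠ 0)
    (n0 n1 : ℕ) (hn : n1 + 4 * Fintype.card U ≤ n0) (q : U → ℚ[X])
    (hq : ∀ v, (q v).natDegree ≤ n1)
    (hz : ∀ f : ℚ[X], f.natDegree ≤ n0 → m (f • q) = 0) : q = 0 := by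
  by_contra hq0
  obtain ⟨Δ, hΔ1, hΔ⟩ := exists_delta root par lt m S hS hS0 hm
  let θ := conn root par lt al1
  let Θ : (U → ℚ[X]) × (U → ℚ[X]) → (U → ℚ[X]) × (U → ℚ[X]) :=
    fun x => (dconn root par lt x.1 - Δ x.2, θ x.2)
  have hadd : ∀ x y, Θ (x + y) = Θ x + Θ y := by
    intro x y
    simp only [Θ, θ, Prod.fst_add, Prod.snd_add, dconn_add, conn_add, map_add, Prod.mk_add_mk]
    congr 1; abel
  have hsmul : ∀ (f : ℚ[X]) x, Θ (f • x) = th f • x + f • Θ x := by
    intro f x
    apply Prod.ext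
    · simp only [Θ, Prod.smul_fst, Prod.smul_snd, dconn_smul, map_smul, Prod.fst_add, smul_sub]
      abel
    · simp only [Θ, θ, Prod.smul_snd, conn_smul, Prod.snd_add]
  have hK : ∀ n (r : U → ℚ[X]), (∀ f : ℚ[X], f.natDegree ≤ n + 1 → m (f • r) = 0) →
      ∀ f : ℚ[X], f.natDegree ≤ n → m (f • θ r) = 0 := by
    intro n r hr f hf
    have e1 : f • θ r = θ (f • r) - th f • r := by
      simp only [θ]; rw [conn_smul]; abel
    rw [e1, map_sub, hr (th f) ((natDegree_th_le f).trans (by omega)), sub_zero]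
    funext u
    simp only [θ]
    rw [hm, smul_smul, smul_smul, hr, hr]
    · simp
    · have := natDegree_mul_le (p := al0 (lt u)) (q := f)
      have := natDegree_al0 (lt u)
      omega
    · have := natDegree_mul_le (p := (1 - 2 * X : ℚ[X])) (q := f)
      have : (1 - 2 * X : ℚ[X]).natDegree ≤ 1 := by compute_degree
      omega
  have hKj : ∀ j ≤ n0, ∀ f : ℚ[X], f.natDegree ≤ n0 - j → m (f • θ^[j] q) = 0 := by
    intro j
    induction j with
    | zero => intro _ f hf; exact hz f hf
    | succ j ih =>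
      intro hj
      rw [Function.iterate_succ_apply']
      apply hK
      intro f hf
      exact ih (by omega) f (by omega)
  have hSf : ∀ n (r : U → ℚ[X]), (∀ f : ℚ[X], f.natDegree ≤ n → m (f • r) = 0) →
      ∀ d ≤ n, ∀ f : ℚ[X], f.natDegree ≤ d → S (f • r) = f • S r := by
    intro n r hr d
    induction d with
    | zero =>
      intro _ f hf
      rw [eq_C_of_natDegree_le_zero hf, C_smul_eq, C_smul_eq, map_smul]
    | succ d ih =>
      intro hd f hf
      have h2 : (divX f).natDegree ≤ d := by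
        rw [natDegree_divX_eq_natDegree_tsub_one]; omega
      conv_lhs => rw [← X_mul_divX_add f]
      conv_rhs => rw [← X_mul_divX_add f]
      rw [add_smul, add_smul, map_add, mul_smul, mul_smul, hS, ih (by omega) _ h2,
        hr _ (by omega), C_smul_eq, C_smul_eq, map_smul]
      congr 1
      funext u; simp
  let e : ℕ → (U → ℚ[X]) × (U → ℚ[X]) := fun j => Θ^[j] (S q, q)
  have he : ∀ j, e (j + 1) = Θ (e j) := fun j => Function.iterate_succ_apply' _ _ _
  have hej : ∀ j ≤ n0, e j = (S (θ^[j] q), θ^[j] q) := by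
    intro j
    induction j with
    | zero => intro _; rfl
    | succ j ih =>
      intro hj
      rw [he, ih (by omega), Function.iterate_succ_apply']
      have h0 : m (θ^[j] q) = 0 := by
        have := hKj j (by omega) 1 (by simp)
        rwa [one_smul] at this
      simp only [Θ]
      rw [hΔ _ h0]
  have hdeg : ∀ j v, (θ^[j] q v).natDegree ≤ n1 + j := by
    intro j
    induction j with
    | zero => exact hq
    | succ j ih =>
      rw [Function.iterate_succ_apply']
      exact natDegree_conn_le root par lt _ _ ih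
  have hM : ¬ LinearIndependent ℚ[X] (fun j : Fin (2 * Fintype.card U + 1) => e j) := by
    intro h
    have := h.fintype_card_le_finrank
    rw [Fintype.card_fin, Module.finrank_prod, Module.finrank_fintype_fun_eq_card] at this
    omega
  obtain ⟨μ, hμ, hli, Sat, hSat, he0, hstab⟩ := sat_exists Θ hadd hsmul e he _ hM
  have hsat : ∀ (f : ℚ[X]) x, f ≠ 0 → f • x ∈ Sat → x ∈ Sat := by
    intro f x hf hx
    obtain ⟨g, hg, c, hc⟩ := (hSat _).1 hx
    exact (hSat _).2 ⟨g * f, mul_ne_zero hg hf, c, by rw [mul_smul, hc]⟩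
  obtain ⟨f, hf, hfB⟩ := socle root par lt wt hwt hinj hroot al1 hal1
    (Sat.map (LinearMap.snd ℚ[X] _ _)) (by
      rintro _ ⟨x, hx, rfl⟩
      exact ⟨Θ x, hstab x hx, rfl⟩) (by
      rw [Submodule.ne_bot_iff]
      exact ⟨q, ⟨e 0, he0, rfl⟩, hq0⟩)
  obtain ⟨⟨P, P'⟩, hP, hP'⟩ := hfB
  simp only [LinearMap.snd_apply] at hP'
  subst hP'
  have hθ0 : θ 0 = 0 := by
    have := conn_smul root par lt al1 0 0
    simpa [th_zero] using this
  have hA : Sat.comap (LinearMap.inl ℚ[X] _ _) = ⊤ := by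
    by_contra hA
    obtain ⟨q', hq', hq''⟩ := exists_ann _ (fun g x hg hx => by
      rw [Submodule.mem_comap] at hx ⊢
      rw [map_smul] at hx
      exact hsat g _ hg hx) hA
    let Ann : Submodule ℚ[X] (U → ℚ[X]) :=
      { carrier := {r | ∀ p ∈ Sat.comap (LinearMap.inl ℚ[X] _ _), ∑ u, p u * r u = 0}
        add_mem' := by
          intro a b ha hb p hp
          simp only [Pi.add_apply, mul_add, sum_add_distrib, ha p hp, hb p hp, add_zero]
        zero_mem' := by intro p _; simp
        smul_mem' := by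
          intro g a ha p hp
          have := ha p hp
          simp only [Pi.smul_apply, smul_eq_mul]
          rw [← mul_zero g, ← this, mul_sum]
          exact sum_congr rfl fun u _ => by ring }
    obtain ⟨g, hg, hgA⟩ := socle root par lt wt hwt hinj hroot al0 hal0 Ann (by
      intro r hr p hp
      have h2 := th_pairing root par lt p r
      have h3 : dconn root par lt p ∈ Sat.comap (LinearMap.inl ℚ[X] _ _) := by
        have := hstab _ hp
        simp only [Θ, LinearMap.inl_apply, map_zero, sub_zero, hθ0] at this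
        exact this
      rw [hr p hp, hr _ h3, th_zero, zero_add] at h2
      exact h2.symm) (by
      rw [Submodule.ne_bot_iff]
      exact ⟨q', hq'', hq'⟩)
    have hsing : (Pi.single root f : U → ℚ[X]) = f • (Pi.single root 1 : U → ℚ[X]) := by
      rw [← Pi.single_smul', smul_eq_mul, mul_one]
    have h4 : f • (dconn root par lt P - Δ (Pi.single root f)) - th f • P
        ∈ Sat.comap (LinearMap.inl ℚ[X] _ _) := by
      have h5 := Sat.sub_mem (Sat.smul_mem f (hstab _ hP)) (Sat.smul_mem (th f) hP)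
      rw [Submodule.mem_comap]
      convert h5 using 1
      apply Prod.ext
      · rfl
      · simp only [Θ, θ, LinearMap.inl_apply, Prod.snd_sub, Prod.smul_snd]
        rw [hsing, conn_smul, conn_single_root, smul_zero, add_zero, smul_comm, sub_self]
    have h6 := hgA _ h4
    rw [sum_eq_single root] at h6
    · rw [Pi.single_eq_same] at h6
      have h7 := (mul_eq_zero.1 h6).resolve_right hg
      rw [hsing, map_smul] at h7
      simp only [Pi.sub_apply, Pi.smul_apply, smul_eq_mul, hΔ1, dconn, if_true] at h7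
      have h8 := (th_residue (f := P root) (h := C (m (Pi.single root 1) root)) hf
        (by linear_combination h7)).1
      rw [eval_C] at h8
      exact h1 h8
    · intro u _ hu
      rw [Pi.single_eq_of_ne hu, mul_zero]
    · simp
  have hcount := count μ (n0 - μ) (n1 + μ) (fun j => (e j).2) (fun j => (e j).1) (by
      intro j v
      rw [hej j (by omega)]
      exact (hdeg j v).trans (by omega)) (by
      intro u
      have h2 : (Pi.single u 1 : U → ℚ[X]) ∈ Sat.comap (LinearMap.inl ℚ[X] _ _) := by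
        rw [hA]; trivial
      obtain ⟨g, hg, c, hc⟩ := (hSat _).1 h2
      refine ⟨g, hg, c, ?_, ?_⟩
      · have := congrArg Prod.snd hc
        simp only [LinearMap.inl_apply, Prod.smul_snd, smul_zero, Prod.snd_sum] at this
        exact this.symm
      · have := congrArg Prod.fst hc
        simp only [LinearMap.inl_apply, Prod.smul_fst, Prod.fst_sum] at this
        rw [← this, ← Pi.single_smul', smul_eq_mul, mul_one]) (by
      intro c hc h0
      funext j
      refine Fintype.linearIndependent_iff.1 hli c ?_ j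
      apply Prod.ext
      · simp only [Prod.fst_sum, Prod.smul_fst, Prod.fst_zero]
        have h3 := congrArg S h0
        rw [map_sum, map_zero] at h3
        rw [← h3]
        refine sum_congr rfl fun i _ => ?_
        have hi := i.2
        rw [hej i (by omega)]
        exact (hSf (n0 - i) _ (hKj i (by omega)) (n0 - μ) (by omega) _ (hc i)).symm
      · simp only [Prod.snd_sum, Prod.smul_snd, Prod.snd_zero]
        exact h0)
  have hN : 1 ≤ Fintype.card U := Fintype.card_pos_iff.2 ⟨root⟩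
  obtain ⟨k, rfl⟩ : ∃ k, n0 = μ + k := ⟨n0 - μ, by omega⟩
  rw [Nat.add_sub_cancel_left] at hcount
  generalize Fintype.card U = N at *
  have h9 : (n1 + μ + k + 1) * N ≤ (n1 + μ) * μ := by nlinarith
  have h10 : (n1 + μ) * μ ≤ (n1 + μ) * (2 * N) := Nat.mul_le_mul_left _ hμ
  have h11 : (n1 + μ + k + 1) * N ≤ (2 * (n1 + μ)) * N := by nlinarith
  have h12 := Nat.le_of_mul_le_mul_right h11 hN
  omega

end core

end MZVLB

end

-- part MP_f3dc73_nt.Rank
section

set_option autoImplicit false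

namespace MZVLB

open Finset Polynomial

theorem exists_sigma (L : ℚ[X] →ₗ[ℚ] ℚ) :
    ∃ σ : ℚ[X] →ₗ[ℚ] ℚ[X], σ 1 = 0 ∧ ∀ P, σ (X * P) = X * σ P + C (L P) := by
  let s : ℕ → ℚ[X] := fun k => Nat.rec 0 (fun k sk => X * sk + C (L (X ^ k))) k
  let σ : ℚ[X] →ₗ[ℚ] ℚ[X] := (basisMonomials ℚ).constr ℚ s
  have hσ : ∀ k, σ (X ^ k) = s k := by
    intro k
    have := (basisMonomials ℚ).constr_basis ℚ s k
    rw [coe_basisMonomials] at this
    rw [X_pow_eq_monomial]
    exact this
  refine ⟨σ, by rw [← pow_zero X, hσ 0]; rfl, fun P => ?_⟩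
  induction P using Polynomial.induction_on' with
  | add p q hp hq => simp only [mul_add, map_add, hp, hq]; ring
  | monomial n a =>
    have e : (monomial n a : ℚ[X]) = a • X ^ n := by
      rw [smul_eq_C_mul, C_mul_X_pow_eq_monomial]
    rw [e, mul_smul_comm, map_smul, map_smul, map_smul, ← pow_succ', hσ, hσ]
    simp only [s, smul_eq_C_mul, smul_eq_mul, map_mul]
    ring

theorem rank_lemma {U : Type} [Fintype U] [DecidableEq U] (root : U) (par : U → U) (lt : U → Bool)
    (wt : U → ℕ) (hwt : ∀ u, u ≠ root → wt u = wt (par u) + 1) (hroot : wt root = 0)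
    (hinj : ∀ u u', u ≠ root → u' ≠ root → par u = par u' → lt u = lt u' → u = u')
    (l : U → U → ℚ[X] →ₗ[ℚ] ℚ)
    (hrel : ∀ u v P, l u v (X * (1 - X) * derivative P + (1 - 2 * X) * P)
      + (if u = root then 0 else l (par u) v ((if lt u then X else 1 - X) * P))
      - (if v = root then 0 else l u (par v) ((if lt v then 1 - X else X) * P)) = 0)
    (h1 : l root root 1 ≠ 0)
    (n0 n1 : ℕ) (hn : n1 + 4 * Fintype.card U ≤ n0) (q : U → ℚ[X])
    (hq : ∀ v, (q v).natDegree ≤ n1)
    (hz : ∀ u, ∀ i ≤ n0, ∑ v, l u v (X ^ i * q v) = 0) : q = 0 := by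
  choose σ hσ1 hσ using fun u v => exists_sigma (l u v)
  let m : (U → ℚ[X]) →ₗ[ℚ] (U → ℚ) := LinearMap.pi fun u => ∑ v, l u v ∘ₗ LinearMap.proj v
  have hm : ∀ q u, m q u = ∑ v, l u v (q v) := by
    intro q u; simp [m, LinearMap.sum_apply]
  let S : (U → ℚ[X]) →ₗ[ℚ] (U → ℚ[X]) := LinearMap.pi fun u => ∑ v, σ u v ∘ₗ LinearMap.proj v
  have hS : ∀ q u, S q u = ∑ v, σ u v (q v) := by
    intro q u; simp [S, LinearMap.sum_apply]
  refine rank_core root par lt wt hwt hroot hinj m S ?_ ?_ ?_ ?_ n0 n1 hn q hq ?_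
  · intro q
    funext u
    simp only [hS, hm, Pi.add_apply, Pi.smul_apply, smul_eq_mul, hσ, sum_add_distrib, mul_sum,
      map_sum]
  · funext u
    rw [hS, sum_eq_single root]
    · simp [hσ1]
    · intro v _ hv; rw [Pi.single_eq_of_ne hv, map_zero]
    · simp
  · intro q u
    simp only [hm, conn, map_add, map_sum, sum_add_distrib, Pi.smul_apply, smul_eq_mul]
    rw [sum_children root par (fun v' v => l u v (al1 (lt v') * q v'))]
    have h2 := sum_congr (rfl : (univ : Finset U) = univ) fun v _ => hrel u v (q v)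
    simp only [map_add, sum_add_distrib, sum_sub_distrib, sum_const_zero] at h2
    have h3 : ∑ v, (if v = root then 0 else l u (par v) (al1 (lt v) * q v))
        = -∑ v, (if v = root then 0 else l u (par v) ((if lt v then 1 - X else X) * q v)) := by
      rw [← sum_neg_distrib]
      refine sum_congr rfl fun v _ => ?_
      by_cases hv : v = root
      · simp [hv]
      · simp only [hv, if_false, al1, neg_mul, map_neg]
    rw [h3]
    by_cases hu : u = root
    · simp only [hu, if_true, sum_const_zero, th] at h2 ⊢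
      linear_combination h2
    · simp only [hu, if_false, th, al0] at h2 ⊢
      linear_combination h2
  · rw [hm, sum_eq_single root]
    · simpa using h1
    · intro v _ hv; rw [Pi.single_eq_of_ne hv, map_zero]
    · simp
  · intro f hf
    rw [as_sum_range' f (n0 + 1) (by omega), sum_smul, map_sum]
    refine sum_eq_zero fun i hi => ?_
    rw [← C_mul_X_pow_eq_monomial, mul_smul, C_smul_eq, map_smul]
    have : m ((X ^ i : ℚ[X]) • q) = 0 := by
      funext u
      rw [hm]
      exact hz u i (by simpa [Nat.lt_succ_iff] using hi)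
    rw [this, smul_zero]

end MZVLB

end

-- part MP_f3dc73_nt.Defs
section

/-!
Definitions for the lower bound on the dimension of spaces of multiple zeta values.
Words are lists of booleans: false is the letter e0 (form dx/x), true is the letter e1 (form dx/(1-x)).
-/

set_option autoImplicit false

namespace MZVLB

open Finset

/-- A word is admissible if it is empty or ends with e1. -/
def Adm (u : List Bool) : Prop := u.getLast? ≠ some false

/-- Taylor coefficients at 0 of the multiple polylogarithm attached to a word. -/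
def c : List Bool → ℕ → ℚ
  | [], m => if m = 0 then 1 else 0
  | false :: u, m => c u m / m
  | true :: u, m => (∑ j ∈ range m, c u j) / m

/-- Coefficient of x^m in x^i L_u(x). -/
def cs (u : List Bool) (i m : ℕ) : ℚ := if i ≤ m then c u (m - i) else 0

/-- Beta integral of x^(M-1) (1-x)^(L-1) for M, L at least 1. -/
def bt (M L : ℕ) : ℚ :=
  ((M - 1).factorial * (L - 1).factorial : ℚ) / ((M + L - 1).factorial : ℚ)

/-- The integral over (0,1) of x^(a-1) (1-x)^(b-1) L_u(x) L_v(1-x), as a double series. -/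
noncomputable def Y (u v : List Bool) (a b : ℕ) : ℝ :=
  ∑' p : ℕ × ℕ, ((c u p.1 * c v p.2 * bt (p.1 + a) (p.2 + b) : ℚ) : ℝ)

/-- The value L_u(1). -/
noncomputable def zw (u : List Bool) : ℝ := ∑' m : ℕ, ((c u m : ℚ) : ℝ)

/-- The term of the integration by parts formula coming from the derivative of L_u. -/
noncomputable def DY : List Bool → List Bool → ℕ → ℕ → ℝ
  | [], _, _, _ => 0
  | false :: u, v, a, b => Y u v a (b + 1)
  | true :: u, v, a, b => Y u v (a + 1) b

/-- Convergent multiple zeta values of weight at most R (the empty word gives 1). -/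
def G (R : ℕ) : Set ℝ :=
  {x | ∃ u : List Bool, Adm u ∧ u.head? ≠ some true ∧ u.length ≤ R ∧ x = zw u}

/-- Multiple zeta values, as in the frozen statement. -/
noncomputable def zeta (m : ℕ) (n : Fin m → ℕ) : ℝ :=
  ∑' k : {k : Fin m → ℕ // StrictMono k ∧ ∀ i, 0 < k i}, ∏ i, (((k.1 i : ℕ) : ℝ) ^ n i)⁻¹

/-- The rational span of the multiple zeta values of weight w, as in the frozen statement. -/
noncomputable def Zs (w : ℕ) : Submodule ℚ ℝ :=
  Submodule.span ℚ {x : ℝ | ∃ m : ℕ, ∃ n : Fin m → ℕ,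
    (∀ i, 1 ≤ n i) ∧ (∀ i : Fin m, (i : ℕ) + 1 = m → 2 ≤ n i) ∧ ∑ i, n i = w ∧ x = zeta m n}

/-- A rational functional is good for (R, C) if it takes integer values of size at most C on G R. -/
def Good (R : ℕ) (φ : ℝ →ₗ[ℚ] ℚ) (C : ℚ) : Prop :=
  ∀ g ∈ G R, (∃ z : ℤ, φ g = z) ∧ |φ g| ≤ C

theorem adm_nil : Adm [] := by simp [Adm]

theorem Adm.tail {b : Bool} {u : List Bool} (h : Adm (b :: u)) : Adm u := by
  cases u with
  | nil => exact adm_nil
  | cons a t => simpa [Adm, List.getLast?_cons_cons] using h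

theorem Adm.ne_nil {u : List Bool} (h : Adm (false :: u)) : u ≠ [] := by
  rintro rfl
  simp [Adm] at h

theorem Adm.cons {u : List Bool} (h : Adm u) (hu : u ≠ []) (b : Bool) : Adm (b :: u) := by
  cases u with
  | nil => exact absurd rfl hu
  | cons a t => simpa [Adm, List.getLast?_cons_cons] using h

theorem Adm.cons_true {u : List Bool} (h : Adm u) : Adm (true :: u) := by
  cases u with
  | nil => simp [Adm]
  | cons a t => simpa [Adm, List.getLast?_cons_cons] using h

theorem c_zero {u : List Bool} (hu : u ≠ []) : c u 0 = 0 := by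
  cases u with
  | nil => exact absurd rfl hu
  | cons a t => cases a <;> simp [c]

theorem c_nonneg (u : List Bool) (m : ℕ) : 0 ≤ c u m := by
  induction u generalizing m with
  | nil => simp only [c]; split_ifs <;> norm_num
  | cons a t ih =>
    cases a
    · simp only [c]; exact div_nonneg (ih m) (Nat.cast_nonneg m)
    · simp only [c]; exact div_nonneg (sum_nonneg fun j _ => ih j) (Nat.cast_nonneg m)

theorem c_le_one (u : List Bool) (m : ℕ) : c u m ≤ 1 := by
  induction u generalizing m with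
  | nil => simp only [c]; split_ifs <;> norm_num
  | cons a t ih =>
    rcases Nat.eq_zero_or_pos m with rfl | hm
    · rw [c_zero (by simp)]; norm_num
    have hm' : (1 : ℚ) ≤ m := by exact_mod_cast hm
    cases a
    · simp only [c]
      rw [div_le_one (by linarith)]
      exact (ih m).trans hm'
    · simp only [c]
      rw [div_le_one (by linarith)]
      calc ∑ j ∈ range m, c t j ≤ ∑ _j ∈ range m, (1 : ℚ) := sum_le_sum fun j _ => ih j
        _ = m := by simp

theorem zw_nil : zw [] = 1 := by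
  unfold zw
  rw [tsum_eq_single 0]
  · simp [c]
  · intro m hm; simp [c, hm]

theorem one_mem_G (R : ℕ) : (1 : ℝ) ∈ G R :=
  ⟨[], adm_nil, by simp, by simp, zw_nil.symm⟩

theorem G_finite (R : ℕ) : (G R).Finite := by
  have h : {u : List Bool | u.length ≤ R}.Finite := List.finite_length_le Bool R
  refine (h.image zw).subset ?_
  rintro x ⟨u, _, _, hu, rfl⟩
  exact ⟨u, hu, rfl⟩

end MZVLB

end

-- part MP_f3dc73_nt.YRel
section

set_option autoImplicit false

namespace MZVLB

open Finset Filter Topology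

theorem yrel_S (u : List Bool) (M : ℕ) : ∑ m ∈ range M, c u m / (m + 1) ≤ 1 := by
  induction u generalizing M with
  | nil =>
    cases M with
    | zero => simp
    | succ M => rw [sum_range_succ']; simp [c]
  | cons a t ih =>
    cases a
    · refine le_trans (sum_le_sum fun m _ => ?_) (ih M)
      refine div_le_div_of_nonneg_right ?_ (by positivity)
      simp only [c]
      rcases Nat.eq_zero_or_pos m with rfl | hm
      · simpa using c_nonneg t 0
      · exact div_le_self (c_nonneg t m) (by exact_mod_cast hm)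
    · have key : ∀ M : ℕ, ∑ m ∈ range (M + 1), c (true :: t) m / (m + 1) =
          ∑ j ∈ range M, c t j / (j + 1) - (∑ j ∈ range M, c t j) / (M + 1) := by
        intro M
        induction M with
        | zero => simp [c]
        | succ M ih =>
          rw [sum_range_succ, ih]
          simp only [c, sum_range_succ]
          push_cast
          field_simp
          ring
      cases M with
      | zero => simp
      | succ M =>
        rw [key]
        have : 0 ≤ (∑ j ∈ range M, c t j) / ((M : ℚ) + 1) :=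
          div_nonneg (sum_nonneg fun j _ => c_nonneg t j) (by positivity)
        linarith [ih M]

theorem yrel_bt_nonneg (M L : ℕ) : 0 ≤ bt M L := by unfold bt; positivity

theorem yrel_bt_symm (M L : ℕ) : bt M L = bt L M := by
  unfold bt; rw [add_comm, mul_comm]

theorem yrel_bt_succ (m l : ℕ) :
    bt (m + 1) (l + 1) = (m.factorial * l.factorial : ℚ) / ((m + l + 1).factorial : ℚ) := by
  unfold bt
  rw [show m + 1 + (l + 1) - 1 = m + l + 1 by omega]
  simp

theorem yrel_bt_split {M L : ℕ} (hM : 1 ≤ M) (hL : 1 ≤ L) :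
    bt M L = bt (M + 1) L + bt M (L + 1) := by
  obtain ⟨m, rfl⟩ : ∃ m, M = m + 1 := ⟨M - 1, by omega⟩
  obtain ⟨l, rfl⟩ : ∃ l, L = l + 1 := ⟨L - 1, by omega⟩
  simp only [yrel_bt_succ]
  rw [show m + 1 + l + 1 = (m + l + 1) + 1 by ring, show m + (l + 1) + 1 = (m + l + 1) + 1 by ring,
    Nat.factorial_succ (m + l + 1), Nat.factorial_succ m, Nat.factorial_succ l]
  push_cast
  field_simp
  ring

theorem yrel_bt_ibp {M L : ℕ} (hM : 1 ≤ M) (hL : 1 ≤ L) :
    (M : ℚ) * bt M (L + 1) = L * bt (M + 1) L := by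
  obtain ⟨m, rfl⟩ : ∃ m, M = m + 1 := ⟨M - 1, by omega⟩
  obtain ⟨l, rfl⟩ : ∃ l, L = l + 1 := ⟨L - 1, by omega⟩
  simp only [yrel_bt_succ]
  rw [show m + 1 + l + 1 = m + (l + 1) + 1 by ring, Nat.factorial_succ m, Nat.factorial_succ l]
  push_cast
  field_simp

/-- the normalised Beta weight -/
def yrelW (m l : ℕ) : ℚ := (m + 1) * (l + 1) * bt (m + 1) (l + 1)

theorem yrelW_symm (m l : ℕ) : yrelW m l = yrelW l m := by
  unfold yrelW; rw [yrel_bt_symm]; ring

theorem yrelW_succ (m l : ℕ) : yrelW m (l + 1) ≤ yrelW m l := by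
  have e : yrelW m (l + 1) = yrelW m l * ((l + 2) / (m + l + 2)) := by
    unfold yrelW
    simp only [yrel_bt_succ]
    rw [show m + (l + 1) + 1 = (m + l + 1) + 1 by ring, Nat.factorial_succ (m + l + 1),
      Nat.factorial_succ l]
    push_cast
    field_simp
    ring
  rw [e]
  refine mul_le_of_le_one_right (by unfold yrelW; have := yrel_bt_nonneg (m + 1) (l + 1); positivity) ?_
  rw [div_le_one (by positivity)]
  have : (0 : ℚ) ≤ m := by positivity
  linarith

theorem yrelW_anti {m l m' l' : ℕ} (hm : m ≤ m') (hl : l ≤ l') : yrelW m' l' ≤ yrelW m l := by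
  have h : ∀ m, Antitone (yrelW m) := fun m => antitone_nat_of_succ_le (yrelW_succ m)
  calc yrelW m' l' ≤ yrelW m' l := h m' hl
    _ = yrelW l m' := yrelW_symm _ _
    _ ≤ yrelW l m := h l hm
    _ = yrelW m l := yrelW_symm _ _

theorem yrelW_diag (T : ℕ) : yrelW T T ≤ (2 * T + 2) ^ 2 / 4 ^ T := by
  have h1 : (4 : ℚ) ^ T ≤ (2 * T + 1) * ((2 * T).choose T : ℕ) := by
    exact_mod_cast Nat.four_pow_le_two_mul_add_one_mul_central_binom T
  have h2 : (((2 * T).choose T : ℕ) : ℚ) * T.factorial * T.factorial = (2 * T).factorial := by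
    have := Nat.choose_mul_factorial_mul_factorial (show T ≤ 2 * T by omega)
    rw [show 2 * T - T = T by omega] at this
    exact_mod_cast this
  have h3 : (0 : ℚ) < ((2 * T).choose T : ℕ) := by exact_mod_cast Nat.choose_pos (by omega)
  have e : yrelW T T = (T + 1) ^ 2 / ((2 * T + 1) * ((2 * T).choose T : ℕ)) := by
    unfold yrelW
    rw [yrel_bt_succ, show T + T + 1 = 2 * T + 1 by ring, Nat.factorial_succ]
    push_cast
    rw [← h2]
    field_simp
  rw [e]
  refine div_le_div₀ (by positivity) ?_ (by positivity) h1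
  have : (0 : ℚ) ≤ T := by positivity
  nlinarith

theorem yrel_bt_le (m l : ℕ) : bt (m + 1) (l + 1) ≤ 1 / ((m + 1) * (l + 1)) := by
  have h := yrelW_anti (Nat.zero_le m) (Nat.zero_le l)
  have e : yrelW 0 0 = 1 := by simp [yrelW, bt]
  rw [e] at h
  rw [le_div_iff₀ (by positivity), mul_comm]
  exact h

theorem yrel_summable_c (u : List Bool) : Summable fun m : ℕ => ((c u m / (m + 1) : ℚ) : ℝ) :=
  summable_of_sum_range_le (c := 1)
    (fun m => by exact_mod_cast div_nonneg (c_nonneg u m) (by positivity))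
    (fun M => by exact_mod_cast yrel_S u M)

theorem yrel_pos {u : List Bool} {a m : ℕ} (ha : u ≠ [] ∨ 1 ≤ a) : c u m = 0 ∨ 1 ≤ m + a := by
  rcases Nat.eq_zero_or_pos m with rfl | hm
  · exact ha.imp c_zero (by omega)
  · right; omega

theorem yrel_hasSum (u v : List Bool) (a b : ℕ) (ha : u ≠ [] ∨ 1 ≤ a) (hb : v ≠ [] ∨ 1 ≤ b) :
    HasSum (fun p : ℕ × ℕ => ((c u p.1 * c v p.2 * bt (p.1 + a) (p.2 + b) : ℚ) : ℝ))
      (Y u v a b) := by
  refine Summable.hasSum ?_
  have hn : ∀ (u : List Bool) (m : ℕ), (0 : ℝ) ≤ ((c u m / (m + 1) : ℚ) : ℝ) := fun u m => by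
    exact_mod_cast div_nonneg (c_nonneg u m) (by positivity)
  refine Summable.of_nonneg_of_le (fun p => ?_) (fun p => ?_)
    (((yrel_summable_c u).mul_of_nonneg (yrel_summable_c v) (hn u) (hn v)).mul_left 4)
  · exact_mod_cast mul_nonneg (mul_nonneg (c_nonneg _ _) (c_nonneg _ _)) (yrel_bt_nonneg _ _)
  · have goal : c u p.1 * c v p.2 * bt (p.1 + a) (p.2 + b) ≤
        4 * (c u p.1 / (p.1 + 1) * (c v p.2 / (p.2 + 1))) := by
      have h1 := c_nonneg u p.1
      have h2 := c_nonneg v p.2
      rcases yrel_pos (m := p.1) ha with e | e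
      · rw [e]; simp
      rcases yrel_pos (m := p.2) hb with e' | e'
      · rw [e']; simp
      obtain ⟨m, hm⟩ : ∃ m, p.1 + a = m + 1 := ⟨p.1 + a - 1, by omega⟩
      obtain ⟨l, hl⟩ : ∃ l, p.2 + b = l + 1 := ⟨p.2 + b - 1, by omega⟩
      have a1 : (p.1 : ℚ) + 1 ≤ 2 * (m + 1) := by exact_mod_cast (by omega : p.1 + 1 ≤ 2 * (m + 1))
      have a2 : (p.2 : ℚ) + 1 ≤ 2 * (l + 1) := by exact_mod_cast (by omega : p.2 + 1 ≤ 2 * (l + 1))
      have a3 : bt (m + 1) (l + 1) ≤ 4 / ((p.1 + 1) * (p.2 + 1)) := by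
        refine (yrel_bt_le m l).trans ?_
        rw [div_le_div_iff₀ (by positivity) (by positivity)]
        have := mul_le_mul a1 a2 (by positivity) (by positivity)
        linarith
      rw [hm, hl]
      refine (mul_le_mul_of_nonneg_left a3 (mul_nonneg h1 h2)).trans (le_of_eq ?_)
      field_simp
    exact_mod_cast goal

theorem Y_symm (u v : List Bool) (a b : ℕ) : Y u v a b = Y v u b a := by
  unfold Y
  rw [← (Equiv.prodComm ℕ ℕ).tsum_eq]
  refine tsum_congr fun p => ?_
  simp only [Equiv.prodComm_apply, Prod.fst_swap, Prod.snd_swap]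
  rw [yrel_bt_symm, mul_comm (c u p.2)]

/-- 1 = x + (1-x). -/
theorem Y_split (u v : List Bool) (a b : ℕ) (ha : u ≠ [] ∨ 1 ≤ a) (hb : v ≠ [] ∨ 1 ≤ b) :
    Y u v a b = Y u v (a + 1) b + Y u v a (b + 1) := by
  refine (yrel_hasSum u v a b ha hb).unique ?_
  convert (yrel_hasSum u v (a + 1) b (Or.inr (by omega)) hb).add
    (yrel_hasSum u v a (b + 1) ha (Or.inr (by omega))) using 2 with p
  rw [← Rat.cast_add]
  congr 1
  rcases yrel_pos (m := p.1) ha with e | e
  · rw [e]; simp
  rcases yrel_pos (m := p.2) hb with e' | e'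
  · rw [e']; simp
  rw [yrel_bt_split e e', ← add_assoc, ← add_assoc]
  ring

theorem yrel_tele {M L : ℕ} (hM : 1 ≤ M) (hL : 1 ≤ L) :
    HasSum (fun i : ℕ => ((bt (M + i) (L + 1) : ℚ) : ℝ)) ((bt M L : ℚ) : ℝ) := by
  rw [hasSum_iff_tendsto_nat_of_nonneg (fun i => by exact_mod_cast yrel_bt_nonneg _ _)]
  have h1 : ∀ n : ℕ, ∑ i ∈ range n, ((bt (M + i) (L + 1) : ℚ) : ℝ) =
      ((bt M L : ℚ) : ℝ) - ((bt (M + n) L : ℚ) : ℝ) := by
    intro n
    induction n with
    | zero => simp
    | succ n ih =>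
      rw [sum_range_succ, ih, yrel_bt_split (show 1 ≤ M + n by omega) hL, add_assoc]
      push_cast
      ring
  simp only [h1]
  have h2 : Tendsto (fun n : ℕ => ((bt (M + n) L : ℚ) : ℝ)) atTop (𝓝 0) := by
    refine squeeze_zero (fun n => by exact_mod_cast yrel_bt_nonneg _ _) (fun n => ?_)
      tendsto_one_div_add_atTop_nhds_zero_nat
    obtain ⟨m, hm⟩ : ∃ m, M = m + 1 := ⟨M - 1, by omega⟩
    obtain ⟨l, hl⟩ : ∃ l, L = l + 1 := ⟨L - 1, by omega⟩
    have : bt (M + n) L ≤ 1 / (n + 1) := by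
      rw [hm, hl, add_right_comm]
      refine (yrel_bt_le _ _).trans (one_div_le_one_div_of_le (by positivity) ?_)
      push_cast
      have : (0 : ℚ) ≤ m := by positivity
      have : (0 : ℚ) ≤ l := by positivity
      have : (0 : ℚ) ≤ n := by positivity
      nlinarith
    have := (Rat.cast_le (K := ℝ)).2 this
    simpa using this
  simpa using h2.const_sub ((bt M L : ℚ) : ℝ)

theorem yrel_D (u v : List Bool) (hu : Adm u) (a b : ℕ) (hb : v ≠ [] ∨ 1 ≤ b) :
    HasSum (fun p : ℕ × ℕ => ((p.1 * c u p.1 * c v p.2 * bt (p.1 + a) (p.2 + b + 1) : ℚ) : ℝ))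
      (DY u v a b) := by
  cases u with
  | nil =>
    convert hasSum_zero using 2 with p
    · rcases Nat.eq_zero_or_pos p.1 with e | e
      · simp [e]
      · simp [c, e.ne']
    · rfl
  | cons x t =>
    cases x
    · change HasSum _ (Y t v a (b + 1))
      convert yrel_hasSum t v a (b + 1) (Or.inl hu.ne_nil) (Or.inr (by omega)) using 2 with p
      rw [add_assoc p.2]
      congr 3
      rcases Nat.eq_zero_or_pos p.1 with e | e
      · simp [e, c_zero hu.ne_nil]
      · have : (p.1 : ℚ) ≠ 0 := by positivity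
        simp only [c]
        field_simp
    · have h0 := yrel_hasSum t v (a + 1) b (Or.inr (by omega)) hb
      have h1 : ∀ p : ℕ × ℕ, HasSum
          (fun i : ℕ => ((c t p.1 * c v p.2 * bt (p.1 + (a + 1) + i) (p.2 + b + 1) : ℚ) : ℝ))
          ((c t p.1 * c v p.2 * bt (p.1 + (a + 1)) (p.2 + b) : ℚ) : ℝ) := by
        intro p
        rcases yrel_pos (m := p.2) hb with e | e
        · simp [e]
        · have := (yrel_tele (show 1 ≤ p.1 + (a + 1) by omega) e).mul_left
            ((c t p.1 * c v p.2 : ℚ) : ℝ)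
          simpa using this
      have h2 : Summable (fun q : (ℕ × ℕ) × ℕ =>
          ((c t q.1.1 * c v q.1.2 * bt (q.1.1 + (a + 1) + q.2) (q.1.2 + b + 1) : ℚ) : ℝ)) := by
        rw [summable_prod_of_nonneg (fun q => Rat.cast_nonneg.2 (mul_nonneg
          (mul_nonneg (c_nonneg _ _) (c_nonneg _ _)) (yrel_bt_nonneg _ _)))]
        exact ⟨fun p => (h1 p).summable, by simpa only [(h1 _).tsum_eq] using h0.summable⟩
      have h3 := h2.hasSum
      rw [(h3.prod_fiberwise h1).unique h0] at h3
      let F : (ℕ × ℕ) × ℕ → ℝ := fun q => if q.2 < q.1.1 then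
        ((c t q.2 * c v q.1.2 * bt (q.1.1 + a) (q.1.2 + b + 1) : ℚ) : ℝ) else 0
      have h4 : HasSum F (Y t v (a + 1) b) := by
        rw [← Function.Injective.hasSum_iff
          (g := fun q : (ℕ × ℕ) × ℕ => ((q.1.1 + 1 + q.2, q.1.2), q.1.1))]
        · convert h3 using 2 with q
          simp only [F, Function.comp]
          rw [if_pos (by omega), show q.1.1 + 1 + q.2 + a = q.1.1 + (a + 1) + q.2 by ring]
        · rintro ⟨⟨a1, a2⟩, a3⟩ ⟨⟨b1, b2⟩, b3⟩ h
          simp only [Prod.mk.injEq] at h ⊢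
          omega
        · rintro ⟨⟨m, l⟩, j⟩ hq
          refine if_neg fun hlt => hq ⟨((j, l), m - j - 1), ?_⟩
          simp only [Prod.mk.injEq, and_true] at hlt ⊢
          omega
      refine h4.prod_fiberwise fun p => ?_
      have h5 := hasSum_sum_of_ne_finset_zero (L := .unconditional ℕ) (f := fun j => F (p, j))
        (s := range p.1) (fun j hj => if_neg (by simpa using hj))
      convert h5 using 1
      rw [sum_congr rfl (g := fun j =>
        ((c t j * c v p.2 * bt (p.1 + a) (p.2 + b + 1) : ℚ) : ℝ))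
        (fun j hj => if_pos (mem_range.1 hj)), ← Rat.cast_sum, ← sum_mul, ← sum_mul]
      congr 3
      rcases Nat.eq_zero_or_pos p.1 with e | e
      · simp [e]
      · have : (p.1 : ℚ) ≠ 0 := by positivity
        simp only [c]
        field_simp

/-- Integration by parts. -/
theorem Y_ibp (u v : List Bool) (hu : Adm u) (hv : Adm v) (a b : ℕ)
    (ha : u ≠ [] ∨ 1 ≤ a) (hb : v ≠ [] ∨ 1 ≤ b) :
    (a : ℝ) * Y u v a (b + 1) + DY u v a b = (b : ℝ) * Y u v (a + 1) b + DY v u b a := by
  have h1 := ((yrel_hasSum u v a (b + 1) ha (Or.inr (by omega))).mul_left (a : ℝ)).add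
    (yrel_D u v hu a b hb)
  have h2 := ((yrel_hasSum u v (a + 1) b (Or.inr (by omega)) hb).mul_left (b : ℝ)).add
    ((Equiv.prodComm ℕ ℕ).hasSum_iff.2 (yrel_D v u hv b a ha))
  refine h1.unique ?_
  convert h2 using 2 with p
  simp only [Function.comp, Equiv.prodComm_apply, Prod.fst_swap, Prod.snd_swap]
  have goal : (a : ℚ) * (c u p.1 * c v p.2 * bt (p.1 + a) (p.2 + (b + 1))) +
      p.1 * c u p.1 * c v p.2 * bt (p.1 + a) (p.2 + b + 1) =
      b * (c u p.1 * c v p.2 * bt (p.1 + (a + 1)) (p.2 + b)) +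
      p.2 * c v p.2 * c u p.1 * bt (p.2 + b) (p.1 + a + 1) := by
    rcases yrel_pos (m := p.1) ha with e | e
    · rw [e]; simp
    rcases yrel_pos (m := p.2) hb with e' | e'
    · rw [e']; simp
    have := yrel_bt_ibp e e'
    push_cast at this
    rw [yrel_bt_symm (p.2 + b), ← add_assoc, ← add_assoc]
    linear_combination (c u p.1 * c v p.2) * this
  exact_mod_cast goal

theorem Y_nil_nil (a b : ℕ) : Y [] [] a b = ((bt a b : ℚ) : ℝ) := by
  unfold Y
  rw [tsum_eq_single (0, 0)]
  · simp [c]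
  · rintro ⟨m, l⟩ h
    by_cases hm : m = 0
    · have : l ≠ 0 := fun hl => h (by rw [hm, hl])
      simp [c, this]
    · simp [c, hm]

theorem Y_zw (u : List Bool) (hu : u ≠ []) : Y u [] 0 1 = zw (false :: u) := by
  have h := (yrel_hasSum u [] 0 1 (Or.inl hu) (Or.inr le_rfl)).prod_fiberwise
    (g := fun m => ((c (false :: u) m : ℚ) : ℝ)) fun m => by
      convert hasSum_single (f := fun l : ℕ => ((c u m * c [] l * bt (m + 0) (l + 1) : ℚ) : ℝ)) 0
        (fun l hl => by simp [c, hl]) using 2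
      rcases Nat.eq_zero_or_pos m with rfl | e
      · simp [c, c_zero hu]
      · obtain ⟨k, rfl⟩ : ∃ k, m = k + 1 := ⟨m - 1, by omega⟩
        simp only [c, add_zero, zero_add, if_true]
        have := yrel_bt_succ k 0
        simp only [zero_add, add_zero, Nat.factorial_succ] at this
        rw [this]
        push_cast
        field_simp
        simp
  exact h.tsum_eq.symm

theorem yrel_cs_nonneg (u : List Bool) (i m : ℕ) : 0 ≤ cs u i m := by
  unfold cs; split_ifs
  · exact c_nonneg _ _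
  · rfl

theorem yrel_cs_S (u : List Bool) (i M : ℕ) : ∑ m ∈ range M, cs u i m / (m + 1) ≤ 1 := by
  refine le_trans (sum_le_sum_of_subset_of_nonneg (range_mono (Nat.le_add_left M i))
    fun m _ _ => div_nonneg (yrel_cs_nonneg _ _ _) (by positivity)) ?_
  rw [sum_range_add, sum_eq_zero (fun m hm => by simp [cs, mem_range.1 hm]), zero_add]
  refine le_trans (sum_le_sum fun m _ => ?_) (yrel_S u M)
  simp only [cs, Nat.le_add_right, if_true, Nat.add_sub_cancel_left]
  refine div_le_div_of_nonneg_left (c_nonneg _ _) (by positivity) ?_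
  push_cast
  have : (0 : ℚ) ≤ i := by positivity
  linarith

theorem yrel_shift (u v : List Bool) (i j : ℕ) :
    HasSum (fun p : ℕ × ℕ => ((cs u i p.1 * cs v j p.2 * bt (p.1 + 1) (p.2 + 1) : ℚ) : ℝ))
      (Y u v (i + 1) (j + 1)) := by
  rw [← Function.Injective.hasSum_iff (g := fun p : ℕ × ℕ => (p.1 + i, p.2 + j))]
  · convert yrel_hasSum u v (i + 1) (j + 1) (Or.inr (by omega)) (Or.inr (by omega)) using 2 with p
    simp [cs, add_assoc]
  · rintro ⟨a1, a2⟩ ⟨b1, b2⟩ h
    simp only [Prod.mk.injEq] at h ⊢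
    omega
  · rintro ⟨m, l⟩ hq
    by_cases h1 : i ≤ m
    · by_cases h2 : j ≤ l
      · exact absurd ⟨(m - i, l - j), by simp only [Prod.mk.injEq]; omega⟩ hq
      · simp [cs, h2]
    · simp [cs, h1]

theorem yrel_major {β : Type} [Fintype β] (u : β → List Bool) (i : β → ℕ) (x : β → ℚ) (h : ℚ)
    (hx : ∀ p, |x p| ≤ h) : ∃ s : ℝ, 0 ≤ s ∧ s ≤ h * Fintype.card β ∧
      HasSum (fun m : ℕ => ((|∑ p, x p * cs (u p) (i p) m| / (m + 1) : ℚ) : ℝ)) s := by
  have h0 : ∀ m : ℕ, (0 : ℝ) ≤ ((|∑ p, x p * cs (u p) (i p) m| / (m + 1) : ℚ) : ℝ) := fun m => by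
    exact_mod_cast div_nonneg (abs_nonneg _) (by positivity)
  have h1 : ∀ M : ℕ, ∑ m ∈ range M, ((|∑ p, x p * cs (u p) (i p) m| / (m + 1) : ℚ) : ℝ) ≤
      h * Fintype.card β := by
    intro M
    have : ∑ m ∈ range M, |∑ p, x p * cs (u p) (i p) m| / (m + 1) ≤ h * Fintype.card β := by
      calc _ ≤ ∑ m ∈ range M, ∑ p, h * (cs (u p) (i p) m / (m + 1)) := by
            refine sum_le_sum fun m _ => ?_
            rw [div_le_iff₀ (by positivity), sum_mul]
            refine (abs_sum_le_sum_abs _ _).trans (sum_le_sum fun p _ => ?_)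
            rw [abs_mul, abs_of_nonneg (yrel_cs_nonneg _ _ _), mul_assoc,
              div_mul_cancel₀ _ (by positivity)]
            exact mul_le_mul_of_nonneg_right (hx p) (yrel_cs_nonneg _ _ _)
        _ = ∑ p, h * ∑ m ∈ range M, cs (u p) (i p) m / (m + 1) := by
            rw [sum_comm]; simp only [mul_sum]
        _ ≤ ∑ _p : β, h := sum_le_sum fun p _ =>
            mul_le_of_le_one_right ((abs_nonneg _).trans (hx p)) (yrel_cs_S _ _ _)
        _ = _ := by simp [mul_comm]
    exact_mod_cast this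
  exact ⟨_, tsum_nonneg h0, Real.tsum_le_of_sum_range_le h0 h1,
    (summable_of_sum_range_le h0 h1).hasSum⟩

/-- Smallness of the pairing of two combinations vanishing to order T. -/
theorem Y_small {β0 β1 : Type} [Fintype β0] [Fintype β1]
    (u0 : β0 → List Bool) (i0 : β0 → ℕ) (u1 : β1 → List Bool) (i1 : β1 → ℕ)
    (x : β0 → ℚ) (y : β1 → ℚ) (h0 h1 : ℚ) (hx : ∀ p, |x p| ≤ h0) (hy : ∀ p, |y p| ≤ h1) (T : ℕ)
    (hx0 : ∀ m < T, ∑ p, x p * cs (u0 p) (i0 p) m = 0)
    (hy0 : ∀ m < T, ∑ p, y p * cs (u1 p) (i1 p) m = 0) :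
    |∑ p, ∑ q, (x p : ℝ) * (y q : ℝ) * Y (u0 p) (u1 q) (i0 p + 1) (i1 q + 1)|
      ≤ (h0 : ℝ) * Fintype.card β0 * ((h1 : ℝ) * Fintype.card β1) * ((2 * T + 2) ^ 2 / 4 ^ T) := by
  obtain ⟨s0, a0, a1, a2⟩ := yrel_major u0 i0 x h0 hx
  obtain ⟨s1, b0, b1, b2⟩ := yrel_major u1 i1 y h1 hy
  have c1 := hasSum_sum (s := univ) fun p _ => hasSum_sum (s := univ) fun q _ =>
    (yrel_shift (u0 p) (u1 q) (i0 p) (i1 q)).mul_left ((x p : ℝ) * (y q : ℝ))
  have c2 := (a2.mul b2 (a2.summable.mul_of_nonneg b2.summable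
    (fun m => Rat.cast_nonneg.2 (by positivity))
    (fun m => Rat.cast_nonneg.2 (by positivity)))).mul_right
    ((2 * (T : ℝ) + 2) ^ 2 / 4 ^ T)
  refine (c1.norm_le_of_bounded c2 fun z => ?_).trans (mul_le_mul_of_nonneg_right
    (mul_le_mul a1 b1 b0 (a0.trans a1)) (by positivity))
  obtain ⟨A, hA⟩ : ∃ A, A = ∑ p, x p * cs (u0 p) (i0 p) z.1 := ⟨_, rfl⟩
  obtain ⟨B, hB⟩ : ∃ B, B = ∑ p, y p * cs (u1 p) (i1 p) z.2 := ⟨_, rfl⟩
  have e : ∑ p, ∑ q, (x p : ℝ) * (y q : ℝ) *
      ((cs (u0 p) (i0 p) z.1 * cs (u1 q) (i1 q) z.2 * bt (z.1 + 1) (z.2 + 1) : ℚ) : ℝ) =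
      ((A * B * bt (z.1 + 1) (z.2 + 1) : ℚ) : ℝ) := by
    rw [hA, hB, sum_mul_sum, sum_mul]
    push_cast
    refine sum_congr rfl fun p _ => ?_
    rw [sum_mul]
    exact sum_congr rfl fun q _ => by ring
  rw [e, ← hA, ← hB, Real.norm_eq_abs]
  have goal : |A * B * bt (z.1 + 1) (z.2 + 1)| ≤
      |A| / (z.1 + 1) * (|B| / (z.2 + 1)) * ((2 * (T : ℚ) + 2) ^ 2 / 4 ^ T) := by
    by_cases hz1 : z.1 < T
    · rw [hA, hx0 _ hz1]; simp
    by_cases hz2 : z.2 < T
    · rw [hB, hy0 _ hz2]; simp
    have w := (yrelW_anti (not_lt.1 hz1) (not_lt.1 hz2)).trans (yrelW_diag T)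
    refine le_trans (le_of_eq ?_) (mul_le_mul_of_nonneg_left w (by positivity))
    rw [abs_mul, abs_mul, abs_of_nonneg (yrel_bt_nonneg _ _)]
    unfold yrelW
    field_simp
  have := (Rat.cast_le (K := ℝ)).2 goal
  push_cast at this ⊢
  exact this

end MZVLB

end

-- part MP_f3dc73_nt.Nondeg
section

set_option autoImplicit false

namespace MZVLB

open Finset Polynomial

/-- Admissible words of length at most w. -/
abbrev W (w : ℕ) : Type := {u : List Bool // Adm u ∧ u.length ≤ w}

instance (w : ℕ) : Finite (W w) :=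
  ((List.finite_length_le Bool w).subset (fun _ h => h.2) :
    {u : List Bool | Adm u ∧ u.length ≤ w}.Finite)

noncomputable instance (w : ℕ) : Fintype (W w) := Fintype.ofFinite _

def W.root (w : ℕ) : W w := ⟨[], adm_nil, Nat.zero_le _⟩

def W.par {w : ℕ} (u : W w) : W w :=
  ⟨u.1.tail, by
    obtain ⟨u, hu, _⟩ := u
    cases u with
    | nil => exact adm_nil
    | cons a t => exact hu.tail, by
    have := u.2.2
    simp only [List.length_tail]; omega⟩

def W.lt {w : ℕ} (u : W w) : Bool := u.1.headD false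

theorem W.cons_of_ne {w : ℕ} {u : W w} (hu : u ≠ W.root w) : u.1 = u.lt :: u.par.1 := by
  obtain ⟨u, h⟩ := u
  cases u with
  | nil => exact absurd rfl hu
  | cons a t => rfl

theorem card_W (w : ℕ) : 2 ^ w ≤ Fintype.card (W w) := by
  induction w with
  | zero => exact Fintype.card_pos_iff.2 ⟨W.root 0⟩
  | succ w ih =>
    let F : Bool × W w → W (w + 1) := fun p =>
      if h : p.1 = false ∧ p.2.1 = [] then W.root _ else ⟨p.1 :: p.2.1, by
        obtain ⟨b, u, hu, _⟩ := p
        cases b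
        · exact hu.cons (by simpa using h) _
        · exact hu.cons_true, by simpa using p.2.2.2⟩
    have hF : Function.Injective F := by
      rintro ⟨b, u⟩ ⟨b', u'⟩ h
      simp only [F] at h
      split_ifs at h with h1 h2 h2
      · rw [h1.1, h2.1, show u = u' from Subtype.ext (h1.2.trans h2.2.symm)]
      · exact absurd (congrArg Subtype.val h) (by simp [W.root])
      · exact absurd (congrArg Subtype.val h) (by simp [W.root])
      · have h3 := congrArg Subtype.val h
        simp only [List.cons.injEq] at h3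
        rw [h3.1, show u = u' from Subtype.ext h3.2]
    have := Fintype.card_le_of_injective F hF
    rw [Fintype.card_prod, Fintype.card_bool] at this
    rw [pow_succ]; omega

/-- The functional P maps to phi of the integral of P L_u(x) L_v(1-x). -/
noncomputable def lY (φ : ℝ →ₗ[ℚ] ℚ) (u v : List Bool) : ℚ[X] →ₗ[ℚ] ℚ :=
  (basisMonomials ℚ).constr ℚ fun k => φ (Y u v (k + 1) 1)

theorem lY_X_pow (φ : ℝ →ₗ[ℚ] ℚ) (u v : List Bool) (k : ℕ) :
    lY φ u v (X ^ k) = φ (Y u v (k + 1) 1) := by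
  have := (basisMonomials ℚ).constr_basis ℚ (fun k => φ (Y u v (k + 1) 1)) k
  rw [coe_basisMonomials] at this
  rw [X_pow_eq_monomial]
  exact this

theorem lY_pow (φ : ℝ →ₗ[ℚ] ℚ) (u v : List Bool) (j i : ℕ) :
    lY φ u v (X ^ i * (1 - X) ^ j) = φ (Y u v (i + 1) (j + 1)) := by
  induction j generalizing i with
  | zero => simp [lY_X_pow]
  | succ j ih =>
    have e : (X ^ i * (1 - X) ^ (j + 1) : ℚ[X]) = X ^ i * (1 - X) ^ j - X ^ (i + 1) * (1 - X) ^ j := by
      ring
    rw [e, map_sub, ih, ih, Y_split u v (i + 1) (j + 1) (Or.inr (by omega)) (Or.inr (by omega)),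
      map_add]
    ring

theorem lY_rel (φ : ℝ →ₗ[ℚ] ℚ) {w : ℕ} (u v : W w) (P : ℚ[X]) :
    lY φ u.1 v.1 (X * (1 - X) * derivative P + (1 - 2 * X) * P)
      + (if u = W.root w then 0 else lY φ u.par.1 v.1 ((if u.lt then X else 1 - X) * P))
      - (if v = W.root w then 0 else lY φ u.1 v.par.1 ((if v.lt then 1 - X else X) * P)) = 0 := by
  induction P using Polynomial.induction_on' with
  | add p q hp hq =>
    have e : X * (1 - X) * derivative (p + q) + (1 - 2 * X) * (p + q)
        = (X * (1 - X) * derivative p + (1 - 2 * X) * p)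
          + (X * (1 - X) * derivative q + (1 - 2 * X) * q) := by
      rw [derivative_add]; ring
    rw [e, map_add]
    simp only [mul_add, map_add] at hp hq ⊢
    split_ifs at hp hq ⊢ <;> linear_combination hp + hq
  | monomial k a =>
    have e0 : (monomial k a : ℚ[X]) = a • X ^ k := by
      rw [smul_eq_C_mul, C_mul_X_pow_eq_monomial]
    have e1 : (X * (1 - X) * derivative (X ^ k) + (1 - 2 * X) * X ^ k : ℚ[X])
        = ((k + 1 : ℕ) : ℚ) • (X ^ k * (1 - X) ^ 1) - X ^ (k + 1) * (1 - X) ^ 0 := by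
      rw [smul_eq_C_mul, derivative_X_pow]
      cases k with
      | zero => simp; ring
      | succ k => simp only [Nat.add_sub_cancel, map_natCast]; push_cast; ring
    have h1 : (if u = W.root w then 0 else lY φ u.par.1 v.1 ((if u.lt then X else 1 - X) * X ^ k))
        = φ (DY u.1 v.1 (k + 1) 1) := by
      split_ifs with hu hl
      · rw [hu]; simp [W.root, DY]
      · rw [W.cons_of_ne hu, hl, ← pow_succ', lY_X_pow]; rfl
      · rw [W.cons_of_ne hu, Bool.eq_false_iff.2 hl]
        have := lY_pow φ u.par.1 v.1 1 k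
        rw [pow_one, mul_comm] at this
        exact this
    have h2 : (if v = W.root w then 0 else lY φ u.1 v.par.1 ((if v.lt then 1 - X else X) * X ^ k))
        = φ (DY v.1 u.1 1 (k + 1)) := by
      split_ifs with hv hl
      · rw [hv]; simp [W.root, DY]
      · rw [W.cons_of_ne hv, hl]
        have := lY_pow φ u.1 v.par.1 1 k
        rw [pow_one, mul_comm, Y_symm] at this
        exact this
      · rw [W.cons_of_ne hv, Bool.eq_false_iff.2 hl, ← pow_succ', lY_X_pow, Y_symm]; rfl
    have h3 := congrArg φ (Y_ibp u.1 v.1 u.2.1 v.2.1 (k + 1) 1 (Or.inr (by omega)) (Or.inr le_rfl))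
    rw [map_add, map_add, Nat.cast_one, one_mul, ← nsmul_eq_mul, map_nsmul, nsmul_eq_mul] at h3
    have h4 : lY φ u.1 v.1 (X * (1 - X) * derivative (X ^ k) + (1 - 2 * X) * X ^ k)
        + φ (DY u.1 v.1 (k + 1) 1) - φ (DY v.1 u.1 1 (k + 1)) = 0 := by
      rw [e1, map_sub, map_smul, lY_pow, lY_pow, smul_eq_mul]
      linear_combination h3
    rw [← h1, ← h2] at h4
    rw [e0, derivative_smul, mul_smul_comm, mul_smul_comm, ← smul_add, map_smul]
    simp only [mul_smul_comm, map_smul, smul_eq_mul]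
    split_ifs at h4 ⊢ <;> linear_combination a * h4

theorem nondeg (φ : ℝ →ₗ[ℚ] ℚ) (hφ : φ 1 ≠ 0) (w n0 n1 : ℕ) (hn : n1 + 4 * Fintype.card (W w) ≤ n0)
    (y : W w × Fin (n1 + 1) → ℚ)
    (hy : ∀ p : W w × Fin (n0 + 1), ∑ q : W w × Fin (n1 + 1),
      φ (Y p.1.1 q.1.1 (p.2 + 1) (q.2 + 1)) * y q = 0) : y = 0 := by
  have h := rank_lemma (W.root w) W.par W.lt (fun u => u.1.length)
    (fun u hu => by rw [W.cons_of_ne hu]; rfl) rfl
    (fun u u' hu hu' h1 h2 => Subtype.ext (by rw [W.cons_of_ne hu, W.cons_of_ne hu', h1, h2]))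
    (fun u v => lY φ u.1 v.1) (lY_rel φ) (by
      have := lY_X_pow φ [] [] 0
      rw [pow_zero, Y_nil_nil] at this
      change lY φ [] [] 1 ≠ 0
      rw [this]
      simpa [bt] using hφ) n0 n1 hn
    (fun v => ∑ j : Fin (n1 + 1), C (y (v, j)) * (1 - X) ^ (j : ℕ)) (by
      intro v
      refine natDegree_sum_le_of_forall_le _ _ fun j _ => ?_
      have h1 : (1 - X : ℚ[X]).natDegree ≤ 1 := by compute_degree
      have h2 := natDegree_pow_le_of_le (j : ℕ) h1
      have h3 := natDegree_C_mul_le (y (v, j)) ((1 - X : ℚ[X]) ^ (j : ℕ))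
      have := j.2
      omega) (by
      intro u i hi
      have := hy (u, ⟨i, by omega⟩)
      rw [Fintype.sum_prod_type] at this
      rw [← this]
      refine sum_congr rfl fun v _ => ?_
      rw [mul_sum, map_sum]
      refine sum_congr rfl fun j _ => ?_
      rw [mul_left_comm, ← smul_eq_C_mul, map_smul, lY_pow, smul_eq_mul, mul_comm])
  funext ⟨v, j⟩
  have h1 := congrArg (fun p : ℚ[X] => (p.comp (1 - X)).coeff j) (congrFun h v)
  simp only [Pi.zero_apply, zero_comp, coeff_zero, Polynomial.sum_comp, mul_comp, C_comp, pow_comp,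
    sub_comp, one_comp, X_comp, sub_sub_cancel, finsetSum_coeff, coeff_C_mul, coeff_X_pow] at h1
  rw [sum_eq_single j] at h1
  · simpa using h1
  · intro b _ hb
    rw [if_neg (fun h => hb (Fin.ext h.symm)), mul_zero]
  · simp

end MZVLB

end

-- part MP_f3dc73_nt.Arith
section

set_option autoImplicit false

namespace MZVLB

open Finset

theorem arith_dvd {m T : ℕ} (h1 : 1 ≤ m) (h2 : m ≤ T) :
    ∃ d : ℕ, (Nat.lcmUpto T : ℚ) = m * d := by
  obtain ⟨d, hd⟩ : m ∣ Nat.lcmUpto T := Finset.dvd_lcm (f := id) (mem_Icc.2 ⟨h1, h2⟩)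
  exact ⟨d, by exact_mod_cast hd⟩

theorem c_den (u : List Bool) (T w m : ℕ) (hw : u.length ≤ w) (hm : m ≤ T) :
    ∃ z : ℤ, (Nat.lcmUpto T : ℚ) ^ w * c u m = z := by
  induction u generalizing w m with
  | nil =>
    simp only [c]
    split_ifs
    · exact ⟨Nat.lcmUpto T ^ w, by simp⟩
    · exact ⟨0, by simp⟩
  | cons a t ih =>
    obtain ⟨w, rfl⟩ : ∃ w', w = w' + 1 := ⟨w - 1, by simp at hw; omega⟩
    have hw' : t.length ≤ w := by simpa using hw
    rcases Nat.eq_zero_or_pos m with rfl | h0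
    · exact ⟨0, by simp [c_zero]⟩
    obtain ⟨d, hd⟩ := arith_dvd h0 hm
    have hm0 : (m : ℚ) ≠ 0 := by positivity
    have key : ∀ x : ℚ, (∃ z : ℤ, (Nat.lcmUpto T : ℚ) ^ w * x = z) →
        ∃ z : ℤ, (Nat.lcmUpto T : ℚ) ^ (w + 1) * (x / m) = z := by
      rintro x ⟨z, hz⟩
      refine ⟨z * d, ?_⟩
      push_cast
      rw [← hz, pow_succ]
      nth_rewrite 2 [hd]
      field_simp
    cases a
    · exact key _ (ih w m hw' hm)
    · refine key _ ?_
      choose! z hz using fun j (hj : j ≤ T) => ih w j hw' hj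
      refine ⟨∑ j ∈ range m, z j, ?_⟩
      rw [mul_sum]
      push_cast
      exact sum_congr rfl fun j hj => hz j (by have := mem_range.1 hj; omega)

theorem lcmUpto_le (n : ℕ) : Nat.lcmUpto n ≤ 2 ^ (8 * n) := by
  have h1 := Chebyshev.psi_le_const_mul_self (x := n) (by positivity)
  rw [Chebyshev.psi_eq_log_lcmUpto] at h1
  have h2 : Real.log 4 = 2 * Real.log 2 := by
    rw [show (4 : ℝ) = 2 ^ 2 by norm_num, Real.log_pow]; norm_num
  have h3 := Real.log_two_gt_d9
  have h4 : Real.log (Nat.lcmUpto n) ≤ Real.log (2 ^ (8 * n)) := by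
    rw [Real.log_pow]
    push_cast
    have : (0 : ℝ) ≤ n := by positivity
    nlinarith
  have h5 := (Real.log_le_log_iff (by exact_mod_cast Nat.lcmUpto_pos n) (by positivity)).1 h4
  exact_mod_cast h5

theorem arith_cut (v : List Bool) : ∀ u : List Bool, Adm u → Adm v →
    (u ≠ [] → Y u v 0 1 ∈ G (u.length + v.length + 1)) ∧
      (v ≠ [] → Y u v 1 0 ∈ G (u.length + v.length + 1)) := by
  induction v with
  | nil =>
    intro u hu _
    exact ⟨fun h => ⟨false :: u, hu.cons h _, by simp, by simp, Y_zw u h⟩, fun h => absurd rfl h⟩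
  | cons x t ih =>
    intro u hu hv
    have key : ∀ w : List Bool, Adm w → w ≠ [] →
        DY w (x :: t) 0 0 ∈ G (w.length + t.length + 1) := by
      intro w hw hw0
      have h := Y_ibp w (x :: t) hw hv 0 0 (Or.inl hw0) (Or.inl (by simp))
      simp only [Nat.cast_zero, zero_mul, zero_add] at h
      rw [h]
      cases x
      · simp only [DY]
        rw [Y_symm]
        exact (ih w hw hv.tail).2 hv.ne_nil
      · simp only [DY]
        rw [Y_symm]
        exact (ih w hw hv.tail).1 hw0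
    refine ⟨fun h => ?_, fun _ => ?_⟩
    · have := key (false :: u) (hu.cons h _) (by simp)
      simp only [DY, List.length_cons] at this ⊢
      convert this using 2
      ring
    · have := key (true :: u) hu.cons_true (by simp)
      simp only [DY, List.length_cons] at this ⊢
      convert this using 2
      ring

/-- denominator and size control of the value of a functional -/
def ArithOk (D : ℕ) (φ : ℝ →ₗ[ℚ] ℚ) (e : ℕ) (B : ℚ) (x : ℝ) : Prop :=
  (∃ z : ℤ, (D : ℚ) ^ e * φ x = z) ∧ |φ x| ≤ B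

section
variable {D : ℕ} {φ : ℝ →ₗ[ℚ] ℚ} {e e' : ℕ} {B B' : ℚ} {x y : ℝ}

theorem ArithOk.mono (h : ArithOk D φ e B x) (he : e ≤ e') (hB : B ≤ B') : ArithOk D φ e' B' x := by
  obtain ⟨⟨z, hz⟩, h2⟩ := h
  obtain ⟨k, rfl⟩ := Nat.exists_eq_add_of_le he
  refine ⟨⟨z * D ^ k, ?_⟩, h2.trans hB⟩
  push_cast
  rw [← hz]; ring

theorem ArithOk.add (h : ArithOk D φ e B x) (h' : ArithOk D φ e B' y) :
    ArithOk D φ e (B + B') (x + y) := by
  obtain ⟨⟨z, hz⟩, h2⟩ := h
  obtain ⟨⟨z', hz'⟩, h2'⟩ := h'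
  refine ⟨⟨z + z', ?_⟩, ?_⟩
  · rw [map_add, mul_add, hz, hz']; push_cast; rfl
  · rw [map_add]; exact (abs_add_le _ _).trans (add_le_add h2 h2')

theorem ArithOk.sub (h : ArithOk D φ e B x) (h' : ArithOk D φ e B' y) :
    ArithOk D φ e (B + B') (x - y) := by
  obtain ⟨⟨z, hz⟩, h2⟩ := h
  obtain ⟨⟨z', hz'⟩, h2'⟩ := h'
  refine ⟨⟨z - z', ?_⟩, ?_⟩
  · rw [map_sub, mul_sub, hz, hz']; push_cast; rfl
  · rw [map_sub]; exact (abs_sub _ _).trans (add_le_add h2 h2')

theorem ArithOk.zero (hB : 0 ≤ B) : ArithOk D φ e B 0 := ⟨⟨0, by simp⟩, by simpa using hB⟩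

theorem ArithOk.div {T k : ℕ} (hk : k + 1 ≤ T)
    (h : ArithOk (Nat.lcmUpto T) φ e (((k + 1 : ℕ) : ℚ) * B) (((k + 1 : ℕ) : ℝ) * x)) :
    ArithOk (Nat.lcmUpto T) φ (e + 1) B x := by
  obtain ⟨⟨z, hz⟩, h2⟩ := h
  obtain ⟨d, hd⟩ := arith_dvd (show 1 ≤ k + 1 by omega) hk
  have e1 : φ (((k + 1 : ℕ) : ℝ) * x) = ((k + 1 : ℕ) : ℚ) * φ x := by
    rw [← nsmul_eq_mul, map_nsmul, nsmul_eq_mul]
  rw [e1] at hz h2
  refine ⟨⟨z * d, ?_⟩, ?_⟩
  · rw [Int.cast_mul, Int.cast_natCast, ← hz, pow_succ]
    nth_rewrite 2 [hd]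
    ring
  · rw [abs_mul, abs_of_nonneg (by positivity)] at h2
    exact le_of_mul_le_mul_left h2 (by positivity)

end

theorem arith_G {R : ℕ} {φ : ℝ →ₗ[ℚ] ℚ} {C : ℚ} (hφ : Good R φ C) (D : ℕ) {r : ℕ} (hr : r ≤ R)
    {x : ℝ} (hx : x ∈ G r) : ArithOk D φ 0 C x := by
  obtain ⟨u, h1, h2, h3, h4⟩ := hx
  simpa [ArithOk] using hφ x ⟨u, h1, h2, h3.trans hr, h4⟩

theorem arith_I {R : ℕ} {φ : ℝ →ₗ[ℚ] ℚ} {C : ℚ} (hφ : Good R φ C) (K : ℕ) (r : ℕ) :
    r ≤ R → ∀ u v : List Bool, Adm u → Adm v → u.length + v.length = r → ∀ k ≤ K,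
      ArithOk (Nat.lcmUpto (K + 1)) φ (r + 1) (C * 4 ^ r) (Y u v (k + 1) 1) := by
  have hC : 0 ≤ C := (abs_nonneg _).trans (hφ 1 (one_mem_G R)).2
  induction r with
  | zero =>
    intro _ u v _ _ h k hk
    obtain rfl : u = [] := List.eq_nil_of_length_eq_zero (by omega)
    obtain rfl : v = [] := List.eq_nil_of_length_eq_zero (by omega)
    refine ArithOk.div (k := k) (by omega) ?_
    have e : ((k + 1 : ℕ) : ℝ) * Y [] [] (k + 1) 1 = 1 := by
      rw [Y_nil_nil]
      have := yrel_bt_succ k 0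
      simp only [zero_add, add_zero, Nat.factorial_succ] at this
      rw [this]
      push_cast
      field_simp
      simp
    rw [e]
    refine (arith_G hφ _ le_rfl (one_mem_G R)).mono le_rfl ?_
    push_cast
    have : (0 : ℚ) ≤ k := by positivity
    nlinarith
  | succ r ih =>
    intro hr
    replace ih := ih (by omega)
    have h4 : (1 : ℚ) ≤ 4 ^ r := one_le_pow₀ (by norm_num)
    have hC4 : C ≤ C * 4 ^ r := le_mul_of_one_le_right hC h4
    have J : ∀ u v : List Bool, Adm u → Adm v → u.length + v.length = r → v ≠ [] → ∀ k ≤ K + 1,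
        ArithOk (Nat.lcmUpto (K + 1)) φ (r + 1) (C + k * (C * 4 ^ r)) (Y u v (k + 1) 0) := by
      intro u v hu hv h hv0 k
      induction k with
      | zero =>
        intro _
        exact (arith_G hφ _ (by omega) ((arith_cut v u hu hv).2 hv0)).mono (by omega) (by simp)
      | succ k ihk =>
        intro hk
        have e := Y_split u v (k + 1) 0 (Or.inr (by omega)) (Or.inl hv0)
        rw [eq_sub_of_add_eq e.symm]
        refine ((ihk (by omega)).sub (ih u v hu hv h k (by omega))).mono le_rfl (le_of_eq ?_)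
        push_cast; ring
    intro u v hu hv h k hk
    have hk0 : (0 : ℚ) ≤ k * (C * 4 ^ r) := by positivity
    refine ArithOk.div (k := k) (by omega) ?_
    cases v with
    | cons y s =>
      have e := Y_ibp u (y :: s) hu hv (k + 1) 0 (Or.inr (by omega)) (Or.inl (by simp))
      simp only [Nat.cast_zero, zero_mul, zero_add] at e
      rw [eq_sub_of_add_eq e]
      have a1 : ArithOk (Nat.lcmUpto (K + 1)) φ (r + 1) (C + (k + 1 : ℕ) * (C * 4 ^ r))
          (DY (y :: s) u 0 (k + 1)) := by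
        have hl : u.length + s.length = r := by simp at h; omega
        cases y
        · simp only [DY]
          rw [Y_symm]
          exact J u s hu hv.tail hl hv.ne_nil (k + 1) (by omega)
        · simp only [DY]
          rw [Y_symm]
          exact (ih u s hu hv.tail hl k hk).mono le_rfl (by push_cast; linarith)
      have a2 : ArithOk (Nat.lcmUpto (K + 1)) φ (r + 1) (C + (k + 1 : ℕ) * (C * 4 ^ r))
          (DY u (y :: s) (k + 1) 0) := by
        cases u with
        | nil => exact .zero (by positivity)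
        | cons x t =>
          have hl : t.length + (y :: s).length = r := by simp at h ⊢; omega
          cases x
          · exact (ih t _ hu.tail hv hl k hk).mono le_rfl (by push_cast; linarith)
          · exact J t _ hu.tail hv hl (by simp) (k + 1) (by omega)
      refine (a1.sub a2).mono le_rfl ?_
      push_cast
      rw [pow_succ]
      nlinarith
    | nil =>
      cases u with
      | nil => simp at h
      | cons x t =>
        have hl : t.length + ([] : List Bool).length = r := by simpa using h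
        have step : ∀ a : ℕ, ((a + 1 : ℕ) : ℝ) * Y (x :: t) [] (a + 1) 1 =
            a * Y (x :: t) [] a 1 + DY (x :: t) [] a 1 := by
          intro a
          have e1 := Y_ibp (x :: t) [] hu hv a 1 (Or.inl (by simp)) (Or.inr le_rfl)
          have e2 := Y_split (x :: t) [] a 1 (Or.inl (by simp)) (Or.inr le_rfl)
          rw [show DY [] (x :: t) 1 a = 0 from rfl] at e1
          push_cast at e1 ⊢
          rw [e2]
          linarith
        cases x
        · have cl : ∀ a : ℕ, (a : ℝ) * Y (false :: t) [] a 1 = Y t [] 0 1 - Y t [] a 1 := by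
            intro a
            induction a with
            | zero => simp
            | succ a iha =>
              rw [step, iha, Y_split t [] a 1 (Or.inl hu.ne_nil) (Or.inr le_rfl)]
              simp only [DY]
              ring
          rw [cl]
          refine (((arith_G hφ _ (by omega) ((arith_cut [] t hu.tail hv).1 hu.ne_nil)).mono
            (Nat.zero_le _) le_rfl).sub (ih t [] hu.tail hv hl k hk)).mono le_rfl ?_
          push_cast
          rw [pow_succ]
          nlinarith
        · have cl : ∀ a ≤ K + 1, ArithOk (Nat.lcmUpto (K + 1)) φ (r + 1) (a * (C * 4 ^ r))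
              ((a : ℝ) * Y (true :: t) [] a 1) := by
            intro a
            induction a with
            | zero => intro _; simpa using ArithOk.zero le_rfl
            | succ a iha =>
              intro ha
              rw [step]
              refine ((iha (by omega)).add (ih t [] hu.tail hv hl a (by omega))).mono le_rfl
                (le_of_eq ?_)
              push_cast; ring
          refine (cl (k + 1) (by omega)).mono le_rfl ?_
          push_cast
          rw [pow_succ]
          nlinarith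

theorem arith (R : ℕ) (φ : ℝ →ₗ[ℚ] ℚ) (C : ℚ) (hφ : Good R φ C)
    (u v : List Bool) (hu : Adm u) (hv : Adm v) (hR : u.length + v.length ≤ R)
    (K i j : ℕ) (hK : i + j ≤ K) :
    (∃ z : ℤ, (Nat.lcmUpto (K + 1) : ℚ) ^ (R + 1) * φ (Y u v (i + 1) (j + 1)) = z) ∧
      |φ (Y u v (i + 1) (j + 1))| ≤ C * 2 ^ j * 4 ^ R := by
  have hC : 0 ≤ C := (abs_nonneg _).trans (hφ 1 (one_mem_G R)).2
  change ArithOk _ φ (R + 1) _ _
  induction j generalizing i with
  | zero =>
    refine (arith_I hφ K _ hR u v hu hv rfl i (by omega)).mono (by omega) ?_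
    rw [pow_zero, mul_one]
    exact mul_le_mul_of_nonneg_left (pow_le_pow_right₀ (by norm_num) hR) hC
  | succ j ih =>
    have e := Y_split u v (i + 1) (j + 1) (Or.inr (by omega)) (Or.inr (by omega))
    rw [eq_sub_of_add_eq' e.symm]
    exact ((ih i (by omega)).sub (ih (i + 1) (by omega))).mono le_rfl (le_of_eq (by ring))

end MZVLB

end

-- part MP_f3dc73_nt.Siegel
section

set_option autoImplicit false

namespace MZVLB

open Finset

/-- A subspace of codimension at least k meets some coordinate subspace of dimension k trivially. -/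
theorem Siegel_coords {β : Type} [Fintype β] [DecidableEq β] (W : Submodule ℚ (β → ℚ)) (k : ℕ)
    (hk : k + Module.finrank ℚ W ≤ Fintype.card β) :
    ∃ a : Fin k → β, Function.Injective a ∧
      ∀ y : Fin k → ℚ, (∑ i, y i • (Pi.single (a i) (1 : ℚ) : β → ℚ)) ∈ W → y = 0 := by
  classical
  set v : β → ((β → ℚ) ⧸ W) := fun j => W.mkQ (Pi.single j (1 : ℚ)) with hv
  have hspan : Submodule.span ℚ (Set.range v) = ⊤ := by
    have h1 : Set.range v = W.mkQ '' Set.range (Pi.basisFun ℚ β) := by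
      rw [← Set.range_comp]
      congr 1
      funext j
      simp [hv]
    rw [h1, ← Submodule.map_span, (Pi.basisFun ℚ β).span_eq, Submodule.map_top,
      Submodule.range_mkQ]
  obtain ⟨κ, a, ha, hsp, hli⟩ := exists_linearIndependent' ℚ v
  have : Finite κ := Finite.of_injective a ha
  let _ : Fintype κ := Fintype.ofFinite κ
  have hcard : Fintype.card κ = Module.finrank ℚ ((β → ℚ) ⧸ W) := by
    rw [← finrank_span_eq_card hli, hsp, hspan, finrank_top]
  have hq := W.finrank_quotient_add_finrank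
  rw [Module.finrank_fintype_fun_eq_card] at hq
  have hle : Fintype.card (Fin k) ≤ Fintype.card κ := by
    rw [Fintype.card_fin]; omega
  obtain ⟨e⟩ := Function.Embedding.nonempty_of_card_le hle
  refine ⟨a ∘ e, ha.comp e.injective, fun y hy => ?_⟩
  have hli' : LinearIndependent ℚ ((v ∘ a) ∘ e) := hli.comp e e.injective
  rw [Fintype.linearIndependent_iff] at hli'
  funext i
  refine hli' y ?_ i
  have h0 : W.mkQ (∑ i, y i • (Pi.single ((a ∘ e) i) (1 : ℚ) : β → ℚ)) = 0 := by
    rw [Submodule.mkQ_apply, Submodule.Quotient.mk_eq_zero]; exact hy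
  rw [map_sum] at h0
  simpa [hv] using h0

section

attribute [local instance] Matrix.seminormedAddCommGroup

/-- Siegel lemma in the form needed here. -/
theorem Siegel_small (T t E h : ℕ) (ht : 1 ≤ t) (hT : 1 ≤ T) (hE : 1 ≤ E)
    (A : Matrix (Fin T) (Fin ((t + 1) * T)) ℤ) (hA : ∀ i j, |A i j| ≤ E)
    (hh : (t + 1) * T * E ≤ h ^ t) :
    ∃ z : Fin ((t + 1) * T) → ℤ, z ≠ 0 ∧ A.mulVec z = 0 ∧ ∀ j, |z j| ≤ h := by
  have hlt : Fintype.card (Fin T) < Fintype.card (Fin ((t + 1) * T)) := by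
    simp only [Fintype.card_fin]; nlinarith
  have hpos : 0 < Fintype.card (Fin T) := by simp only [Fintype.card_fin]; omega
  obtain ⟨z, hz0, hz, hn⟩ := Int.Matrix.exists_ne_zero_int_vec_norm_le A hlt hpos
  refine ⟨z, hz0, hz, fun j => ?_⟩
  have hE' : (1 : ℝ) ≤ E := by exact_mod_cast hE
  have hT' : (0 : ℝ) < T := by exact_mod_cast hT
  have ht' : (0 : ℝ) < t := by exact_mod_cast ht
  have hAn : ‖A‖ ≤ E := by
    rw [Matrix.norm_le_iff (by linarith)]
    intro i j
    rw [Int.norm_eq_abs]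
    exact_mod_cast hA i j
  have hmax : max 1 ‖A‖ ≤ E := max_le hE' hAn
  simp only [Fintype.card_fin] at hn
  have he : (T : ℝ) / ((((t + 1) * T : ℕ) : ℝ) - T) = (t : ℝ)⁻¹ := by
    push_cast
    have : ((t : ℝ) + 1) * T - T = t * T := by ring
    rw [this]
    field_simp
  rw [he] at hn
  have hb : (((t + 1) * T : ℕ) : ℝ) * max 1 ‖A‖ ≤ (h : ℝ) ^ t := by
    calc (((t + 1) * T : ℕ) : ℝ) * max 1 ‖A‖ ≤ (((t + 1) * T : ℕ) : ℝ) * E := by gcongr
      _ ≤ (h : ℝ) ^ t := by exact_mod_cast hh
  have h2 : ((((t + 1) * T : ℕ) : ℝ) * max 1 ‖A‖) ^ ((t : ℝ)⁻¹) ≤ h := by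
    calc ((((t + 1) * T : ℕ) : ℝ) * max 1 ‖A‖) ^ ((t : ℝ)⁻¹) ≤ ((h : ℝ) ^ t) ^ ((t : ℝ)⁻¹) := by
          gcongr
      _ = h := Real.pow_rpow_inv_natCast (Nat.cast_nonneg h) (by omega)
  have h3 : ‖z j‖ ≤ ‖z‖ := norm_le_pi_norm z j
  rw [Int.norm_eq_abs] at h3
  have h4 : |((z j : ℤ) : ℝ)| ≤ (h : ℝ) := h3.trans (hn.trans h2)
  exact_mod_cast h4

end

/-- The small integer solutions of an integer linear system span a subspace of small codimension. -/
theorem small_span {β : Type} [Fintype β] [DecidableEq β] (T t E h : ℕ) (ht : 1 ≤ t) (hT : 1 ≤ T)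
    (hE : 1 ≤ E) (A : Matrix (Fin T) β ℤ) (hA : ∀ i j, |A i j| ≤ E)
    (hh : (t + 1) * T * E ≤ h ^ t) :
    Fintype.card β < (t + 1) * T + Module.finrank ℚ (Submodule.span ℚ
      {x : β → ℚ | ∃ z : β → ℤ, A.mulVec z = 0 ∧ (∀ j, |z j| ≤ h) ∧ x = fun j => (z j : ℚ)}) := by
  by_contra hcon
  rw [not_lt] at hcon
  obtain ⟨a, ha, hW⟩ := Siegel_coords _ _ hcon
  obtain ⟨z, hz0, hz, hb⟩ := Siegel_small T t E h ht hT hE (A.submatrix id a)
    (fun i j => hA i (a j)) hh
  set x : β → ℤ := ∑ i, z i • (Pi.single (a i) (1 : ℤ) : β → ℤ) with hx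
  have hx1 : A.mulVec x = 0 := by
    rw [← hz]
    funext r
    simp only [hx, Matrix.mulVec, dotProduct, Finset.sum_apply, Pi.smul_apply, smul_eq_mul,
      Finset.mul_sum, Matrix.submatrix_apply, id]
    rw [Finset.sum_comm]
    refine Finset.sum_congr rfl fun i _ => ?_
    rw [Finset.sum_eq_single (a i)]
    · simp
    · intro j _ hj
      simp [Pi.single_apply, hj]
    · simp
  have hx2 : ∀ j, |x j| ≤ h := by
    intro j
    simp only [hx, Finset.sum_apply, Pi.smul_apply, smul_eq_mul]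
    by_cases hj : ∃ i, a i = j
    · obtain ⟨i, rfl⟩ := hj
      rw [Finset.sum_eq_single i]
      · simpa using hb i
      · intro i' _ hi'
        have : a i ≠ a i' := fun h' => hi' (ha h').symm
        simp [Pi.single_apply, this]
      · simp
    · have : ∀ i, j ≠ a i := fun i h' => hj ⟨i, h'.symm⟩
      simp [Pi.single_apply, this]
  have hx3 : (∑ i, (z i : ℚ) • (Pi.single (a i) (1 : ℚ) : β → ℚ)) = fun j => (x j : ℚ) := by
    funext j
    simp only [hx, Finset.sum_apply, Pi.smul_apply, smul_eq_mul, Int.cast_sum, Int.cast_mul,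
      Pi.single_apply]
    refine Finset.sum_congr rfl fun i _ => ?_
    split_ifs <;> simp
  have h0 := hW (fun i => (z i : ℚ)) (by
    rw [hx3]
    exact Submodule.subset_span ⟨x, hx1, hx2, rfl⟩)
  apply hz0
  funext i
  have := congrFun h0 i
  simpa using this

/-- A pairing with trivial right kernel does not vanish on two large subspaces. -/
theorem exists_pair_ne_zero {β0 β1 : Type} [Fintype β0] [Fintype β1]
    (B : β0 → β1 → ℚ) (hB : ∀ y : β1 → ℚ, (∀ p, ∑ q, B p q * y q = 0) → y = 0)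
    (S0 : Set (β0 → ℚ)) (S1 : Set (β1 → ℚ)) (κ : ℕ)
    (h0 : Fintype.card β0 < κ + Module.finrank ℚ (Submodule.span ℚ S0))
    (h1 : Fintype.card β1 < κ + Module.finrank ℚ (Submodule.span ℚ S1))
    (hκ : 2 * κ ≤ Fintype.card β1) :
    ∃ x ∈ S0, ∃ y ∈ S1, ∑ p, ∑ q, x p * y q * B p q ≠ 0 := by
  classical
  by_contra hcon
  push Not at hcon
  let L : (β1 → ℚ) →ₗ[ℚ] Module.Dual ℚ (β0 → ℚ) :=
    LinearMap.mk₂ ℚ (fun y x => ∑ p, ∑ q, x p * y q * B p q)
      (fun y y' x => by
        simp only [Pi.add_apply, mul_add, add_mul, Finset.sum_add_distrib])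
      (fun r y x => by
        simp only [Pi.smul_apply, smul_eq_mul, Finset.mul_sum]
        exact Finset.sum_congr rfl fun p _ => Finset.sum_congr rfl fun q _ => by ring)
      (fun y x x' => by
        simp only [Pi.add_apply, mul_add, add_mul, Finset.sum_add_distrib])
      (fun r y x => by
        simp only [Pi.smul_apply, smul_eq_mul, Finset.mul_sum]
        exact Finset.sum_congr rfl fun p _ => Finset.sum_congr rfl fun q _ => by ring)
  have hL : ∀ y x, L y x = ∑ p, ∑ q, x p * y q * B p q := fun y x => rfl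
  have hinj : Function.Injective L := by
    rw [← LinearMap.ker_eq_bot, LinearMap.ker_eq_bot']
    intro y hy
    refine hB y fun p => ?_
    have h2 : L y (Pi.single p 1) = 0 := by rw [hy]; rfl
    rw [hL, Finset.sum_eq_single p] at h2
    · rw [← h2]
      exact Finset.sum_congr rfl fun q _ => by simp [mul_comm]
    · intro p' _ hp'
      simp [Pi.single_apply, hp']
    · simp
  have hmap : (Submodule.span ℚ S1).map L ≤ (Submodule.span ℚ S0).dualAnnihilator := by
    rw [Submodule.map_span, Submodule.span_le]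
    rintro _ ⟨y, hy, rfl⟩
    rw [SetLike.mem_coe, Submodule.mem_dualAnnihilator]
    intro x hx
    have : Submodule.span ℚ S0 ≤ LinearMap.ker (L y) := by
      rw [Submodule.span_le]
      intro x' hx'
      exact hcon x' hx' y hy
    exact this hx
  have h2 := Submodule.finrank_mono hmap
  have h3 : Module.finrank ℚ ((Submodule.span ℚ S1).map L) =
      Module.finrank ℚ (Submodule.span ℚ S1) :=
    (LinearEquiv.finrank_eq (Submodule.equivMapOfInjective L hinj _)).symm
  have h4 := Subspace.finrank_add_finrank_dualAnnihilator_eq (Submodule.span ℚ S0)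
  rw [Module.finrank_fintype_fun_eq_card] at h4
  omega

/-- Simultaneous Dirichlet approximation. -/
theorem Siegel_dirichlet (δ Q : ℕ) (hQ : 1 ≤ Q) (θ : Fin δ → ℝ) :
    ∃ q : ℕ, 1 ≤ q ∧ q ≤ Q ^ δ ∧ ∃ p : Fin δ → ℤ, ∀ i, |(q : ℝ) * θ i - p i| ≤ 1 / Q := by
  classical
  have hQ' : (0 : ℝ) < Q := by exact_mod_cast hQ
  let f : ℕ → Fin δ → ℤ := fun q i => ⌊(Q : ℝ) * Int.fract ((q : ℝ) * θ i)⌋
  have hmaps : ∀ q ∈ range (Q ^ δ + 1), f q ∈ Fintype.piFinset fun _ : Fin δ => Ico (0 : ℤ) Q := by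
    intro q _
    rw [Fintype.mem_piFinset]
    intro i
    rw [mem_Ico]
    constructor
    · exact Int.floor_nonneg.2 (mul_nonneg hQ'.le (Int.fract_nonneg _))
    · rw [Int.floor_lt]
      have := Int.fract_lt_one ((q : ℝ) * θ i)
      push_cast
      nlinarith
  have hc : (Fintype.piFinset fun _ : Fin δ => Ico (0 : ℤ) Q).card < (range (Q ^ δ + 1)).card := by
    simp [Fintype.card_piFinset]
  have key : ∀ q1 q2 : ℕ, q1 < q2 → q2 ≤ Q ^ δ → f q1 = f q2 →
      ∃ q : ℕ, 1 ≤ q ∧ q ≤ Q ^ δ ∧ ∃ p : Fin δ → ℤ, ∀ i, |(q : ℝ) * θ i - p i| ≤ 1 / Q := by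
    intro q1 q2 hlt hle hf
    refine ⟨q2 - q1, by omega, by omega, fun i => ⌊(q2 : ℝ) * θ i⌋ - ⌊(q1 : ℝ) * θ i⌋, fun i => ?_⟩
    have h1 := Int.abs_sub_lt_one_of_floor_eq_floor (congrFun hf i).symm
    rw [← mul_sub, abs_mul, abs_of_pos hQ'] at h1
    have h2 : ((q2 - q1 : ℕ) : ℝ) * θ i - ((⌊(q2 : ℝ) * θ i⌋ - ⌊(q1 : ℝ) * θ i⌋ : ℤ) : ℝ) =
        Int.fract ((q2 : ℝ) * θ i) - Int.fract ((q1 : ℝ) * θ i) := by
      rw [Nat.cast_sub hlt.le]
      simp only [Int.fract]
      push_cast
      ring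
    rw [h2, le_div_iff₀ hQ']
    linarith
  obtain ⟨q1, hq1, q2, hq2, hne, hf⟩ := exists_ne_map_eq_of_card_lt_of_maps_to hc hmaps
  rw [mem_range] at hq1 hq2
  rcases lt_or_gt_of_ne hne with h | h
  · exact key q1 q2 h (by omega) hf
  · exact key q2 q1 h (by omega) hf.symm

/-- Finitely many rationals have a common denominator and a common bound. -/
theorem Siegel_denom {ι : Type} (s : Set ι) (hs : s.Finite) (r : ι → ℚ) :
    ∃ D M : ℕ, 1 ≤ D ∧ ∀ i ∈ s, (∃ z : ℤ, (D : ℚ) * r i = z) ∧ |(D : ℚ) * r i| ≤ M := by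
  classical
  set D : ℕ := ∏ i ∈ hs.toFinset, (r i).den with hD
  have hD1 : 1 ≤ D := Finset.prod_pos fun i _ => (r i).den_pos
  refine ⟨D, ⌈∑ i ∈ hs.toFinset, |(D : ℚ) * r i|⌉₊, hD1, fun i hi => ⟨?_, ?_⟩⟩
  · obtain ⟨c, hc⟩ : (r i).den ∣ D := Finset.dvd_prod_of_mem _ (hs.mem_toFinset.2 hi)
    refine ⟨c * (r i).num, ?_⟩
    rw [hc]
    push_cast
    rw [mul_comm ((r i).den : ℚ), mul_assoc, Rat.den_mul_eq_num]
  · refine le_trans ?_ (Nat.le_ceil _)
    exact Finset.single_le_sum (f := fun i => |(D : ℚ) * r i|) (fun j _ => abs_nonneg _)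
      (hs.mem_toFinset.2 hi)

/-- Linear independence criterion (via simultaneous Dirichlet approximation). -/
theorem criterion (G : Set ℝ) (hG : G.Finite) (h1 : (1 : ℝ) ∈ G) :
    ∃ C : ℕ, 1 ≤ C ∧ ∀ (S : Set ℝ) (H : ℕ) (ε : ℝ), 1 ≤ H → (∀ s ∈ S, |s| ≤ ε) →
      (∀ (φ : ℝ →ₗ[ℚ] ℚ) (C' : ℚ), (∀ g ∈ G, (∃ z : ℤ, φ g = z) ∧ |φ g| ≤ C') →
        ∀ s ∈ S, (∃ z : ℤ, φ s = z) ∧ |φ s| ≤ C' * H) →
      (∀ φ : ℝ →ₗ[ℚ] ℚ, φ 1 ≠ 0 → ∃ s ∈ S, φ s ≠ 0) →
      1 ≤ 2 * ((C * H : ℕ) : ℝ) ^ Module.finrank ℚ (Submodule.span ℚ G) * ε := by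
  classical
  set V : Submodule ℚ ℝ := Submodule.span ℚ G with hV
  have : FiniteDimensional ℚ V := FiniteDimensional.span_of_finite ℚ hG
  set δ := Module.finrank ℚ V with hδ
  let b : Module.Basis (Fin δ) ℚ V := Module.finBasis ℚ V
  have hext : ∀ i, ∃ g : ℝ →ₗ[ℚ] ℚ, g.comp V.subtype = b.coord i :=
    fun i => LinearMap.exists_extend _
  choose ψ hψ using hext
  obtain ⟨D, M, hD, hDM⟩ := Siegel_denom ((Set.univ : Set (Fin δ)) ×ˢ G)
    (Set.finite_univ.prod hG) (fun x => ψ x.1 x.2)
  have hD' : (0 : ℝ) < D := by exact_mod_cast hD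
  let φ : Fin δ → (ℝ →ₗ[ℚ] ℚ) := fun i => (D : ℚ) • ψ i
  have hφ : ∀ i, ∀ g ∈ G, (∃ z : ℤ, φ i g = z) ∧ |φ i g| ≤ (M : ℚ) := by
    intro i g hg
    simpa [φ] using hDM (i, g) ⟨Set.mem_univ _, hg⟩
  let θ : Fin δ → ℝ := fun i => (b i : ℝ) / D
  have hrep : ∀ x ∈ V, x = ∑ i, ((φ i x : ℚ) : ℝ) * θ i := by
    intro x hx
    have h2 := congrArg (fun v : V => (v : ℝ)) (b.sum_repr ⟨x, hx⟩)
    simp only [AddSubmonoidClass.coe_finsetSum, SetLike.val_smul] at h2
    conv_lhs => rw [← h2]
    refine Finset.sum_congr rfl fun i _ => ?_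
    have h3 : ψ i x = b.repr ⟨x, hx⟩ i := by
      have := congrArg (fun g : V →ₗ[ℚ] ℚ => g ⟨x, hx⟩) (hψ i)
      simpa using this
    simp only [φ, θ, LinearMap.smul_apply, smul_eq_mul, h3, Rat.smul_def]
    push_cast
    field_simp
  refine ⟨2 * δ * M + 1, by omega, fun S H ε hH hS hgood hnz => ?_⟩
  set C : ℕ := 2 * δ * M + 1 with hC
  have hQ : 1 ≤ C * H := Nat.mul_pos (by omega) hH
  obtain ⟨q, hq1, hq2, p, hp⟩ := Siegel_dirichlet δ (C * H) hQ θ
  let lam : ℝ →ₗ[ℚ] ℚ := ∑ i, (p i : ℚ) • φ i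
  have hlam : ∀ x, lam x = ∑ i, (p i : ℚ) * φ i x := by
    intro x
    simp [lam, LinearMap.sum_apply]
  have hH' : (1 : ℝ) ≤ H := by exact_mod_cast hH
  have hC' : (C : ℝ) = 2 * δ * M + 1 := by rw [hC]; push_cast; ring
  have hCpos : (0 : ℝ) < C := by rw [hC']; positivity
  have happ : ∀ x ∈ V, (∀ i, |φ i x| ≤ (M : ℚ) * H) → |(q : ℝ) * x - (lam x : ℝ)| < 1 / 2 := by
    intro x hx hb
    have h2 : (q : ℝ) * x - (lam x : ℝ) = ∑ i, ((q : ℝ) * θ i - p i) * ((φ i x : ℚ) : ℝ) := by
      conv_lhs => rw [hlam x]; arg 1; rw [hrep x hx]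
      push_cast
      rw [Finset.mul_sum, ← Finset.sum_sub_distrib]
      exact Finset.sum_congr rfl fun i _ => by ring
    rw [h2]
    calc |∑ i, ((q : ℝ) * θ i - p i) * ((φ i x : ℚ) : ℝ)|
        ≤ ∑ i, |((q : ℝ) * θ i - p i) * ((φ i x : ℚ) : ℝ)| := Finset.abs_sum_le_sum_abs _ _
      _ ≤ ∑ _i : Fin δ, (1 / ((C * H : ℕ) : ℝ)) * ((M : ℝ) * H) := by
          refine Finset.sum_le_sum fun i _ => ?_
          rw [abs_mul]
          have h3 : |((φ i x : ℚ) : ℝ)| ≤ (M : ℝ) * H := by exact_mod_cast hb i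
          exact mul_le_mul (hp i) h3 (abs_nonneg _) (by positivity)
      _ = δ * M / C := by
          rw [Finset.sum_const, Finset.card_univ, Fintype.card_fin, nsmul_eq_mul]
          push_cast
          field_simp
      _ < 1 / 2 := by
          rw [div_lt_iff₀ hCpos, hC']
          linarith
  have hq' : (1 : ℝ) ≤ q := by exact_mod_cast hq1
  have hone : lam 1 ≠ 0 := by
    intro h0
    have h2 := happ 1 (Submodule.subset_span h1) (fun i => by
      have h3 := (hφ i 1 h1).2
      have h4 : (1 : ℚ) ≤ H := by exact_mod_cast hH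
      have h5 : (0 : ℚ) ≤ M := Nat.cast_nonneg M
      nlinarith)
    rw [h0, Rat.cast_zero, sub_zero, mul_one, abs_of_pos (by linarith)] at h2
    linarith
  obtain ⟨s, hs, hs0⟩ := hnz lam hone
  have hsV : s ∈ V := by
    by_contra hns
    obtain ⟨g, hg1, hg2⟩ := LinearMap.exists_extend_of_notMem (0 : V →ₗ[ℚ] ℚ) hns (1 : ℚ)
    have h2 := (hgood g 0 (fun x hx => by
      have h3 : g x = 0 := by
        have := congrArg (fun f : V →ₗ[ℚ] ℚ => f ⟨x, Submodule.subset_span hx⟩) hg1
        simpa using this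
      exact ⟨⟨0, by simp [h3]⟩, by simp [h3]⟩) s hs).2
    rw [hg2] at h2
    norm_num at h2
  have hsφ : ∀ i, (∃ z : ℤ, φ i s = z) ∧ |φ i s| ≤ (M : ℚ) * H :=
    fun i => hgood (φ i) M (hφ i) s hs
  have h2 := happ s hsV fun i => (hsφ i).2
  choose z hz using fun i => (hsφ i).1
  have h3 : lam s = ((∑ i, p i * z i : ℤ) : ℚ) := by
    rw [hlam]
    push_cast
    exact Finset.sum_congr rfl fun i _ => by rw [hz i]
  have h4 : (1 : ℝ) ≤ |(lam s : ℝ)| := by
    rw [h3] at hs0 ⊢
    have h5 : (∑ i, p i * z i : ℤ) ≠ 0 := by exact_mod_cast hs0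
    have h6 := Int.one_le_abs h5
    rw [Rat.cast_intCast]
    exact_mod_cast h6
  have h5 : |(lam s : ℝ)| ≤ |(q : ℝ) * s| + |(q : ℝ) * s - (lam s : ℝ)| := by
    have := abs_sub ((q : ℝ) * s) ((q : ℝ) * s - (lam s : ℝ))
    simpa using this
  have hε : 0 ≤ ε := (abs_nonneg s).trans (hS s hs)
  have h6 : |(q : ℝ) * s| ≤ ((C * H : ℕ) : ℝ) ^ δ * ε := by
    rw [abs_mul, abs_of_pos (by linarith)]
    have h7 : (q : ℝ) ≤ ((C * H : ℕ) : ℝ) ^ δ := by exact_mod_cast hq2
    exact mul_le_mul h7 (hS s hs) (abs_nonneg _) (by positivity)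
  linarith

end MZVLB

end
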